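import Mathlib

/-!
# Functions of determinants: the choice of the parameters
-/

set_option autoImplicit false

namespace Pool.FDN

open Real

theorem exp_one_le : exp 1 ≤ 3 := by
  have := exp_one_lt_d9
  linarith

/-- `1 - (1 - x)^t ≥ t x / 2` if `t x ≤ 1`. -/
theorem one_sub_pow_ge {x : ℝ} {t : ℕ} (hx : 0 ≤ x) (hx1 : x ≤ 1) (h : t * x ≤ 1) :
    t * x / 2 ≤ 1 - (1 - x) ^ t := by
  have h1 : (1 - x) ^ t ≤ exp (-(t * x)) := by
    have h2 : 1 - x ≤ exp (-x) := by
      have := add_one_le_exp (-x)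
      linarith
    calc (1 - x) ^ t ≤ exp (-x) ^ t := pow_le_pow_left₀ (by linarith) h2 t
      _ = exp (-(t * x)) := by
          rw [← exp_nat_mul]
          congr 1
          ring
  set y : ℝ := t * x with hy
  have hy0 : 0 ≤ y := by positivity
  have h3 : exp (-y) ≤ 1 - y / 2 := by
    have h4 : y + 1 ≤ exp y := add_one_le_exp y
    have h5 : 0 < exp y := exp_pos _
    rw [exp_neg, inv_le_iff_one_le_mul₀ h5]
    have h6 : (1 - y / 2) * (y + 1) ≤ (1 - y / 2) * exp y :=
      mul_le_mul_of_nonneg_left h4 (by linarith)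
    nlinarith
  linarith

/-- `(1 - 1/t)^(t-1) ≥ 1/3`. -/
theorem pow_pred_ge {a : ℕ} (ha : 1 ≤ a) :
    (1 : ℝ) / 3 ≤ (1 - 1 / ((a : ℝ) + 1)) ^ a := by
  have ha' : (1 : ℝ) ≤ a := by exact_mod_cast ha
  have ha0 : (0 : ℝ) < a := by linarith
  have h1 : 1 - 1 / ((a : ℝ) + 1) = (1 + 1 / (a : ℝ))⁻¹ := by
    field_simp
    ring
  rw [h1, inv_pow, one_div]
  refine inv_anti₀ (by positivity) ?_
  calc (1 + 1 / (a : ℝ)) ^ a ≤ exp (1 / (a : ℝ)) ^ a := by
        refine pow_le_pow_left₀ (by positivity) ?_ a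
        have := add_one_le_exp (1 / (a : ℝ))
        linarith
    _ = exp 1 := by
        rw [← exp_nat_mul]
        congr 1
        field_simp
    _ ≤ 3 := exp_one_le

/-- The binomial sum. -/
theorem sum_le {D m t : ℕ} (hD : 1 ≤ D) (hm : 1 ≤ m) (ht : 1 ≤ t) :
    ∑ j ∈ Finset.range (D + 1), ((D * m - D - 1 + j).choose j : ℝ) * (1 / (t : ℝ)) ^ j ≤
      (3 * (((t : ℝ) + m) / t)) ^ D := by
  have ht' : (1 : ℝ) ≤ t := by exact_mod_cast ht
  have ht0 : (0 : ℝ) < t := by linarith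
  have hm' : (1 : ℝ) ≤ m := by exact_mod_cast hm
  have hm0 : (0 : ℝ) < m := by linarith
  set w : ℝ := ((t : ℝ) + m) / t with hw
  have hw1 : 1 ≤ w := by
    rw [hw, le_div_iff₀ ht0]
    linarith
  have hw0 : 0 < w := by linarith
  have h1 : ∀ j ∈ Finset.range (D + 1),
      ((D * m - D - 1 + j).choose j : ℝ) * (1 / (t : ℝ)) ^ j ≤
        w ^ D * (((D * m).choose j : ℝ) * (1 / ((t : ℝ) + m)) ^ j) := by
    intro j hj
    have hjD : j ≤ D := by
      have := Finset.mem_range.1 hj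
      omega
    have h2 : ((D * m - D - 1 + j).choose j : ℝ) ≤ ((D * m).choose j : ℝ) := by
      have h3 : D * m - D - 1 + j ≤ D * m := by
        have : D * 1 ≤ D * m := Nat.mul_le_mul_left _ hm
        omega
      exact_mod_cast Nat.choose_le_choose j h3
    have h4 : (1 / (t : ℝ)) ^ j = w ^ j * (1 / ((t : ℝ) + m)) ^ j := by
      rw [← mul_pow]
      congr 1
      rw [hw]
      field_simp
    have h5 : w ^ j ≤ w ^ D := pow_le_pow_right₀ hw1 hjD
    rw [h4]
    calc ((D * m - D - 1 + j).choose j : ℝ) * (w ^ j * (1 / ((t : ℝ) + m)) ^ j)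
        ≤ ((D * m).choose j : ℝ) * (w ^ D * (1 / ((t : ℝ) + m)) ^ j) := by
          refine mul_le_mul h2 ?_ (by positivity) (by positivity)
          exact mul_le_mul_of_nonneg_right h5 (by positivity)
      _ = _ := by ring
  have h6 : ∑ j ∈ Finset.range (D + 1), (((D * m).choose j : ℝ) * (1 / ((t : ℝ) + m)) ^ j) ≤
      (1 + 1 / ((t : ℝ) + m)) ^ (D * m) := by
    have hle : D + 1 ≤ D * m + 1 := by
      have : D * 1 ≤ D * m := Nat.mul_le_mul_left _ hm
      omega
    calc ∑ j ∈ Finset.range (D + 1), (((D * m).choose j : ℝ) * (1 / ((t : ℝ) + m)) ^ j)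
        ≤ ∑ j ∈ Finset.range (D * m + 1), (((D * m).choose j : ℝ) * (1 / ((t : ℝ) + m)) ^ j) := by
          refine Finset.sum_le_sum_of_subset_of_nonneg (Finset.range_mono hle) ?_
          intro j _ _
          positivity
      _ = (1 + 1 / ((t : ℝ) + m)) ^ (D * m) := by
          rw [add_comm (1 : ℝ), add_pow]
          refine Finset.sum_congr rfl fun j _ => ?_
          rw [one_pow, mul_one, mul_comm]
  have h7 : (1 + 1 / ((t : ℝ) + m)) ^ (D * m) ≤ 3 ^ D := by
    have h8 : (1 + 1 / ((t : ℝ) + m)) ≤ exp (1 / ((t : ℝ) + m)) := by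
      have := add_one_le_exp (1 / ((t : ℝ) + m))
      linarith
    calc (1 + 1 / ((t : ℝ) + m)) ^ (D * m) ≤ exp (1 / ((t : ℝ) + m)) ^ (D * m) :=
          pow_le_pow_left₀ (by positivity) h8 _
      _ = exp ((D * m : ℕ) * (1 / ((t : ℝ) + m))) := by rw [← exp_nat_mul]
      _ ≤ exp ((D : ℝ) * 1) := by
          refine exp_le_exp.2 ?_
          push_cast
          rw [mul_assoc]
          refine mul_le_mul_of_nonneg_left ?_ (by positivity)
          rw [mul_one_div, div_le_one (by linarith)]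
          linarith
      _ = exp 1 ^ D := by rw [← exp_nat_mul]
      _ ≤ 3 ^ D := pow_le_pow_left₀ (exp_pos _).le exp_one_le D
  calc ∑ j ∈ Finset.range (D + 1), ((D * m - D - 1 + j).choose j : ℝ) * (1 / (t : ℝ)) ^ j
      ≤ ∑ j ∈ Finset.range (D + 1), w ^ D * (((D * m).choose j : ℝ) * (1 / ((t : ℝ) + m)) ^ j) :=
        Finset.sum_le_sum h1
    _ = w ^ D * ∑ j ∈ Finset.range (D + 1), (((D * m).choose j : ℝ) * (1 / ((t : ℝ) + m)) ^ j) := by
        rw [Finset.mul_sum]
    _ ≤ w ^ D * 3 ^ D := mul_le_mul_of_nonneg_left (h6.trans h7) (by positivity)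
    _ = (3 * w) ^ D := by rw [mul_pow, mul_comm]

/-- The number of monomials. -/
theorem choose_le {r D : ℕ} (hD : 1 ≤ D) :
    ((r + D).choose D : ℝ) ≤ (3 * (((r : ℝ) + D) / D)) ^ D := by
  have hD' : (1 : ℝ) ≤ D := by exact_mod_cast hD
  have hD0 : (0 : ℝ) < D := by linarith
  have hr0 : (0 : ℝ) ≤ r := Nat.cast_nonneg _
  have hs : (0 : ℝ) < (r : ℝ) + D := by linarith
  set y : ℝ := (D : ℝ) / ((r : ℝ) + D) with hy
  have hy0 : 0 < y := by positivity
  have h1 : ((r + D).choose D : ℝ) * y ^ D ≤ (1 + y) ^ (r + D) := by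
    rw [add_comm (1 : ℝ) y, add_pow]
    have h2 : ((r + D).choose D : ℝ) * y ^ D = y ^ D * 1 ^ (r + D - D) * ((r + D).choose D : ℝ) := by
      rw [one_pow, mul_one, mul_comm]
    rw [h2]
    exact Finset.single_le_sum (f := fun j => y ^ j * 1 ^ (r + D - j) * ((r + D).choose j : ℝ))
      (fun j _ => by positivity) (Finset.mem_range.2 (by omega))
  have h3 : (1 + y) ^ (r + D) ≤ 3 ^ D := by
    calc (1 + y) ^ (r + D) ≤ exp y ^ (r + D) := by
          refine pow_le_pow_left₀ (by positivity) ?_ _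
          have := add_one_le_exp y
          linarith
      _ = exp ((D : ℝ) * 1) := by
          rw [← exp_nat_mul]
          congr 1
          rw [hy]
          push_cast
          field_simp
      _ = exp 1 ^ D := by rw [← exp_nat_mul]
      _ ≤ 3 ^ D := pow_le_pow_left₀ (exp_pos _).le exp_one_le D
  have h4 : ((r + D).choose D : ℝ) * y ^ D ≤ 3 ^ D := h1.trans h3
  have h5 : (3 * (((r : ℝ) + D) / D)) ^ D = 3 ^ D / y ^ D := by
    rw [← div_pow, hy]
    congr 1
    field_simp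
  rw [h5, le_div_iff₀ (by positivity)]
  exact h4

/-- **The numerical part.** -/
theorem FN : ∃ C : ℝ, 1 ≤ C ∧ ∀ n m r T D : ℕ, 1 ≤ n → 2 ≤ m → 1 ≤ r → 1 ≤ D → 1 ≤ T →
    (∀ N a : ℕ, a < N → D * (2 * (N + a) + 1) ≤ n → ∀ q : ℝ, 0 < q → q < 1 →
      (1 - (1 - q ^ N) ^ (a + 1)) ^ (2 * D) ≤
        T * ((r + D).choose D) * q ^ ((N - a) * (2 * D)) *
          (∑ j ∈ Finset.range (D + 1), ((D * m - D - 1 + j).choose j : ℝ) * (1 - q) ^ j) ^ 2) →
    ((n : ℝ) ^ 4 / (C * D * (r + D) * (1 + Real.log n) ^ 2 *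
      (n + D * (1 + Real.log n) * m) ^ 2)) ^ D ≤ T := by
  refine ⟨9720000, by norm_num, ?_⟩
  intro n m r T D hn hm hr hD hT H
  have hn' : (1 : ℝ) ≤ n := by exact_mod_cast hn
  have hn0 : (0 : ℝ) < n := by linarith
  have hm' : (2 : ℝ) ≤ m := by exact_mod_cast hm
  have hm0 : (0 : ℝ) < m := by linarith
  have hr' : (1 : ℝ) ≤ r := by exact_mod_cast hr
  have hD' : (1 : ℝ) ≤ D := by exact_mod_cast hD
  have hD0 : (0 : ℝ) < D := by linarith
  have hT' : (1 : ℝ) ≤ T := by exact_mod_cast hT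
  have hT0 : (0 : ℝ) < T := by linarith
  obtain ⟨L, hLdef⟩ : ∃ L : ℝ, L = 1 + Real.log n := ⟨_, rfl⟩
  rw [← hLdef]
  have hL1 : 1 ≤ L := by
    have := log_nonneg hn'
    linarith
  have hL0 : 0 < L := by linarith
  have hDL : 1 ≤ (D : ℝ) * L := one_le_mul_of_one_le_of_one_le hD' hL1
  have hDL0 : 0 < (D : ℝ) * L := by linarith
  by_cases hcase : (n : ℝ) < 10 * (D * L)
  · -- trivial range
    have hbase : (n : ℝ) ^ 4 / (9720000 * D * (r + D) * L ^ 2 * (n + D * L * m) ^ 2) ≤ 1 := by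
      rw [div_le_one (by positivity)]
      have h1 : (n : ℝ) ^ 2 ≤ 100 * (D * L) ^ 2 := by
        calc (n : ℝ) ^ 2 ≤ (10 * (D * L)) ^ 2 := pow_le_pow_left₀ hn0.le hcase.le 2
          _ = _ := by ring
      have h2 : (n : ℝ) ^ 2 ≤ (n + D * L * m) ^ 2 := by
        refine pow_le_pow_left₀ hn0.le ?_ 2
        have : 0 ≤ (D : ℝ) * L * m := by positivity
        linarith
      have h3 : (D : ℝ) ≤ r + D := by linarith
      calc (n : ℝ) ^ 4 = n ^ 2 * n ^ 2 := by ring
        _ ≤ (100 * (D * L) ^ 2) * (n + D * L * m) ^ 2 :=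
            mul_le_mul h1 h2 (by positivity) (by positivity)
        _ = (100 * D * L ^ 2 * (n + D * L * m) ^ 2) * D := by ring
        _ ≤ (100 * D * L ^ 2 * (n + D * L * m) ^ 2) * (r + D) :=
            mul_le_mul_of_nonneg_left h3 (by positivity)
        _ ≤ (9720000 * D * L ^ 2 * (n + D * L * m) ^ 2) * (r + D) := by
            refine mul_le_mul_of_nonneg_right ?_ (by positivity)
            refine mul_le_mul_of_nonneg_right ?_ (by positivity)
            refine mul_le_mul_of_nonneg_right ?_ (by positivity)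
            refine mul_le_mul_of_nonneg_right (by norm_num) (by positivity)
        _ = _ := by ring
    calc ((n : ℝ) ^ 4 / (9720000 * D * (r + D) * L ^ 2 * (n + D * L * m) ^ 2)) ^ D ≤ 1 :=
          pow_le_one₀ (by positivity) hbase
      _ ≤ T := hT'
  · push Not at hcase
    obtain ⟨t, htdef⟩ : ∃ t : ℕ, t = ⌊(n : ℝ) / (5 * (D * L))⌋₊ := ⟨_, rfl⟩
    have ht2 : 2 ≤ t := by
      rw [htdef]
      refine Nat.le_floor ?_
      rw [le_div_iff₀ (by positivity)]
      push_cast
      linarith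
    have htle : (t : ℝ) ≤ n / (5 * (D * L)) := by
      rw [htdef]
      exact Nat.floor_le (by positivity)
    have htlt : (n : ℝ) / (5 * (D * L)) < t + 1 := by
      rw [htdef]
      exact Nat.lt_floor_add_one _
    have ht' : (2 : ℝ) ≤ t := by exact_mod_cast ht2
    have ht0 : (0 : ℝ) < t := by linarith
    have htn : 5 * (D * L) * t ≤ n := by
      rw [le_div_iff₀ (by positivity)] at htle
      linarith
    have htn2 : (n : ℝ) ≤ 10 * (D * L) * t := by
      rw [div_lt_iff₀ (by positivity)] at htlt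
      nlinarith
    have htn3 : (t : ℝ) ≤ n := by nlinarith
    obtain ⟨a, ha⟩ : ∃ a : ℕ, t = a + 1 := ⟨t - 1, by omega⟩
    have ha1 : 1 ≤ a := by omega
    have hta : (t : ℝ) = a + 1 := by rw [ha]; push_cast; ring
    obtain ⟨N, hNdef⟩ : ∃ N : ℕ, N = ⌈(t : ℝ) * (1 + log t)⌉₊ := ⟨_, rfl⟩
    have hlogt : 0 ≤ log (t : ℝ) := log_nonneg (by linarith)
    have hN1 : (t : ℝ) * (1 + log t) ≤ N := by
      rw [hNdef]
      exact Nat.le_ceil _
    have hN2 : (N : ℝ) < (t : ℝ) * (1 + log t) + 1 := by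
      rw [hNdef]
      exact Nat.ceil_lt_add_one (by positivity)
    have hNa : a < N := by
      have h1 : (t : ℝ) ≤ N := by nlinarith
      have h2 : t ≤ N := by exact_mod_cast h1
      omega
    have hNL : (N : ℝ) ≤ t * L + 1 := by
      have h1 : log (t : ℝ) ≤ log n := log_le_log ht0 htn3
      have h2 : (t : ℝ) * (1 + log t) ≤ t * L := by
        refine mul_le_mul_of_nonneg_left ?_ ht0.le
        rw [hLdef]
        linarith
      linarith
    have hsize : D * (2 * (N + a) + 1) ≤ n := by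
      have h1 : (D : ℝ) * (2 * (N + a) + 1) ≤ n := by
        have h2 : (2 * ((N : ℝ) + a) + 1) ≤ 5 * (L * t) := by
          have h3 : (a : ℝ) = t - 1 := by rw [hta]; ring
          have h4 : (t : ℝ) ≤ L * t := by nlinarith
          rw [h3]
          nlinarith
        calc (D : ℝ) * (2 * (N + a) + 1) ≤ D * (5 * (L * t)) :=
              mul_le_mul_of_nonneg_left h2 hD0.le
          _ = 5 * (D * L) * t := by ring
          _ ≤ n := htn
      exact_mod_cast h1
    obtain ⟨q, hqdef⟩ : ∃ q : ℝ, q = 1 - 1 / (t : ℝ) := ⟨_, rfl⟩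
    have hq0 : 0 < q := by
      rw [hqdef]
      have : 1 / (t : ℝ) ≤ 1 / 2 := one_div_le_one_div_of_le (by norm_num) ht'
      linarith
    have hq1 : q < 1 := by
      rw [hqdef]
      have : 0 < 1 / (t : ℝ) := by positivity
      linarith
    have h1q : 1 - q = 1 / (t : ℝ) := by rw [hqdef]; ring
    have hqa : (1 : ℝ) / 3 ≤ q ^ a := by
      rw [hqdef, hta]
      exact pow_pred_ge ha1
    have hqN : t * q ^ N ≤ 1 := by
      have h1 : q ≤ exp (-(1 / (t : ℝ))) := by
        have := add_one_le_exp (-(1 / (t : ℝ)))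
        rw [hqdef]
        linarith
      have h2 : q ^ N ≤ exp (-(1 + log t)) := by
        calc q ^ N ≤ exp (-(1 / (t : ℝ))) ^ N := pow_le_pow_left₀ hq0.le h1 N
          _ = exp (-((N : ℝ) / t)) := by
              rw [← exp_nat_mul]
              congr 1
              ring
          _ ≤ exp (-(1 + log t)) := by
              refine exp_le_exp.2 (neg_le_neg ?_)
              rw [le_div_iff₀ ht0]
              linarith
      have h3 : exp (-(1 + log (t : ℝ))) ≤ 1 / t := by
        have h4 : exp (-(1 + log (t : ℝ))) ≤ exp (-log t) := exp_le_exp.2 (by linarith)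
        rw [exp_neg (log (t : ℝ)), exp_log ht0] at h4
        rw [one_div]
        exact h4
      calc (t : ℝ) * q ^ N ≤ t * (1 / t) := mul_le_mul_of_nonneg_left (h2.trans h3) ht0.le
        _ = 1 := by field_simp
    have hqN0 : 0 ≤ q ^ N := by positivity
    have hqN1 : q ^ N ≤ 1 := pow_le_one₀ hq0.le hq1.le
    have hmain := H N a hNa hsize q hq0 hq1
    rw [h1q, ← ha] at hmain
    have hlow : (t * q ^ a / 2) ^ (2 * D) * q ^ ((N - a) * (2 * D)) ≤
        (1 - (1 - q ^ N) ^ t) ^ (2 * D) := by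
      have h1 : (t * q ^ a / 2) ^ (2 * D) * q ^ ((N - a) * (2 * D)) =
          (t * q ^ N / 2) ^ (2 * D) := by
        rw [pow_mul q (N - a) (2 * D), ← mul_pow]
        congr 1
        have h2 : q ^ N = q ^ a * q ^ (N - a) := by
          rw [← pow_add]
          congr 1
          omega
        rw [h2]
        ring
      rw [h1]
      exact pow_le_pow_left₀ (by positivity) (one_sub_pow_ge hqN0 hqN1 hqN) _
    have hS := sum_le hD (by omega : 1 ≤ m) (by omega : 1 ≤ t)
    have hS0 : 0 ≤ ∑ j ∈ Finset.range (D + 1),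
        ((D * m - D - 1 + j).choose j : ℝ) * (1 / (t : ℝ)) ^ j :=
      Finset.sum_nonneg fun j _ => by positivity
    have hch := choose_le (r := r) hD
    have hqp : 0 < q ^ ((N - a) * (2 * D)) := by positivity
    have h10 : (t * q ^ a / 2) ^ (2 * D) ≤
        T * (3 * (((r : ℝ) + D) / D)) ^ D * ((3 * (((t : ℝ) + m) / t)) ^ D) ^ 2 := by
      have h11 : (t * q ^ a / 2) ^ (2 * D) * q ^ ((N - a) * (2 * D)) ≤
          (T * (3 * (((r : ℝ) + D) / D)) ^ D * ((3 * (((t : ℝ) + m) / t)) ^ D) ^ 2) *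
            q ^ ((N - a) * (2 * D)) := by
        refine hlow.trans (hmain.trans ?_)
        calc (T : ℝ) * ((r + D).choose D) * q ^ ((N - a) * (2 * D)) *
            (∑ j ∈ Finset.range (D + 1),
              ((D * m - D - 1 + j).choose j : ℝ) * (1 / (t : ℝ)) ^ j) ^ 2
            ≤ (T : ℝ) * (3 * (((r : ℝ) + D) / D)) ^ D * q ^ ((N - a) * (2 * D)) *
              ((3 * (((t : ℝ) + m) / t)) ^ D) ^ 2 := by
              refine mul_le_mul ?_ (pow_le_pow_left₀ hS0 hS 2) (by positivity) (by positivity)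
              refine mul_le_mul_of_nonneg_right ?_ hqp.le
              exact mul_le_mul_of_nonneg_left hch hT0.le
          _ = _ := by ring
      exact le_of_mul_le_mul_right h11 hqp
    have h20 : ((t : ℝ) / 6) ^ (2 * D) ≤ (t * q ^ a / 2) ^ (2 * D) := by
      refine pow_le_pow_left₀ (by positivity) ?_ _
      nlinarith
    -- the final computation
    have h30 : ((t : ℝ) / 6) ^ (2 * D) ≤
        T * (27 * ((((r : ℝ) + D) / D) * (((t : ℝ) + m) / t) ^ 2)) ^ D := by
      refine (h20.trans h10).trans (le_of_eq ?_)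
      rw [← pow_mul, mul_comm D 2, pow_mul _ 2 D, mul_assoc, ← mul_pow]
      congr 2
      ring
    have h40 : (n : ℝ) ^ 4 / (9720000 * D * (r + D) * L ^ 2 * (n + D * L * m) ^ 2) ≤
        ((t : ℝ) / 6) ^ 2 / (27 * ((((r : ℝ) + D) / D) * (((t : ℝ) + m) / t) ^ 2)) := by
      have h41 : ((t : ℝ) / 6) ^ 2 / (27 * ((((r : ℝ) + D) / D) * (((t : ℝ) + m) / t) ^ 2)) =
          (t : ℝ) ^ 4 * D / (972 * ((r + D) * ((t : ℝ) + m) ^ 2)) := by
        field_simp
        norm_num
      rw [h41, div_le_div_iff₀ (by positivity) (by positivity)]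
      have h42 : (D * L * ((t : ℝ) + m)) ^ 2 ≤ (n + D * L * m) ^ 2 := by
        refine pow_le_pow_left₀ (by positivity) ?_ 2
        nlinarith
      have h43 : (n : ℝ) ^ 4 ≤ (10 * (D * L) * t) ^ 4 := pow_le_pow_left₀ hn0.le htn2 4
      calc (n : ℝ) ^ 4 * (972 * ((r + D) * ((t : ℝ) + m) ^ 2))
          ≤ (10 * (D * L) * t) ^ 4 * (972 * ((r + D) * ((t : ℝ) + m) ^ 2)) :=
            mul_le_mul_of_nonneg_right h43 (by positivity)
        _ = t ^ 4 * D * (9720000 * D * (r + D) * L ^ 2 * (D * L * ((t : ℝ) + m)) ^ 2) := by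
            ring
        _ ≤ t ^ 4 * D * (9720000 * D * (r + D) * L ^ 2 * (n + D * L * m) ^ 2) := by
            refine mul_le_mul_of_nonneg_left ?_ (by positivity)
            exact mul_le_mul_of_nonneg_left h42 (by positivity)
    calc ((n : ℝ) ^ 4 / (9720000 * D * (r + D) * L ^ 2 * (n + D * L * m) ^ 2)) ^ D
        ≤ (((t : ℝ) / 6) ^ 2 / (27 * ((((r : ℝ) + D) / D) * (((t : ℝ) + m) / t) ^ 2))) ^ D :=
          pow_le_pow_left₀ (by positivity) h40 D
      _ = ((t : ℝ) / 6) ^ (2 * D) / (27 * ((((r : ℝ) + D) / D) * (((t : ℝ) + m) / t) ^ 2)) ^ D := by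
          rw [div_pow, ← pow_mul]
      _ ≤ T := by
          rw [div_le_iff₀ (by positivity)]
          exact h30

end Pool.FDN
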