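import Mathlib
import Pool.Agent.Helper91.HN.Num4

/-!
# Functions of determinants: the choice of the parameters, version with copies
-/

set_option autoImplicit false

namespace Pool.FDN

open Real

/-- The choice of `N`, given `t`. -/
theorem choose_N {n D t : ℕ} (hn : 1 ≤ n) (hD : 1 ≤ D) (ht : 2 ≤ t)
    (h : 5 * ((D : ℝ) * (1 + log n)) * t ≤ n) :
    ∃ N a : ℕ, a + 1 = t ∧ a < N ∧ D * (2 * (N + a) + 1) ≤ n ∧
      ((t : ℝ) / 6) ^ (2 * D) * (1 - 1 / (t : ℝ)) ^ ((N - a) * (2 * D)) ≤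
        (1 - (1 - (1 - 1 / (t : ℝ)) ^ N) ^ t) ^ (2 * D) := by
  have hn' : (1 : ℝ) ≤ n := by exact_mod_cast hn
  have hn0 : (0 : ℝ) < n := by linarith
  have hD' : (1 : ℝ) ≤ D := by exact_mod_cast hD
  have hD0 : (0 : ℝ) < D := by linarith
  obtain ⟨L, hLdef⟩ : ∃ L : ℝ, L = 1 + Real.log n := ⟨_, rfl⟩
  rw [← hLdef] at h
  have hL1 : 1 ≤ L := by
    have := log_nonneg hn'
    linarith
  have hL0 : 0 < L := by linarith
  have hDL : 1 ≤ (D : ℝ) * L := one_le_mul_of_one_le_of_one_le hD' hL1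
  have ht' : (2 : ℝ) ≤ t := by exact_mod_cast ht
  have ht0 : (0 : ℝ) < t := by linarith
  have htn3 : (t : ℝ) ≤ n := by nlinarith
  obtain ⟨a, ha⟩ : ∃ a : ℕ, t = a + 1 := ⟨t - 1, by omega⟩
  have ha1 : 1 ≤ a := by omega
  have hta : (t : ℝ) = a + 1 := by rw [ha]; push_cast; ring
  obtain ⟨N, hNdef⟩ : ∃ N : ℕ, N = ⌈(t : ℝ) * (1 + log t)⌉₊ := ⟨_, rfl⟩
  have hlogt : 0 ≤ log (t : ℝ) := log_nonneg (by linarith)
  have hN1 : (t : ℝ) * (1 + log t) ≤ N := by
    rw [hNdef]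
    exact Nat.le_ceil _
  have hN2 : (N : ℝ) < (t : ℝ) * (1 + log t) + 1 := by
    rw [hNdef]
    exact Nat.ceil_lt_add_one (by positivity)
  have hNa : a < N := by
    have h1 : (t : ℝ) ≤ N := by nlinarith
    have h2 : t ≤ N := by exact_mod_cast h1
    omega
  have hNL : (N : ℝ) ≤ t * L + 1 := by
    have h1 : log (t : ℝ) ≤ log n := log_le_log ht0 htn3
    have h2 : (t : ℝ) * (1 + log t) ≤ t * L := by
      refine mul_le_mul_of_nonneg_left ?_ ht0.le
      rw [hLdef]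
      linarith
    linarith
  have hsize : D * (2 * (N + a) + 1) ≤ n := by
    have h1 : (D : ℝ) * (2 * (N + a) + 1) ≤ n := by
      have h2 : (2 * ((N : ℝ) + a) + 1) ≤ 5 * (L * t) := by
        have h3 : (a : ℝ) = t - 1 := by rw [hta]; ring
        have h4 : (t : ℝ) ≤ L * t := by nlinarith
        rw [h3]
        nlinarith
      calc (D : ℝ) * (2 * (N + a) + 1) ≤ D * (5 * (L * t)) :=
            mul_le_mul_of_nonneg_left h2 hD0.le
        _ = 5 * (D * L) * t := by ring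
        _ ≤ n := h
    exact_mod_cast h1
  refine ⟨N, a, ha.symm, hNa, hsize, ?_⟩
  obtain ⟨q, hqdef⟩ : ∃ q : ℝ, q = 1 - 1 / (t : ℝ) := ⟨_, rfl⟩
  rw [← hqdef]
  have hq0 : 0 < q := by
    rw [hqdef]
    have : 1 / (t : ℝ) ≤ 1 / 2 := one_div_le_one_div_of_le (by norm_num) ht'
    linarith
  have hq1 : q < 1 := by
    rw [hqdef]
    have : 0 < 1 / (t : ℝ) := by positivity
    linarith
  have hqa : (1 : ℝ) / 3 ≤ q ^ a := by
    rw [hqdef, hta]
    exact pow_pred_ge ha1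
  have hqN : t * q ^ N ≤ 1 := by
    have h1 : q ≤ exp (-(1 / (t : ℝ))) := by
      have := add_one_le_exp (-(1 / (t : ℝ)))
      rw [hqdef]
      linarith
    have h2 : q ^ N ≤ exp (-(1 + log t)) := by
      calc q ^ N ≤ exp (-(1 / (t : ℝ))) ^ N := pow_le_pow_left₀ hq0.le h1 N
        _ = exp (-((N : ℝ) / t)) := by
            rw [← exp_nat_mul]
            congr 1
            ring
        _ ≤ exp (-(1 + log t)) := by
            refine exp_le_exp.2 (neg_le_neg ?_)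
            rw [le_div_iff₀ ht0]
            linarith
    have h3 : exp (-(1 + log (t : ℝ))) ≤ 1 / t := by
      have h4 : exp (-(1 + log (t : ℝ))) ≤ exp (-log t) := exp_le_exp.2 (by linarith)
      rw [exp_neg (log (t : ℝ)), exp_log ht0] at h4
      rw [one_div]
      exact h4
    calc (t : ℝ) * q ^ N ≤ t * (1 / t) := mul_le_mul_of_nonneg_left (h2.trans h3) ht0.le
      _ = 1 := by field_simp
  have hqN0 : 0 ≤ q ^ N := by positivity
  have hqN1 : q ^ N ≤ 1 := pow_le_one₀ hq0.le hq1.le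
  have h1 : (t * q ^ a / 2) ^ (2 * D) * q ^ ((N - a) * (2 * D)) =
      (t * q ^ N / 2) ^ (2 * D) := by
    rw [pow_mul q (N - a) (2 * D), ← mul_pow]
    congr 1
    have h2 : q ^ N = q ^ a * q ^ (N - a) := by
      rw [← pow_add]
      congr 1
      omega
    rw [h2]
    ring
  have h20 : ((t : ℝ) / 6) ^ (2 * D) ≤ (t * q ^ a / 2) ^ (2 * D) := by
    refine pow_le_pow_left₀ (by positivity) ?_ _
    nlinarith
  calc ((t : ℝ) / 6) ^ (2 * D) * q ^ ((N - a) * (2 * D))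
      ≤ (t * q ^ a / 2) ^ (2 * D) * q ^ ((N - a) * (2 * D)) :=
        mul_le_mul_of_nonneg_right h20 (by positivity)
    _ = (t * q ^ N / 2) ^ (2 * D) := h1
    _ ≤ (1 - (1 - q ^ N) ^ t) ^ (2 * D) :=
        pow_le_pow_left₀ (by positivity) (one_sub_pow_ge hqN0 hqN1 hqN) _

/-- The hypothesis: the inequality obtained from the two dimension counts. -/
def Hyp (C : ℝ) (n k m T : ℕ) : Prop :=
  ∀ N a D d : ℕ, 1 ≤ D → 1 ≤ d → a < N → D * (2 * (N + a) + 1) ≤ n → ∀ q : ℝ, 0 < q → q < 1 →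
    (1 - (1 - q ^ N) ^ (a + 1)) ^ (2 * D) ≤
      q ^ ((N - a) * (2 * D)) * T *
        (C * (((m : ℝ) + 1) * (1 - q) + 2 * d + 1) ^ 2 * (1 / (d : ℝ) + (k : ℝ) / D)) ^ D

theorem sq_one_add_le' (y : ℝ) : (1 + y) ^ 2 ≤ 2 * (1 + y ^ 2) := by
  nlinarith [sq_nonneg (1 - y)]

/-- The main step: `log (2T) ≥ c n / (L t₀)` for every `t₀ ≥ 1` with `t₀³ ≥ m`, `t₀ ≥ k L / n`,
`t₀³ ≥ k L m² / n`. -/
theorem step {C : ℝ} (hC : 1 ≤ C) {n k m T : ℕ} (hn : 1 ≤ n) (hk : 1 ≤ k) (hm : 1 ≤ m)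
    (hT : 1 ≤ T) (H : Hyp C n k m T) {t₀ : ℝ} (h1 : 1 ≤ t₀) (h2 : (m : ℝ) ≤ t₀ ^ 3)
    (h3 : (k : ℝ) * (1 + log n) ≤ n * t₀) (h4 : (k : ℝ) * (1 + log n) * m ^ 2 ≤ n * t₀ ^ 3) :
    n / ((4000000 * C) * ((1 + log n) * t₀)) ≤ log (2 * T) := by
  have hn' : (1 : ℝ) ≤ n := by exact_mod_cast hn
  have hn0 : (0 : ℝ) < n := by linarith
  have hk' : (1 : ℝ) ≤ k := by exact_mod_cast hk
  have hk0 : (0 : ℝ) < k := by linarith
  have hm' : (1 : ℝ) ≤ m := by exact_mod_cast hm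
  have hm0 : (0 : ℝ) < m := by linarith
  have hT' : (1 : ℝ) ≤ T := by exact_mod_cast hT
  have hT0 : (0 : ℝ) < T := by linarith
  have hC0 : 0 < C := by linarith
  obtain ⟨L, hLdef⟩ : ∃ L : ℝ, L = 1 + Real.log n := ⟨_, rfl⟩
  have hdef := hLdef
  rw [← hLdef] at h3 h4 ⊢
  have hL1 : 1 ≤ L := by
    have := log_nonneg hn'
    linarith
  have hL0 : 0 < L := by linarith
  have ht₀0 : 0 < t₀ := by linarith
  obtain ⟨A, hA⟩ : ∃ A : ℝ, A = 200000 * C := ⟨_, rfl⟩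
  have hA1 : 200000 ≤ A := by rw [hA]; linarith
  have hA0 : 0 < A := by linarith
  obtain ⟨t, ht⟩ : ∃ t : ℕ, t = ⌈A * t₀⌉₊ := ⟨_, rfl⟩
  have hAt : 1 ≤ A * t₀ := one_le_mul_of_one_le_of_one_le (by linarith) h1
  have ht1 : A * t₀ ≤ t := by rw [ht]; exact Nat.le_ceil _
  have ht2 : (t : ℝ) ≤ 2 * (A * t₀) := by
    have : (t : ℝ) < A * t₀ + 1 := by rw [ht]; exact Nat.ceil_lt_add_one (by positivity)
    linarith
  have ht3 : A ≤ t := (le_mul_of_one_le_right hA0.le h1).trans ht1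
  have ht0 : (0 : ℝ) < t := by linarith
  have ht4 : 2 ≤ t := by
    have : (2 : ℝ) ≤ t := by linarith
    exact_mod_cast this
  by_cases hcase : (n : ℝ) < 5 * L * t
  · -- trivial range
    have h5 : (n : ℝ) / ((4000000 * C) * (L * t₀)) ≤ 1 / 2 := by
      rw [div_le_div_iff₀ (by positivity) (by norm_num)]
      have h6 : (n : ℝ) ≤ 5 * L * (2 * (A * t₀)) :=
        hcase.le.trans (mul_le_mul_of_nonneg_left ht2 (by positivity))
      calc (n : ℝ) * 2 ≤ 5 * L * (2 * (A * t₀)) * 2 := by linarith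
        _ = 1 * (4000000 * C * (L * t₀)) := by rw [hA]; ring
    have h6 : log 2 ≤ log (2 * T) := log_le_log (by norm_num) (by linarith)
    have h7 := log_two_gt_d9
    linarith
  · push Not at hcase
    obtain ⟨D, hD⟩ : ∃ D : ℕ, D = ⌊(n : ℝ) / (5 * L * t)⌋₊ := ⟨_, rfl⟩
    have hD1 : 1 ≤ D := by
      rw [hD]
      refine Nat.le_floor ?_
      rw [le_div_iff₀ (by positivity)]
      push_cast
      linarith
    have hDle : (D : ℝ) * (5 * L * t) ≤ n := by
      have : (D : ℝ) ≤ n / (5 * L * t) := by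
        rw [hD]
        exact Nat.floor_le (by positivity)
      rwa [le_div_iff₀ (by positivity)] at this
    have hD1' : (1 : ℝ) ≤ D := by exact_mod_cast hD1
    have hD0 : (0 : ℝ) < D := by linarith
    have hDlt : (n : ℝ) ≤ 2 * D * (5 * L * t) := by
      have h5 : (n : ℝ) / (5 * L * t) < D + 1 := by
        rw [hD]
        exact Nat.lt_floor_add_one _
      rw [div_lt_iff₀ (by positivity)] at h5
      have h6 : (0 : ℝ) < 5 * L * t := by positivity
      have h7 : ((D : ℝ) + 1) * (5 * L * t) ≤ (2 * D) * (5 * L * t) :=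
        mul_le_mul_of_nonneg_right (by linarith) h6.le
      linarith
    obtain ⟨N, a, hta, haN, hsize, hlow⟩ := choose_N (n := n) (D := D) (t := t) hn hD1 ht4 (by
      rw [← hdef]
      calc 5 * ((D : ℝ) * L) * t = D * (5 * L * t) := by ring
        _ ≤ n := hDle)
    obtain ⟨d, hd⟩ : ∃ d : ℕ, d = ⌈((m : ℝ) + 1) / t⌉₊ := ⟨_, rfl⟩
    obtain ⟨X, hX⟩ : ∃ X : ℝ, X = ((m : ℝ) + 1) / t + 1 := ⟨_, rfl⟩
    have hxpos : 0 < ((m : ℝ) + 1) / t := by positivity
    have hX0 : 0 < X := by rw [hX]; linarith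
    have hd1 : 1 ≤ d := by
      rw [hd]
      exact Nat.one_le_ceil_iff.2 hxpos
    have hd1' : (1 : ℝ) ≤ d := by exact_mod_cast hd1
    have hd0 : (0 : ℝ) < d := by linarith
    have hdle : (d : ℝ) ≤ X := by
      rw [hd, hX]
      exact (Nat.ceil_lt_add_one hxpos.le).le
    have hdge : ((m : ℝ) + 1) / t ≤ d := by
      rw [hd]
      exact Nat.le_ceil _
    have hdX : X ≤ 2 * d := by rw [hX]; linarith
    have hq0 : 0 < 1 - 1 / (t : ℝ) := by
      have h5 : (2 : ℝ) ≤ t := by linarith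
      have h6 : 1 / (t : ℝ) ≤ 1 / 2 := one_div_le_one_div_of_le (by norm_num) h5
      linarith
    have hq1 : 1 - 1 / (t : ℝ) < 1 := by
      have : 0 < 1 / (t : ℝ) := by positivity
      linarith
    have hmain := H N a D d hD1 hd1 haN hsize (1 - 1 / (t : ℝ)) hq0 hq1
    rw [hta] at hmain
    have hbase : C * (((m : ℝ) + 1) * (1 - (1 - 1 / (t : ℝ))) + 2 * d + 1) ^ 2 *
        (1 / (d : ℝ) + (k : ℝ) / D) ≤ 9 * C * (2 * X + k * X ^ 2 / D) := by
      have h5 : ((m : ℝ) + 1) * (1 - (1 - 1 / (t : ℝ))) + 2 * d + 1 ≤ 3 * X := by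
        have h6 : ((m : ℝ) + 1) * (1 - (1 - 1 / (t : ℝ))) = X - 1 := by
          rw [hX]
          ring
        rw [h6]
        linarith
      have h7 : 0 ≤ ((m : ℝ) + 1) * (1 - (1 - 1 / (t : ℝ))) + 2 * d + 1 := by
        have h8 : ((m : ℝ) + 1) * (1 - (1 - 1 / (t : ℝ))) = ((m : ℝ) + 1) / t := by ring
        rw [h8]
        positivity
      have h9 : 1 / (d : ℝ) ≤ 2 / X := by
        rw [div_le_div_iff₀ hd0 hX0]
        linarith
      calc C * (((m : ℝ) + 1) * (1 - (1 - 1 / (t : ℝ))) + 2 * d + 1) ^ 2 *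
          (1 / (d : ℝ) + (k : ℝ) / D)
          ≤ C * (3 * X) ^ 2 * (2 / X + (k : ℝ) / D) := by
            refine mul_le_mul ?_ ?_ (by positivity) (by positivity)
            · exact mul_le_mul_of_nonneg_left (pow_le_pow_left₀ h7 h5 2) hC0.le
            · linarith
        _ = 9 * C * (2 * X + k * X ^ 2 / D) := by
            field_simp
            ring
    -- the size of the base
    have hXle : X ≤ 1 + 2 * m / t := by
      rw [hX]
      have : ((m : ℝ) + 1) / t ≤ 2 * m / t := div_le_div_of_nonneg_right (by linarith) ht0.le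
      linarith
    have hmt : (m : ℝ) / t ≤ t ^ 2 / A ^ 3 := by
      rw [div_le_div_iff₀ ht0 (by positivity)]
      calc (m : ℝ) * A ^ 3 ≤ t₀ ^ 3 * A ^ 3 := mul_le_mul_of_nonneg_right h2 (by positivity)
        _ = (A * t₀) ^ 3 := by ring
        _ ≤ (t : ℝ) ^ 3 := pow_le_pow_left₀ (by positivity) ht1 3
        _ = t ^ 2 * t := by ring
    have hX1 : 2 * X ≤ t ^ 2 / A := by
      have h5 : 2 * X ≤ 2 + 4 * (m / t) := by
        calc 2 * X ≤ 2 * (1 + 2 * m / t) := by linarith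
          _ = 2 + 4 * (m / t) := by ring
      have h6 : (2 : ℝ) ≤ t ^ 2 / A / 2 := by
        rw [le_div_iff₀ (by norm_num), le_div_iff₀ hA0]
        have h61 : A * A ≤ (t : ℝ) ^ 2 := by
          rw [sq]
          exact mul_le_mul ht3 ht3 hA0.le ht0.le
        have h62 : 4 * A ≤ A * A := mul_le_mul_of_nonneg_right (by linarith) hA0.le
        linarith
      have h7 : 4 * ((m : ℝ) / t) ≤ t ^ 2 / A / 2 := by
        calc 4 * ((m : ℝ) / t) ≤ 4 * (t ^ 2 / A ^ 3) := by linarith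
          _ ≤ t ^ 2 / A / 2 := by
              rw [← mul_div_assoc, div_div, div_le_div_iff₀ (by positivity) (by positivity)]
              have h8 : 8 * A ≤ A ^ 3 := by
                have h81 : (8 : ℝ) ≤ A ^ 2 := by
                  calc (8 : ℝ) ≤ 200000 ^ 2 := by norm_num
                    _ ≤ A ^ 2 := pow_le_pow_left₀ (by norm_num) hA1 2
                calc 8 * A ≤ A ^ 2 * A := mul_le_mul_of_nonneg_right h81 hA0.le
                  _ = A ^ 3 := by ring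
              calc 4 * (t : ℝ) ^ 2 * (A * 2) = t ^ 2 * (8 * A) := by ring
                _ ≤ t ^ 2 * A ^ 3 := mul_le_mul_of_nonneg_left h8 (by positivity)
      linarith
    have hX2 : k * X ^ 2 / D ≤ 100 * (t ^ 2 / A) := by
      have h5 : X ^ 2 ≤ 2 * (1 + 4 * m ^ 2 / t ^ 2) := by
        have h6 : X ^ 2 ≤ (1 + 2 * m / t) ^ 2 := pow_le_pow_left₀ hX0.le hXle 2
        have h7 : (1 + 2 * (m : ℝ) / t) ^ 2 ≤ 2 * (1 + (2 * m / t) ^ 2) := by
          exact sq_one_add_le' _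
        have h8 : (2 * (m : ℝ) / t) ^ 2 = 4 * m ^ 2 / t ^ 2 := by ring
        rw [h8] at h7
        linarith
      have h9 : 1 / (D : ℝ) ≤ 10 * L * t / n := by
        rw [div_le_div_iff₀ hD0 hn0]
        linarith
      calc k * X ^ 2 / D = k * X ^ 2 * (1 / D) := by ring
        _ ≤ k * (2 * (1 + 4 * m ^ 2 / t ^ 2)) * (10 * L * t / n) := by
            refine mul_le_mul ?_ h9 (by positivity) (by positivity)
            exact mul_le_mul_of_nonneg_left h5 hk0.le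
        _ = 20 * t * (k * L / n) + 80 * ((k * L * m ^ 2 / n) / t) := by
            field_simp
            ring
        _ ≤ 20 * t * (t / A) + 80 * (t ^ 3 / A ^ 3 / t) := by
            refine add_le_add ?_ ?_
            · refine mul_le_mul_of_nonneg_left ?_ (by positivity)
              rw [div_le_div_iff₀ hn0 hA0]
              calc k * L * A ≤ n * t₀ * A := mul_le_mul_of_nonneg_right h3 hA0.le
                _ = (A * t₀) * n := by ring
                _ ≤ t * n := mul_le_mul_of_nonneg_right ht1 hn0.le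
            · refine mul_le_mul_of_nonneg_left ?_ (by norm_num)
              refine div_le_div_of_nonneg_right ?_ ht0.le
              rw [div_le_div_iff₀ hn0 (by positivity)]
              calc k * L * m ^ 2 * A ^ 3 ≤ n * t₀ ^ 3 * A ^ 3 :=
                    mul_le_mul_of_nonneg_right h4 (by positivity)
                _ = (A * t₀) ^ 3 * n := by ring
                _ ≤ (t : ℝ) ^ 3 * n :=
                    mul_le_mul_of_nonneg_right (pow_le_pow_left₀ (by positivity) ht1 3) hn0.le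
        _ = 20 * (t ^ 2 / A) + 80 * (t ^ 2 / A) / A ^ 2 := by
            field_simp
        _ ≤ 20 * (t ^ 2 / A) + 80 * (t ^ 2 / A) := by
            have h10 : 80 * ((t : ℝ) ^ 2 / A) / A ^ 2 ≤ 80 * (t ^ 2 / A) :=
              div_le_self (by positivity) (one_le_pow₀ (by linarith))
            linarith
        _ = 100 * (t ^ 2 / A) := by ring
    have hfin : 9 * C * (2 * X + k * X ^ 2 / D) ≤ (t / 6) ^ 2 / 3 := by
      calc 9 * C * (2 * X + k * X ^ 2 / D) ≤ 9 * C * (t ^ 2 / A + 100 * (t ^ 2 / A)) := by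
            refine mul_le_mul_of_nonneg_left ?_ (by positivity)
            linarith
        _ = 909 * C * t ^ 2 / (200000 * C) := by rw [hA]; ring
        _ = 909 / 200000 * t ^ 2 := by field_simp
        _ ≤ 1 / 108 * t ^ 2 := mul_le_mul_of_nonneg_right (by norm_num) (by positivity)
        _ = (t / 6) ^ 2 / 3 := by ring
    have hbig : ((t : ℝ) / 6) ^ (2 * D) ≤ T * ((t / 6) ^ 2 / 3) ^ D := by
      have hqp : 0 < (1 - 1 / (t : ℝ)) ^ ((N - a) * (2 * D)) := by positivity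
      have h5 : ((t : ℝ) / 6) ^ (2 * D) * (1 - 1 / (t : ℝ)) ^ ((N - a) * (2 * D)) ≤
          (T * ((t / 6) ^ 2 / 3) ^ D) * (1 - 1 / (t : ℝ)) ^ ((N - a) * (2 * D)) := by
        refine hlow.trans (hmain.trans ?_)
        calc (1 - 1 / (t : ℝ)) ^ ((N - a) * (2 * D)) * T *
            (C * (((m : ℝ) + 1) * (1 - (1 - 1 / (t : ℝ))) + 2 * d + 1) ^ 2 *
              (1 / (d : ℝ) + (k : ℝ) / D)) ^ D
            ≤ (1 - 1 / (t : ℝ)) ^ ((N - a) * (2 * D)) * T * ((t / 6) ^ 2 / 3) ^ D := by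
              refine mul_le_mul_of_nonneg_left ?_ (by positivity)
              exact pow_le_pow_left₀ (by positivity) (hbase.trans hfin) D
          _ = _ := by ring
      exact le_of_mul_le_mul_right h5 hqp
    have hT3 : (3 : ℝ) ^ D ≤ T := by
      have h5 : ((t : ℝ) / 6) ^ (2 * D) = ((t / 6) ^ 2) ^ D := pow_mul _ _ _
      rw [h5, div_pow _ (3 : ℝ) D] at hbig
      have h6 : (0 : ℝ) < ((t / 6) ^ 2) ^ D := by positivity
      have h7 : ((t : ℝ) / 6) ^ 2 ^ 1 = (t / 6) ^ 2 := by norm_num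
      rw [← mul_div_assoc, le_div_iff₀ (by positivity)] at hbig
      have h8 : (3 : ℝ) ^ D * ((t / 6) ^ 2) ^ D ≤ T * ((t / 6) ^ 2) ^ D := by
        rw [mul_comm]
        exact hbig
      exact le_of_mul_le_mul_right h8 h6
    have hlogT : (D : ℝ) ≤ log (2 * T) := by
      have h5 : exp (D : ℝ) ≤ T := by
        calc exp (D : ℝ) = exp 1 ^ D := by rw [← exp_nat_mul, mul_one]
          _ ≤ 3 ^ D := pow_le_pow_left₀ (exp_pos _).le exp_one_le D
          _ ≤ T := hT3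
      rw [le_log_iff_exp_le (by positivity)]
      linarith
    refine le_trans ?_ hlogT
    rw [div_le_iff₀ (by positivity)]
    calc (n : ℝ) ≤ 2 * D * (5 * L * t) := hDlt
      _ ≤ 2 * D * (5 * L * (2 * (A * t₀))) := by
          refine mul_le_mul_of_nonneg_left ?_ (by positivity)
          exact mul_le_mul_of_nonneg_left ht2 (by positivity)
      _ = D * (4000000 * C * (L * t₀)) := by rw [hA]; ring

/-- `1 + log n ≤ (5/2) log n`. -/
theorem one_add_log_le {n : ℕ} (hn : 2 ≤ n) : 1 + log (n : ℝ) ≤ 5 / 2 * log n := by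
  have hn' : (2 : ℝ) ≤ n := by exact_mod_cast hn
  have h1 : log 2 ≤ log (n : ℝ) := log_le_log (by norm_num) hn'
  have h2 := log_two_gt_d9
  linarith

/-- **The numerical part**, three alternatives. -/
theorem numFD {C : ℝ} (hC : 1 ≤ C) : ∃ c : ℝ, 0 < c ∧ c ≤ 1 ∧ ∀ n k m T : ℕ, 2 ≤ n → 1 ≤ k →
    1 ≤ m → 1 ≤ T → Hyp C n k m T →
    c * n ^ 3 ≤ m * (log n * log (2 * T)) ^ 3 ∨
    c * n ^ 4 ≤ k * m ^ 2 * log n ^ 4 * log (2 * T) ^ 3 ∨
    c * n ^ 2 ≤ k * log n ^ 2 * log (2 * T) := by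
  have hC0 : 0 < C := by linarith
  obtain ⟨B, hB⟩ : ∃ B : ℝ, B = 4000000 * C := ⟨_, rfl⟩
  have hB1 : 4000000 ≤ B := by rw [hB]; linarith
  have hB0 : 0 < B := by linarith
  refine ⟨1 / (40 * B ^ 3), by positivity, ?_, ?_⟩
  · rw [div_le_one (by positivity)]
    have : 1 ≤ B ^ 3 := one_le_pow₀ (by linarith)
    linarith
  intro n k m T hn hk hm hT H
  have hn' : (2 : ℝ) ≤ n := by exact_mod_cast hn
  have hn0 : (0 : ℝ) < n := by linarith
  have hk' : (1 : ℝ) ≤ k := by exact_mod_cast hk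
  have hk0 : (0 : ℝ) < k := by linarith
  have hm' : (1 : ℝ) ≤ m := by exact_mod_cast hm
  have hm0 : (0 : ℝ) < m := by linarith
  have hT' : (1 : ℝ) ≤ T := by exact_mod_cast hT
  obtain ⟨L, hLdef⟩ : ∃ L : ℝ, L = 1 + Real.log n := ⟨_, rfl⟩
  obtain ⟨ℓ, hℓ⟩ : ∃ ℓ : ℝ, ℓ = Real.log n := ⟨_, rfl⟩
  obtain ⟨Q, hQ⟩ : ∃ Q : ℝ, Q = Real.log (2 * T) := ⟨_, rfl⟩
  have hQ0 : 0 ≤ Q := by rw [hQ]; exact log_nonneg (by linarith)
  have hℓ0 : 0 < ℓ := by rw [hℓ]; exact log_pos (by linarith)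
  have hLℓ : L ≤ 5 / 2 * ℓ := by rw [hLdef, hℓ]; exact one_add_log_le hn
  have hL0 : 0 < L := by rw [hLdef, ← hℓ]; linarith
  rw [← hℓ, ← hQ]
  obtain ⟨u, hu⟩ : ∃ u : ℝ, u = (m : ℝ) ^ ((1 : ℝ) / 3) := ⟨_, rfl⟩
  obtain ⟨v, hv⟩ : ∃ v : ℝ, v = ((k : ℝ) * L * m ^ 2 / n) ^ ((1 : ℝ) / 3) := ⟨_, rfl⟩
  have cube : ∀ x : ℝ, 0 ≤ x → (x ^ ((1 : ℝ) / 3)) ^ 3 = x := by
    intro x hx
    rw [← rpow_natCast, ← rpow_mul hx]
    norm_num
  have hu3 : u ^ 3 = m := by rw [hu]; exact cube _ hm0.le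
  have hv3 : v ^ 3 = (k : ℝ) * L * m ^ 2 / n := by rw [hv]; exact cube _ (by positivity)
  have hu1 : 1 ≤ u := by rw [hu]; exact one_le_rpow hm' (by norm_num)
  have hv0 : 0 < v := by rw [hv]; exact rpow_pos_of_pos (by positivity) _
  obtain ⟨w, hw⟩ : ∃ w : ℝ, w = (k : ℝ) * L / n := ⟨_, rfl⟩
  have hw0 : 0 < w := by rw [hw]; positivity
  obtain ⟨t₀, ht₀⟩ : ∃ t₀ : ℝ, t₀ = max u (max v w) := ⟨_, rfl⟩
  have hut : u ≤ t₀ := by rw [ht₀]; exact le_max_left _ _
  have hvt : v ≤ t₀ := by rw [ht₀]; exact (le_max_left _ _).trans (le_max_right _ _)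
  have hwt : w ≤ t₀ := by rw [ht₀]; exact (le_max_right _ _).trans (le_max_right _ _)
  have ht₀1 : 1 ≤ t₀ := hu1.trans hut
  have ht₀0 : 0 < t₀ := by linarith
  have hstep := step hC (n := n) (by omega) hk hm hT H ht₀1
    (by rw [← hu3]; exact pow_le_pow_left₀ (by linarith) hut 3)
    (by
      rw [← hLdef]
      calc (k : ℝ) * L = n * w := by rw [hw]; field_simp
        _ ≤ n * t₀ := mul_le_mul_of_nonneg_left hwt hn0.le)
    (by
      rw [← hLdef]
      calc (k : ℝ) * L * m ^ 2 = n * v ^ 3 := by rw [hv3]; field_simp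
        _ ≤ n * t₀ ^ 3 :=
            mul_le_mul_of_nonneg_left (pow_le_pow_left₀ hv0.le hvt 3) hn0.le)
  rw [← hLdef, ← hQ, ← hB, div_le_iff₀ (by positivity)] at hstep
  -- hstep : n ≤ Q * (B * (L * t₀))
  have hcases : t₀ = u ∨ t₀ = v ∨ t₀ = w := by
    rw [ht₀]
    rcases max_choice u (max v w) with h | h
    · exact Or.inl h
    · rcases max_choice v w with h' | h'
      · exact Or.inr (Or.inl (h.trans h'))
      · exact Or.inr (Or.inr (h.trans h'))
  rcases hcases with h | h | h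
  · left
    rw [h] at hstep
    have h1 : (n : ℝ) ^ 3 ≤ (Q * (B * (L * u))) ^ 3 := pow_le_pow_left₀ hn0.le hstep 3
    have h2 : (Q * (B * (L * u))) ^ 3 = B ^ 3 * (m * (L * Q) ^ 3) := by
      rw [← hu3]
      ring
    rw [h2] at h1
    have h3 : (L * Q) ^ 3 ≤ 40 * (ℓ * Q) ^ 3 := by
      calc (L * Q) ^ 3 ≤ (5 / 2 * ℓ * Q) ^ 3 :=
            pow_le_pow_left₀ (by positivity) (mul_le_mul_of_nonneg_right hLℓ hQ0) 3
        _ = 125 / 8 * (ℓ * Q) ^ 3 := by ring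
        _ ≤ 40 * (ℓ * Q) ^ 3 := mul_le_mul_of_nonneg_right (by norm_num) (by positivity)
    calc 1 / (40 * B ^ 3) * (n : ℝ) ^ 3 ≤ 1 / (40 * B ^ 3) * (B ^ 3 * (m * (L * Q) ^ 3)) :=
          mul_le_mul_of_nonneg_left h1 (by positivity)
      _ ≤ 1 / (40 * B ^ 3) * (B ^ 3 * (m * (40 * (ℓ * Q) ^ 3))) := by
          refine mul_le_mul_of_nonneg_left ?_ (by positivity)
          refine mul_le_mul_of_nonneg_left ?_ (by positivity)
          exact mul_le_mul_of_nonneg_left h3 hm0.le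
      _ = m * (ℓ * Q) ^ 3 := by field_simp
  · right; left
    rw [h] at hstep
    have h1 : (n : ℝ) ^ 3 ≤ (Q * (B * (L * v))) ^ 3 := pow_le_pow_left₀ hn0.le hstep 3
    have h2 : n * (Q * (B * (L * v))) ^ 3 = B ^ 3 * (k * m ^ 2 * L ^ 4 * Q ^ 3) := by
      have : n * (Q * (B * (L * v))) ^ 3 = n * (Q * B * L) ^ 3 * v ^ 3 := by ring
      rw [this, hv3]
      field_simp
    have h1' : (n : ℝ) ^ 4 ≤ B ^ 3 * (k * m ^ 2 * L ^ 4 * Q ^ 3) := by
      rw [← h2]
      calc (n : ℝ) ^ 4 = n * n ^ 3 := by ring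
        _ ≤ n * (Q * (B * (L * v))) ^ 3 := mul_le_mul_of_nonneg_left h1 hn0.le
    have h3 : L ^ 4 ≤ 40 * ℓ ^ 4 := by
      calc L ^ 4 ≤ (5 / 2 * ℓ) ^ 4 := pow_le_pow_left₀ hL0.le hLℓ 4
        _ = 625 / 16 * ℓ ^ 4 := by ring
        _ ≤ 40 * ℓ ^ 4 := mul_le_mul_of_nonneg_right (by norm_num) (by positivity)
    calc 1 / (40 * B ^ 3) * (n : ℝ) ^ 4
        ≤ 1 / (40 * B ^ 3) * (B ^ 3 * (k * m ^ 2 * L ^ 4 * Q ^ 3)) :=
          mul_le_mul_of_nonneg_left h1' (by positivity)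
      _ ≤ 1 / (40 * B ^ 3) * (B ^ 3 * (k * m ^ 2 * (40 * ℓ ^ 4) * Q ^ 3)) := by
          refine mul_le_mul_of_nonneg_left ?_ (by positivity)
          refine mul_le_mul_of_nonneg_left ?_ (by positivity)
          refine mul_le_mul_of_nonneg_right ?_ (by positivity)
          exact mul_le_mul_of_nonneg_left h3 (by positivity)
      _ = k * m ^ 2 * ℓ ^ 4 * Q ^ 3 := by field_simp
  · right; right
    rw [h, hw] at hstep
    have h1 : (n : ℝ) ^ 2 ≤ B * (k * L ^ 2 * Q) := by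
      calc (n : ℝ) ^ 2 = n * n := by ring
        _ ≤ (Q * (B * (L * (k * L / n)))) * n := mul_le_mul_of_nonneg_right hstep hn0.le
        _ = B * (k * L ^ 2 * Q) := by field_simp
    have h3 : L ^ 2 ≤ 40 * ℓ ^ 2 := by
      calc L ^ 2 ≤ (5 / 2 * ℓ) ^ 2 := pow_le_pow_left₀ hL0.le hLℓ 2
        _ = 25 / 4 * ℓ ^ 2 := by ring
        _ ≤ 40 * ℓ ^ 2 := mul_le_mul_of_nonneg_right (by norm_num) (by positivity)
    have h4 : B ≤ B ^ 3 := by
      calc B = B ^ 1 := (pow_one B).symm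
        _ ≤ B ^ 3 := pow_le_pow_right₀ (by linarith) (by norm_num)
    have h5 : 0 ≤ k * L ^ 2 * Q := by positivity
    calc 1 / (40 * B ^ 3) * (n : ℝ) ^ 2 ≤ 1 / (40 * B ^ 3) * (B ^ 3 * (k * L ^ 2 * Q)) := by
          refine mul_le_mul_of_nonneg_left ?_ (by positivity)
          exact h1.trans (mul_le_mul_of_nonneg_right h4 h5)
      _ ≤ 1 / (40 * B ^ 3) * (B ^ 3 * (k * (40 * ℓ ^ 2) * Q)) := by
          refine mul_le_mul_of_nonneg_left ?_ (by positivity)
          refine mul_le_mul_of_nonneg_left ?_ (by positivity)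
          refine mul_le_mul_of_nonneg_right ?_ hQ0
          exact mul_le_mul_of_nonneg_left h3 hk0.le
      _ = k * ℓ ^ 2 * Q := by field_simp

/-- **The numerical part**, as a minimum. -/
theorem numFD_min {C : ℝ} (hC : 1 ≤ C) : ∃ c : ℝ, 0 < c ∧ ∀ n k m T : ℕ, 2 ≤ n → 1 ≤ k →
    1 ≤ m → 1 ≤ T → Hyp C n k m T →
    c * min (n / ((m : ℝ) ^ ((1 : ℝ) / 3) * log n))
      (min ((n ^ 4 / (k * m ^ 2 * log n ^ 4)) ^ ((1 : ℝ) / 3)) (n ^ 2 / (k * log n ^ 2))) ≤
      log (2 * T) := by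
  obtain ⟨c, hc0, hc1, h⟩ := numFD hC
  refine ⟨c, hc0, ?_⟩
  intro n k m T hn hk hm hT H
  have hn' : (2 : ℝ) ≤ n := by exact_mod_cast hn
  have hn0 : (0 : ℝ) < n := by linarith
  have hk' : (1 : ℝ) ≤ k := by exact_mod_cast hk
  have hk0 : (0 : ℝ) < k := by linarith
  have hm' : (1 : ℝ) ≤ m := by exact_mod_cast hm
  have hm0 : (0 : ℝ) < m := by linarith
  have hT' : (1 : ℝ) ≤ T := by exact_mod_cast hT
  have hQ0 : 0 ≤ log (2 * (T : ℝ)) := log_nonneg (by linarith)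
  have hℓ0 : 0 < log (n : ℝ) := log_pos (by linarith)
  have hc3 : c ^ 3 ≤ c := by
    calc c ^ 3 ≤ c ^ 1 := pow_le_pow_of_le_one hc0.le hc1 (by norm_num)
      _ = c := pow_one c
  have cube : ∀ x : ℝ, 0 ≤ x → (x ^ ((1 : ℝ) / 3)) ^ 3 = x := by
    intro x hx
    rw [← rpow_natCast, ← rpow_mul hx]
    norm_num
  rcases h n k m T hn hk hm hT H with h1 | h1 | h1
  · refine le_trans (mul_le_mul_of_nonneg_left (min_le_left _ _) hc0.le) ?_
    refine le_of_pow_le_pow_left₀ (n := 3) (by norm_num) hQ0 ?_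
    have h2 : (c * (n / ((m : ℝ) ^ ((1 : ℝ) / 3) * log n))) ^ 3 =
        c ^ 3 * (n ^ 3 / (m * log n ^ 3)) := by
      rw [mul_pow, div_pow, mul_pow, cube _ hm0.le]
    rw [h2]
    calc c ^ 3 * ((n : ℝ) ^ 3 / (m * log n ^ 3)) ≤ c * (n ^ 3 / (m * log n ^ 3)) :=
          mul_le_mul_of_nonneg_right hc3 (by positivity)
      _ ≤ log (2 * T) ^ 3 := by
          rw [← mul_div_assoc, div_le_iff₀ (by positivity)]
          calc c * (n : ℝ) ^ 3 ≤ _ := h1
            _ = log (2 * T) ^ 3 * (m * log n ^ 3) := by ring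
  · refine le_trans (mul_le_mul_of_nonneg_left
      ((min_le_right _ _).trans (min_le_left _ _)) hc0.le) ?_
    refine le_of_pow_le_pow_left₀ (n := 3) (by norm_num) hQ0 ?_
    rw [mul_pow, cube _ (by positivity)]
    calc c ^ 3 * ((n : ℝ) ^ 4 / (k * m ^ 2 * log n ^ 4)) ≤ c * (n ^ 4 / (k * m ^ 2 * log n ^ 4)) :=
          mul_le_mul_of_nonneg_right hc3 (by positivity)
      _ ≤ log (2 * T) ^ 3 := by
          rw [← mul_div_assoc, div_le_iff₀ (by positivity)]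
          calc c * (n : ℝ) ^ 4 ≤ _ := h1
            _ = log (2 * T) ^ 3 * (k * m ^ 2 * log n ^ 4) := by ring
  · refine le_trans (mul_le_mul_of_nonneg_left
      ((min_le_right _ _).trans (min_le_right _ _)) hc0.le) ?_
    rw [← mul_div_assoc, div_le_iff₀ (by positivity)]
    calc c * (n : ℝ) ^ 2 ≤ _ := h1
      _ = log (2 * T) * (k * log n ^ 2) := by ring

end Pool.FDN
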