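import Mathlib
import Pool.Agent.Helper91.HN.Num6

/-!
# Functions of determinants with entries of degree `δ`: the choice of the parameters
-/

set_option autoImplicit false

namespace Pool.FDN

open Real

/-- The hypothesis. -/
def Hyp3 (C : ℝ) (n k m δ T : ℕ) : Prop :=
  ∀ D N a d : ℕ, 1 ≤ D → 1 ≤ d → a < N → D * (2 * (N + a) + 1) ≤ n → ∀ q : ℝ, 0 < q → q < 1 →
    q ^ (D * (δ - 1)) * (1 - (1 - q ^ N) ^ (a + 1)) ^ (2 * D) ≤ q ^ ((N - a) * (2 * D)) *
      (T * (C * (((m : ℝ) + 1) * (1 - q ^ δ) + 2 * d + 1) ^ 2 * (1 / (d : ℝ) + (k : ℝ) / D)) ^ D)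

theorem sq_one_add_le (y : ℝ) : (1 + y) ^ 2 ≤ 2 * (1 + y ^ 2) := by
  nlinarith [sq_nonneg (1 - y)]

/-- The main step: `log (2T) ≥ c n / (L t₀)` for every `t₀ ≥ 1`, `t₀ ≥ δ` with `t₀³ ≥ mδ`, `t₀ ≥ k L / n`,
`t₀³ ≥ k L (mδ)² / n`. -/
theorem step3 {C : ℝ} (hC : 1 ≤ C) {n k m δ T : ℕ} (hn : 1 ≤ n) (hk : 1 ≤ k) (hm : 1 ≤ m)
    (hδ : 1 ≤ δ) (hT : 1 ≤ T) (H : Hyp3 C n k m δ T) {t₀ : ℝ} (h1 : 1 ≤ t₀) (h1δ : (δ : ℝ) ≤ t₀)
    (h2 : (m : ℝ) * δ ≤ t₀ ^ 3)
    (h3 : (k : ℝ) * (1 + log n) ≤ n * t₀)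
    (h4 : (k : ℝ) * (1 + log n) * (m * δ) ^ 2 ≤ n * t₀ ^ 3) :
    n / ((6000000 * C) * ((1 + log n) * t₀)) ≤ log (2 * T) := by
  obtain ⟨μ, hμ⟩ : ∃ μ : ℝ, μ = (m : ℝ) * δ := ⟨_, rfl⟩
  have hδ' : (1 : ℝ) ≤ δ := by exact_mod_cast hδ
  have hδ0 : (0 : ℝ) < δ := by linarith
  rw [← hμ] at h2 h4
  have hn' : (1 : ℝ) ≤ n := by exact_mod_cast hn
  have hn0 : (0 : ℝ) < n := by linarith
  have hk' : (1 : ℝ) ≤ k := by exact_mod_cast hk
  have hk0 : (0 : ℝ) < k := by linarith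
  have hm' : (1 : ℝ) ≤ m := by exact_mod_cast hm
  have hm0 : (0 : ℝ) < m := by linarith
  have hT' : (1 : ℝ) ≤ T := by exact_mod_cast hT
  have hT0 : (0 : ℝ) < T := by linarith
  have hC0 : 0 < C := by linarith
  obtain ⟨L, hLdef⟩ : ∃ L : ℝ, L = 1 + Real.log n := ⟨_, rfl⟩
  have hdef := hLdef
  rw [← hLdef] at h3 h4 ⊢
  have hL1 : 1 ≤ L := by
    have := log_nonneg hn'
    linarith
  have hL0 : 0 < L := by linarith
  have ht₀0 : 0 < t₀ := by linarith
  obtain ⟨A, hA⟩ : ∃ A : ℝ, A = 300000 * C := ⟨_, rfl⟩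
  have hA1 : 300000 ≤ A := by rw [hA]; linarith
  have hA0 : 0 < A := by linarith
  obtain ⟨t, ht⟩ : ∃ t : ℕ, t = ⌈A * t₀⌉₊ := ⟨_, rfl⟩
  have hAt : 1 ≤ A * t₀ := one_le_mul_of_one_le_of_one_le (by linarith) h1
  have ht1 : A * t₀ ≤ t := by rw [ht]; exact Nat.le_ceil _
  have ht2 : (t : ℝ) ≤ 2 * (A * t₀) := by
    have : (t : ℝ) < A * t₀ + 1 := by rw [ht]; exact Nat.ceil_lt_add_one (by positivity)
    linarith
  have ht3 : A ≤ t := (le_mul_of_one_le_right hA0.le h1).trans ht1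
  have ht0 : (0 : ℝ) < t := by linarith
  have ht4 : 2 ≤ t := by
    have : (2 : ℝ) ≤ t := by linarith
    exact_mod_cast this
  by_cases hcase : (n : ℝ) < 5 * L * t
  · -- trivial range
    have h5 : (n : ℝ) / ((6000000 * C) * (L * t₀)) ≤ 1 / 2 := by
      rw [div_le_div_iff₀ (by positivity) (by norm_num)]
      have h6 : (n : ℝ) ≤ 5 * L * (2 * (A * t₀)) :=
        hcase.le.trans (mul_le_mul_of_nonneg_left ht2 (by positivity))
      calc (n : ℝ) * 2 ≤ 5 * L * (2 * (A * t₀)) * 2 := by linarith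
        _ = 1 * (6000000 * C * (L * t₀)) := by rw [hA]; ring
    have h6 : log 2 ≤ log (2 * T) := log_le_log (by norm_num) (by linarith)
    have h7 := log_two_gt_d9
    linarith
  · push Not at hcase
    obtain ⟨D, hD⟩ : ∃ D : ℕ, D = ⌊(n : ℝ) / (5 * L * t)⌋₊ := ⟨_, rfl⟩
    have hD1 : 1 ≤ D := by
      rw [hD]
      refine Nat.le_floor ?_
      rw [le_div_iff₀ (by positivity)]
      push_cast
      linarith
    have hDle : (D : ℝ) * (5 * L * t) ≤ n := by
      have : (D : ℝ) ≤ n / (5 * L * t) := by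
        rw [hD]
        exact Nat.floor_le (by positivity)
      rwa [le_div_iff₀ (by positivity)] at this
    have hD1' : (1 : ℝ) ≤ D := by exact_mod_cast hD1
    have hD0 : (0 : ℝ) < D := by linarith
    have hDlt : (n : ℝ) ≤ 2 * D * (5 * L * t) := by
      have h5 : (n : ℝ) / (5 * L * t) < D + 1 := by
        rw [hD]
        exact Nat.lt_floor_add_one _
      rw [div_lt_iff₀ (by positivity)] at h5
      have h6 : (0 : ℝ) < 5 * L * t := by positivity
      have h7 : ((D : ℝ) + 1) * (5 * L * t) ≤ (2 * D) * (5 * L * t) :=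
        mul_le_mul_of_nonneg_right (by linarith) h6.le
      linarith
    obtain ⟨N, a, hta, haN, hsize, hlow⟩ := choose_N (n := n) (D := D) (t := t) hn hD1 ht4 (by
      rw [← hdef]
      calc 5 * ((D : ℝ) * L) * t = D * (5 * L * t) := by ring
        _ ≤ n := hDle)
    obtain ⟨d, hd⟩ : ∃ d : ℕ, d = ⌈((m : ℝ) + 1) * δ / t⌉₊ := ⟨_, rfl⟩
    obtain ⟨X, hX⟩ : ∃ X : ℝ, X = ((m : ℝ) + 1) * δ / t + 1 := ⟨_, rfl⟩
    have hxpos : 0 < ((m : ℝ) + 1) * δ / t := by positivity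
    have hX0 : 0 < X := by rw [hX]; linarith
    have hd1 : 1 ≤ d := by
      rw [hd]
      exact Nat.one_le_ceil_iff.2 hxpos
    have hd1' : (1 : ℝ) ≤ d := by exact_mod_cast hd1
    have hd0 : (0 : ℝ) < d := by linarith
    have hdle : (d : ℝ) ≤ X := by
      rw [hd, hX]
      exact (Nat.ceil_lt_add_one hxpos.le).le
    have hdge : ((m : ℝ) + 1) * δ / t ≤ d := by
      rw [hd]
      exact Nat.le_ceil _
    have hdX : X ≤ 2 * d := by rw [hX]; linarith
    have hq0 : 0 < 1 - 1 / (t : ℝ) := by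
      have h5 : (2 : ℝ) ≤ t := by linarith
      have h6 : 1 / (t : ℝ) ≤ 1 / 2 := one_div_le_one_div_of_le (by norm_num) h5
      linarith
    have hq1 : 1 - 1 / (t : ℝ) < 1 := by
      have : 0 < 1 / (t : ℝ) := by positivity
      linarith
    have hmain := H D N a d hD1 hd1 haN hsize (1 - 1 / (t : ℝ)) hq0 hq1
    rw [hta] at hmain
    have hqδ : 1 - (1 - 1 / (t : ℝ)) ^ δ ≤ δ / t := by
      have h5 : (1 : ℝ) + δ * (-(1 / (t : ℝ))) ≤ (1 + -(1 / (t : ℝ))) ^ δ := by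
        refine one_add_mul_le_pow ?_ δ
        linarith
      have h6 : (1 : ℝ) + -(1 / (t : ℝ)) = 1 - 1 / t := by ring
      rw [h6] at h5
      have h7 : (1 : ℝ) + δ * (-(1 / (t : ℝ))) = 1 - δ / t := by ring
      rw [h7] at h5
      linarith
    have hqδ0 : 0 ≤ 1 - (1 - 1 / (t : ℝ)) ^ δ := by
      have := pow_le_one₀ (n := δ) hq0.le hq1.le
      linarith
    have hbase : C * (((m : ℝ) + 1) * (1 - (1 - 1 / (t : ℝ)) ^ δ) + 2 * d + 1) ^ 2 *
        (1 / (d : ℝ) + (k : ℝ) / D) ≤ 9 * C * (2 * X + k * X ^ 2 / D) := by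
      have h5 : ((m : ℝ) + 1) * (1 - (1 - 1 / (t : ℝ)) ^ δ) + 2 * d + 1 ≤ 3 * X := by
        have h6 : ((m : ℝ) + 1) * (1 - (1 - 1 / (t : ℝ)) ^ δ) ≤ X - 1 := by
          calc ((m : ℝ) + 1) * (1 - (1 - 1 / (t : ℝ)) ^ δ) ≤ ((m : ℝ) + 1) * (δ / t) :=
                mul_le_mul_of_nonneg_left hqδ (by positivity)
            _ = X - 1 := by rw [hX]; ring
        linarith
      have h7 : 0 ≤ ((m : ℝ) + 1) * (1 - (1 - 1 / (t : ℝ)) ^ δ) + 2 * d + 1 := by positivity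
      have h9 : 1 / (d : ℝ) ≤ 2 / X := by
        rw [div_le_div_iff₀ hd0 hX0]
        linarith
      calc C * (((m : ℝ) + 1) * (1 - (1 - 1 / (t : ℝ)) ^ δ) + 2 * d + 1) ^ 2 *
          (1 / (d : ℝ) + (k : ℝ) / D)
          ≤ C * (3 * X) ^ 2 * (2 / X + (k : ℝ) / D) := by
            refine mul_le_mul ?_ ?_ (by positivity) (by positivity)
            · exact mul_le_mul_of_nonneg_left (pow_le_pow_left₀ h7 h5 2) hC0.le
            · linarith
        _ = 9 * C * (2 * X + k * X ^ 2 / D) := by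
            field_simp
            ring
    have hqD : ((1 : ℝ) / 3) ^ D ≤ (1 - 1 / (t : ℝ)) ^ (D * (δ - 1)) := by
      rw [mul_comm D, pow_mul]
      refine pow_le_pow_left₀ (by norm_num) ?_ D
      have h5 : δ - 1 ≤ a := by
        have h6 : (δ : ℝ) ≤ t := by
          refine h1δ.trans (le_trans ?_ ht1)
          exact le_mul_of_one_le_left ht₀0.le (by linarith)
        have h7 : δ ≤ t := by exact_mod_cast h6
        omega
      have h8 := pow_pred_ge (a := a) (by omega)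
      have h9 : (a : ℝ) + 1 = t := by rw [← hta]; push_cast; ring
      rw [h9] at h8
      exact h8.trans (pow_le_pow_of_le_one hq0.le hq1.le h5)
    -- the size of the base
    have hμ0 : 0 < μ := by rw [hμ]; positivity
    have hXle : X ≤ 1 + 2 * μ / t := by
      rw [hX]
      have : ((m : ℝ) + 1) * δ / t ≤ 2 * μ / t := by
        refine div_le_div_of_nonneg_right ?_ ht0.le
        rw [hμ]
        have h5 : ((m : ℝ) + 1) * δ ≤ (2 * m) * δ := mul_le_mul_of_nonneg_right (by linarith) hδ0.le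
        linarith
      linarith
    have hmt : μ / t ≤ t ^ 2 / A ^ 3 := by
      rw [div_le_div_iff₀ ht0 (by positivity)]
      calc μ * A ^ 3 ≤ t₀ ^ 3 * A ^ 3 := mul_le_mul_of_nonneg_right h2 (by positivity)
        _ = (A * t₀) ^ 3 := by ring
        _ ≤ (t : ℝ) ^ 3 := pow_le_pow_left₀ (by positivity) ht1 3
        _ = t ^ 2 * t := by ring
    have hX1 : 2 * X ≤ t ^ 2 / A := by
      have h5 : 2 * X ≤ 2 + 4 * (μ / t) := by
        calc 2 * X ≤ 2 * (1 + 2 * μ / t) := by linarith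
          _ = 2 + 4 * (μ / t) := by ring
      have h6 : (2 : ℝ) ≤ t ^ 2 / A / 2 := by
        rw [le_div_iff₀ (by norm_num), le_div_iff₀ hA0]
        have h61 : A * A ≤ (t : ℝ) ^ 2 := by
          rw [sq]
          exact mul_le_mul ht3 ht3 hA0.le ht0.le
        have h62 : 4 * A ≤ A * A := mul_le_mul_of_nonneg_right (by linarith) hA0.le
        linarith
      have h7 : 4 * (μ / t) ≤ t ^ 2 / A / 2 := by
        calc 4 * (μ / t) ≤ 4 * (t ^ 2 / A ^ 3) := by linarith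
          _ ≤ t ^ 2 / A / 2 := by
              rw [← mul_div_assoc, div_div, div_le_div_iff₀ (by positivity) (by positivity)]
              have h8 : 8 * A ≤ A ^ 3 := by
                have h81 : (8 : ℝ) ≤ A ^ 2 := by
                  calc (8 : ℝ) ≤ 300000 ^ 2 := by norm_num
                    _ ≤ A ^ 2 := pow_le_pow_left₀ (by norm_num) hA1 2
                calc 8 * A ≤ A ^ 2 * A := mul_le_mul_of_nonneg_right h81 hA0.le
                  _ = A ^ 3 := by ring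
              calc 4 * (t : ℝ) ^ 2 * (A * 2) = t ^ 2 * (8 * A) := by ring
                _ ≤ t ^ 2 * A ^ 3 := mul_le_mul_of_nonneg_left h8 (by positivity)
      linarith
    have hX2 : k * X ^ 2 / D ≤ 100 * (t ^ 2 / A) := by
      have h5 : X ^ 2 ≤ 2 * (1 + 4 * μ ^ 2 / t ^ 2) := by
        have h6 : X ^ 2 ≤ (1 + 2 * μ / t) ^ 2 := pow_le_pow_left₀ hX0.le hXle 2
        have h7 : (1 + 2 * μ / t) ^ 2 ≤ 2 * (1 + (2 * μ / t) ^ 2) := by
          exact sq_one_add_le _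
        have h8 : (2 * μ / t) ^ 2 = 4 * μ ^ 2 / t ^ 2 := by ring
        rw [h8] at h7
        linarith
      have h9 : 1 / (D : ℝ) ≤ 10 * L * t / n := by
        rw [div_le_div_iff₀ hD0 hn0]
        linarith
      calc k * X ^ 2 / D = k * X ^ 2 * (1 / D) := by ring
        _ ≤ k * (2 * (1 + 4 * μ ^ 2 / t ^ 2)) * (10 * L * t / n) := by
            refine mul_le_mul ?_ h9 (by positivity) (by positivity)
            exact mul_le_mul_of_nonneg_left h5 hk0.le
        _ = 20 * t * (k * L / n) + 80 * ((k * L * μ ^ 2 / n) / t) := by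
            field_simp
            ring
        _ ≤ 20 * t * (t / A) + 80 * (t ^ 3 / A ^ 3 / t) := by
            refine add_le_add ?_ ?_
            · refine mul_le_mul_of_nonneg_left ?_ (by positivity)
              rw [div_le_div_iff₀ hn0 hA0]
              calc k * L * A ≤ n * t₀ * A := mul_le_mul_of_nonneg_right h3 hA0.le
                _ = (A * t₀) * n := by ring
                _ ≤ t * n := mul_le_mul_of_nonneg_right ht1 hn0.le
            · refine mul_le_mul_of_nonneg_left ?_ (by norm_num)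
              refine div_le_div_of_nonneg_right ?_ ht0.le
              rw [div_le_div_iff₀ hn0 (by positivity)]
              calc k * L * μ ^ 2 * A ^ 3 ≤ n * t₀ ^ 3 * A ^ 3 :=
                    mul_le_mul_of_nonneg_right h4 (by positivity)
                _ = (A * t₀) ^ 3 * n := by ring
                _ ≤ (t : ℝ) ^ 3 * n :=
                    mul_le_mul_of_nonneg_right (pow_le_pow_left₀ (by positivity) ht1 3) hn0.le
        _ = 20 * (t ^ 2 / A) + 80 * (t ^ 2 / A) / A ^ 2 := by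
            field_simp
        _ ≤ 20 * (t ^ 2 / A) + 80 * (t ^ 2 / A) := by
            have h10 : 80 * ((t : ℝ) ^ 2 / A) / A ^ 2 ≤ 80 * (t ^ 2 / A) :=
              div_le_self (by positivity) (one_le_pow₀ (by linarith))
            linarith
        _ = 100 * (t ^ 2 / A) := by ring
    have hfin : 9 * C * (2 * X + k * X ^ 2 / D) ≤ (t / 6) ^ 2 / 9 := by
      calc 9 * C * (2 * X + k * X ^ 2 / D) ≤ 9 * C * (t ^ 2 / A + 100 * (t ^ 2 / A)) := by
            refine mul_le_mul_of_nonneg_left ?_ (by positivity)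
            linarith
        _ = 909 * C * t ^ 2 / (300000 * C) := by rw [hA]; ring
        _ = 909 / 300000 * t ^ 2 := by field_simp
        _ ≤ 1 / 324 * t ^ 2 := mul_le_mul_of_nonneg_right (by norm_num) (by positivity)
        _ = (t / 6) ^ 2 / 9 := by ring
    have hbig : ((1 : ℝ) / 3) ^ D * ((t : ℝ) / 6) ^ (2 * D) ≤ T * ((t / 6) ^ 2 / 9) ^ D := by
      have hqp : 0 < (1 - 1 / (t : ℝ)) ^ ((N - a) * (2 * D)) := by positivity
      have hlow' : ((1 : ℝ) / 3) ^ D *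
          (((t : ℝ) / 6) ^ (2 * D) * (1 - 1 / (t : ℝ)) ^ ((N - a) * (2 * D))) ≤
          (1 - 1 / (t : ℝ)) ^ (D * (δ - 1)) *
            (1 - (1 - (1 - 1 / (t : ℝ)) ^ N) ^ t) ^ (2 * D) :=
        mul_le_mul hqD hlow (by positivity) (by positivity)
      have h5 : (((1 : ℝ) / 3) ^ D * ((t : ℝ) / 6) ^ (2 * D)) *
          (1 - 1 / (t : ℝ)) ^ ((N - a) * (2 * D)) ≤
          (T * ((t / 6) ^ 2 / 9) ^ D) * (1 - 1 / (t : ℝ)) ^ ((N - a) * (2 * D)) := by
        rw [mul_assoc]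
        refine hlow'.trans (hmain.trans ?_)
        calc (1 - 1 / (t : ℝ)) ^ ((N - a) * (2 * D)) * (T *
            (C * (((m : ℝ) + 1) * (1 - (1 - 1 / (t : ℝ)) ^ δ) + 2 * d + 1) ^ 2 *
              (1 / (d : ℝ) + (k : ℝ) / D)) ^ D)
            ≤ (1 - 1 / (t : ℝ)) ^ ((N - a) * (2 * D)) * (T * ((t / 6) ^ 2 / 9) ^ D) := by
              refine mul_le_mul_of_nonneg_left ?_ (by positivity)
              refine mul_le_mul_of_nonneg_left ?_ hT0.le
              exact pow_le_pow_left₀ (by positivity) (hbase.trans hfin) D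
          _ = _ := by ring
      exact le_of_mul_le_mul_right h5 hqp
    have hT3 : (3 : ℝ) ^ D ≤ T := by
      have h5 : ((t : ℝ) / 6) ^ (2 * D) = ((t / 6) ^ 2) ^ D := pow_mul _ _ _
      rw [h5] at hbig
      have h6 : (0 : ℝ) < ((t / 6) ^ 2) ^ D := by positivity
      have h7 : (((t : ℝ) / 6) ^ 2 / 9) ^ D = ((1 / 3) ^ D * ((t / 6) ^ 2) ^ D) * (1 / 3) ^ D := by
        rw [← mul_pow, ← mul_pow]
        congr 1
        ring
      rw [h7] at hbig
      have h8 : 1 ≤ (T : ℝ) * (1 / 3) ^ D := by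
        have h9 : (0 : ℝ) < (1 / 3) ^ D * ((t / 6) ^ 2) ^ D := by positivity
        refine le_of_mul_le_mul_right ?_ h9
        linarith
      rw [one_div, inv_pow, ← div_eq_mul_inv, le_div_iff₀ (by positivity)] at h8
      linarith
    have hlogT : (D : ℝ) ≤ log (2 * T) := by
      have h5 : exp (D : ℝ) ≤ T := by
        calc exp (D : ℝ) = exp 1 ^ D := by rw [← exp_nat_mul, mul_one]
          _ ≤ 3 ^ D := pow_le_pow_left₀ (exp_pos _).le exp_one_le D
          _ ≤ T := hT3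
      rw [le_log_iff_exp_le (by positivity)]
      linarith
    refine le_trans ?_ hlogT
    rw [div_le_iff₀ (by positivity)]
    calc (n : ℝ) ≤ 2 * D * (5 * L * t) := hDlt
      _ ≤ 2 * D * (5 * L * (2 * (A * t₀))) := by
          refine mul_le_mul_of_nonneg_left ?_ (by positivity)
          exact mul_le_mul_of_nonneg_left ht2 (by positivity)
      _ = D * (6000000 * C * (L * t₀)) := by rw [hA]; ring


/-- W4: numerics -/
theorem numerics3 (C : ℝ) (hC : 1 ≤ C) : ∃ c : ℝ, 0 < c ∧ ∀ n m k δ T : ℕ, 2 ≤ n → 1 ≤ m →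
    1 ≤ k → 1 ≤ δ → 1 ≤ T →
    (∀ D N a d : ℕ, 1 ≤ D → 1 ≤ d → a < N → D * (2 * (N + a) + 1) ≤ n → ∀ q : ℝ, 0 < q → q < 1 →
      q ^ (D * (δ - 1)) * (1 - (1 - q ^ N) ^ (a + 1)) ^ (2 * D) ≤ q ^ ((N - a) * (2 * D)) *
        (T * (C * ((m + 1) * (1 - q ^ δ) + 2 * d + 1) ^ 2 * (1 / d + k / D)) ^ D)) →
    c * min ((n : ℝ) / (δ * Real.log n)) (min ((n : ℝ) / (((m : ℝ) * δ) ^ (1 / 3 : ℝ) * Real.log n))
      (min (((n : ℝ) ^ 4 / (k * ((m : ℝ) * δ) ^ 2 * Real.log n ^ 4)) ^ (1 / 3 : ℝ))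
        ((n : ℝ) ^ 2 / (k * Real.log n ^ 2)))) ≤ Real.log (2 * T) := by
  have hC0 : 0 < C := by linarith
  obtain ⟨B, hB⟩ : ∃ B : ℝ, B = 6000000 * C := ⟨_, rfl⟩
  have hB1 : 6000000 ≤ B := by rw [hB]; linarith
  have hB0 : 0 < B := by linarith
  refine ⟨1 / (40 * B), by positivity, ?_⟩
  intro n m k δ T hn hm hk hδ hT H
  have hn' : (2 : ℝ) ≤ n := by exact_mod_cast hn
  have hn0 : (0 : ℝ) < n := by linarith
  have hk' : (1 : ℝ) ≤ k := by exact_mod_cast hk
  have hk0 : (0 : ℝ) < k := by linarith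
  have hm' : (1 : ℝ) ≤ m := by exact_mod_cast hm
  have hm0 : (0 : ℝ) < m := by linarith
  have hδ' : (1 : ℝ) ≤ δ := by exact_mod_cast hδ
  have hδ0 : (0 : ℝ) < δ := by linarith
  have hT' : (1 : ℝ) ≤ T := by exact_mod_cast hT
  obtain ⟨μ, hμ⟩ : ∃ μ : ℝ, μ = (m : ℝ) * δ := ⟨_, rfl⟩
  have hμ1 : 1 ≤ μ := by rw [hμ]; exact one_le_mul_of_one_le_of_one_le hm' hδ'
  have hμ0 : 0 < μ := by linarith
  obtain ⟨L, hLdef⟩ : ∃ L : ℝ, L = 1 + Real.log n := ⟨_, rfl⟩
  obtain ⟨ℓ, hℓ⟩ : ∃ ℓ : ℝ, ℓ = Real.log n := ⟨_, rfl⟩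
  obtain ⟨Q, hQ⟩ : ∃ Q : ℝ, Q = Real.log (2 * T) := ⟨_, rfl⟩
  have hQ0 : 0 ≤ Q := by rw [hQ]; exact log_nonneg (by linarith)
  have hℓ0 : 0 < ℓ := by rw [hℓ]; exact log_pos (by linarith)
  have hLℓ : L ≤ 5 / 2 * ℓ := by rw [hLdef, hℓ]; exact one_add_log_le hn
  have hL0 : 0 < L := by rw [hLdef, ← hℓ]; linarith
  rw [← hℓ, ← hQ, ← hμ]
  obtain ⟨u, hu⟩ : ∃ u : ℝ, u = μ ^ ((1 : ℝ) / 3) := ⟨_, rfl⟩
  obtain ⟨v, hv⟩ : ∃ v : ℝ, v = ((k : ℝ) * L * μ ^ 2 / n) ^ ((1 : ℝ) / 3) := ⟨_, rfl⟩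
  have cube : ∀ x : ℝ, 0 ≤ x → (x ^ ((1 : ℝ) / 3)) ^ 3 = x := by
    intro x hx
    rw [← rpow_natCast, ← rpow_mul hx]
    norm_num
  have hu3 : u ^ 3 = μ := by rw [hu]; exact cube _ hμ0.le
  have hv3 : v ^ 3 = (k : ℝ) * L * μ ^ 2 / n := by rw [hv]; exact cube _ (by positivity)
  have hu1 : 1 ≤ u := by rw [hu]; exact one_le_rpow hμ1 (by norm_num)
  have hu0 : 0 < u := by linarith
  have hv0 : 0 < v := by rw [hv]; exact rpow_pos_of_pos (by positivity) _
  obtain ⟨w, hw⟩ : ∃ w : ℝ, w = (k : ℝ) * L / n := ⟨_, rfl⟩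
  have hw0 : 0 < w := by rw [hw]; positivity
  obtain ⟨t₀, ht₀⟩ : ∃ t₀ : ℝ, t₀ = max (δ : ℝ) (max u (max v w)) := ⟨_, rfl⟩
  have hδt : (δ : ℝ) ≤ t₀ := by rw [ht₀]; exact le_max_left _ _
  have hut : u ≤ t₀ := by rw [ht₀]; exact (le_max_left _ _).trans (le_max_right _ _)
  have hvt : v ≤ t₀ := by
    rw [ht₀]
    exact ((le_max_left _ _).trans (le_max_right _ _)).trans (le_max_right _ _)
  have hwt : w ≤ t₀ := by
    rw [ht₀]
    exact ((le_max_right _ _).trans (le_max_right _ _)).trans (le_max_right _ _)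
  have ht₀1 : 1 ≤ t₀ := hu1.trans hut
  have ht₀0 : 0 < t₀ := by linarith
  have hstep := step3 hC (n := n) (by omega) hk hm hδ hT H ht₀1 hδt
    (by rw [← hμ, ← hu3]; exact pow_le_pow_left₀ hu0.le hut 3)
    (by
      rw [← hLdef]
      calc (k : ℝ) * L = n * w := by rw [hw]; field_simp
        _ ≤ n * t₀ := mul_le_mul_of_nonneg_left hwt hn0.le)
    (by
      rw [← hLdef, ← hμ]
      calc (k : ℝ) * L * μ ^ 2 = n * v ^ 3 := by rw [hv3]; field_simp
        _ ≤ n * t₀ ^ 3 :=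
            mul_le_mul_of_nonneg_left (pow_le_pow_left₀ hv0.le hvt 3) hn0.le)
  rw [← hLdef, ← hQ, ← hB, div_le_iff₀ (by positivity)] at hstep
  -- hstep : n ≤ Q * (B * (L * t₀))
  have hcases : t₀ = δ ∨ t₀ = u ∨ t₀ = v ∨ t₀ = w := by
    rw [ht₀]
    rcases max_choice (δ : ℝ) (max u (max v w)) with h | h
    · exact Or.inl h
    · rcases max_choice u (max v w) with h' | h'
      · exact Or.inr (Or.inl (h.trans h'))
      · rcases max_choice v w with h'' | h''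
        · exact Or.inr (Or.inr (Or.inl (h.trans (h'.trans h''))))
        · exact Or.inr (Or.inr (Or.inr (h.trans (h'.trans h''))))
  have key : ∀ x : ℝ, 0 < x → t₀ = x → n / (x * ℓ) ≤ 5 / 2 * B * Q := by
    intro x hx hx'
    rw [hx'] at hstep
    rw [div_le_iff₀ (by positivity)]
    calc (n : ℝ) ≤ Q * (B * (L * x)) := hstep
      _ ≤ Q * (B * (5 / 2 * ℓ * x)) := by
          refine mul_le_mul_of_nonneg_left ?_ hQ0
          refine mul_le_mul_of_nonneg_left ?_ hB0.le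
          exact mul_le_mul_of_nonneg_right hLℓ hx.le
      _ = 5 / 2 * B * Q * (x * ℓ) := by ring
  have hfinal : ∀ y : ℝ, y ≤ 40 * B * Q → 1 / (40 * B) * y ≤ Q := by
    intro y hy
    calc 1 / (40 * B) * y ≤ 1 / (40 * B) * (40 * B * Q) :=
          mul_le_mul_of_nonneg_left hy (by positivity)
      _ = Q := by field_simp
  have hBQ : 0 ≤ B * Q := by positivity
  refine hfinal _ ?_
  rcases hcases with h | h | h | h
  · refine (min_le_left _ _).trans ?_
    have := key δ hδ0 h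
    linarith
  · refine ((min_le_right _ _).trans (min_le_left _ _)).trans ?_
    have := key u hu0 h
    rw [← hu]
    linarith
  · refine ((min_le_right _ _).trans ((min_le_right _ _).trans (min_le_left _ _))).trans ?_
    refine le_of_pow_le_pow_left₀ (n := 3) (by norm_num) (by positivity) ?_
    rw [cube _ (by positivity)]
    have h5 := key v hv0 h
    have h6 : ((n : ℝ) / (v * ℓ)) ^ 3 ≤ (5 / 2 * B * Q) ^ 3 :=
      pow_le_pow_left₀ (by positivity) h5 3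
    have h7 : (n : ℝ) ^ 4 / (k * μ ^ 2 * ℓ ^ 4) = (n / (v * ℓ)) ^ 3 * (L / ℓ) := by
      rw [div_pow, mul_pow, hv3]
      field_simp
    rw [h7]
    have h8 : L / ℓ ≤ 5 / 2 := by
      rw [div_le_iff₀ hℓ0]
      exact hLℓ
    calc ((n : ℝ) / (v * ℓ)) ^ 3 * (L / ℓ) ≤ (5 / 2 * B * Q) ^ 3 * (5 / 2) :=
          mul_le_mul h6 h8 (by positivity) (by positivity)
      _ = 625 / 16 * (B * Q) ^ 3 := by ring
      _ ≤ 64000 * (B * Q) ^ 3 := mul_le_mul_of_nonneg_right (by norm_num) (by positivity)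
      _ = (40 * B * Q) ^ 3 := by ring
  · refine ((min_le_right _ _).trans ((min_le_right _ _).trans (min_le_right _ _))).trans ?_
    have h5 := key w hw0 h
    have h7 : (n : ℝ) ^ 2 / (k * ℓ ^ 2) = (n / (w * ℓ)) * (L / ℓ) := by
      rw [hw]
      field_simp
    rw [h7]
    have h8 : L / ℓ ≤ 5 / 2 := by
      rw [div_le_iff₀ hℓ0]
      exact hLℓ
    calc (n : ℝ) / (w * ℓ) * (L / ℓ) ≤ (5 / 2 * B * Q) * (5 / 2) :=
          mul_le_mul h5 h8 (by positivity) (by positivity)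
      _ ≤ 40 * B * Q := by linarith

end Pool.FDN
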