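import Mathlib
import Pool.Agent.Helper91.HN.Num6

/-!
# Functions of determinants: the numerical row `numerics2`
-/

set_option autoImplicit false

namespace Pool.FDN

theorem numerics2 (C : ℝ) (hC : 1 ≤ C) : ∃ c : ℝ, 0 < c ∧ ∀ n m k T : ℕ,
    2 ≤ n → 1 ≤ m → 1 ≤ k → 1 ≤ T →
    (∀ D N a d : ℕ, 1 ≤ D → 1 ≤ d → a < N → D * (2 * (N + a) + 1) ≤ n →
      ∀ q : ℝ, 0 < q → q < 1 →
      (1 - (1 - q ^ N) ^ (a + 1)) ^ (2 * D) ≤ q ^ ((N - a) * (2 * D)) *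
        (T * (C * ((m + 1) * (1 - q) + 2 * d + 1) ^ 2 * (1 / d + k / D)) ^ D)) →
    c * min ((n : ℝ) / ((m : ℝ) ^ (1 / 3 : ℝ) * Real.log n))
      (min (((n : ℝ) ^ 4 / (k * (m : ℝ) ^ 2 * Real.log n ^ 4)) ^ (1 / 3 : ℝ))
        ((n : ℝ) ^ 2 / (k * Real.log n ^ 2))) ≤ Real.log (2 * T) := by
  obtain ⟨c, hc, h⟩ := numFD_min hC
  refine ⟨c, hc, ?_⟩
  intro n m k T hn hm hk hT H
  refine h n k m T hn hk hm hT ?_
  intro N a D d hD hd ha hs q hq0 hq1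
  have := H D N a d hD hd ha hs q hq0 hq1
  rw [mul_assoc]
  exact this

/-- The three alternatives, same hypothesis. -/
theorem numerics2_or (C : ℝ) (hC : 1 ≤ C) : ∃ c : ℝ, 0 < c ∧ ∀ n m k T : ℕ,
    2 ≤ n → 1 ≤ m → 1 ≤ k → 1 ≤ T →
    (∀ D N a d : ℕ, 1 ≤ D → 1 ≤ d → a < N → D * (2 * (N + a) + 1) ≤ n →
      ∀ q : ℝ, 0 < q → q < 1 →
      (1 - (1 - q ^ N) ^ (a + 1)) ^ (2 * D) ≤ q ^ ((N - a) * (2 * D)) *
        (T * (C * ((m + 1) * (1 - q) + 2 * d + 1) ^ 2 * (1 / d + k / D)) ^ D)) →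
    c * n ^ 3 ≤ m * (Real.log n * Real.log (2 * T)) ^ 3 ∨
    c * n ^ 4 ≤ k * m ^ 2 * Real.log n ^ 4 * Real.log (2 * T) ^ 3 ∨
    c * n ^ 2 ≤ k * Real.log n ^ 2 * Real.log (2 * T) := by
  obtain ⟨c, hc, -, h⟩ := numFD hC
  refine ⟨c, hc, ?_⟩
  intro n m k T hn hm hk hT H
  refine h n k m T hn hk hm hT ?_
  intro N a D d hD hd ha hs q hq0 hq1
  have := H D N a d hD hd ha hs q hq0 hq1
  rw [mul_assoc]
  exact this

end Pool.FDN
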