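import Mathlib

/-!
# Determinant sums for arbitrary tests, words of bits: the choice of the parameters
-/

set_option autoImplicit false

namespace Pool.GTN

open Real

/-- `log y ≤ 2 √y`. -/
theorem log_le_sqrt {y : ℝ} (hy : 0 < y) : log y ≤ 2 * √y := by
  have h1 : log y = 2 * log (√y) := by
    rw [← log_rpow (sqrt_pos.2 hy)]
    congr 1
    have h2 : (√y) ^ (2 : ℝ) = (√y) ^ (2 : ℕ) := by
      rw [← rpow_natCast]
      norm_num
    rw [h2, sq_sqrt hy.le]
  have h3 : log (√y) ≤ √y - 1 := log_le_sub_one_of_pos (sqrt_pos.2 hy)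
  linarith

/-- The choice of `l`. -/
theorem choose_l {K : ℝ} (hK : 1 ≤ K) {μ : ℝ} (hμ : 1 ≤ μ) :
    ∃ l : ℕ, 1 ≤ l ∧ 8 * μ * (1 + log (16 * K * l)) ≤ l ∧
      (2 : ℝ) ^ l ≤ (2 * μ) ^ (80000 * K * μ) := by
  have hK0 : 0 < K := by linarith
  have hμ0 : 0 < μ := by linarith
  have hlμ : 0 ≤ log μ := log_nonneg hμ
  obtain ⟨l, hl⟩ : ∃ l : ℕ, l = ⌈40000 * K * μ * (1 + log μ)⌉₊ := ⟨_, rfl⟩
  set x : ℝ := 40000 * K * μ * (1 + log μ) with hx
  have hx1 : 1 ≤ x := by
    have h1 : 1 ≤ K * μ := one_le_mul_of_one_le_of_one_le hK hμ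
    have h2 : 1 ≤ (K * μ) * (1 + log μ) := one_le_mul_of_one_le_of_one_le h1 (by linarith)
    rw [hx]
    nlinarith
  have hl1 : x ≤ l := by rw [hl]; exact Nat.le_ceil _
  have hl2 : (l : ℝ) < x + 1 := by rw [hl]; exact Nat.ceil_lt_add_one (by linarith)
  have hl3 : (l : ℝ) ≤ 2 * x := by linarith
  have hl0 : (0 : ℝ) < l := by linarith
  refine ⟨l, ?_, ?_, ?_⟩
  · have : (1 : ℝ) ≤ l := hx1.trans hl1
    exact_mod_cast this
  · have h1 : log (16 * K * l) ≤ log (1280000 * K ^ 2) + 2 * log μ := by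
      have h2 : 16 * K * l ≤ 1280000 * K ^ 2 * μ ^ 2 := by
        have h3 : 1 + log μ ≤ μ := by
          have := log_le_sub_one_of_pos hμ0
          linarith
        calc 16 * K * l ≤ 16 * K * (2 * x) := mul_le_mul_of_nonneg_left hl3 (by positivity)
          _ = 1280000 * K ^ 2 * (μ * (1 + log μ)) := by rw [hx]; ring
          _ ≤ 1280000 * K ^ 2 * (μ * μ) := by
              refine mul_le_mul_of_nonneg_left ?_ (by positivity)
              exact mul_le_mul_of_nonneg_left h3 hμ0.le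
          _ = _ := by ring
      calc log (16 * K * l) ≤ log (1280000 * K ^ 2 * μ ^ 2) := log_le_log (by positivity) h2
        _ = log (1280000 * K ^ 2) + 2 * log μ := by
            rw [log_mul (by positivity) (by positivity), log_pow]
            push_cast
            ring
    have h4 : log (1280000 * K ^ 2) ≤ 2264 * K := by
      have h5 := log_le_sqrt (y := 1280000 * K ^ 2) (by positivity)
      have h6 : √(1280000 * K ^ 2) ≤ 1132 * K := by
        rw [sqrt_le_iff]
        refine ⟨by positivity, ?_⟩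
        nlinarith [sq_nonneg K]
      linarith
    have h7 : 1 + log (16 * K * l) ≤ 2265 * K * (1 + log μ) := by
      have h8 : 0 ≤ K * log μ := by positivity
      have h9 : log μ ≤ K * log μ := by nlinarith
      nlinarith
    calc 8 * μ * (1 + log (16 * K * l)) ≤ 8 * μ * (2265 * K * (1 + log μ)) :=
          mul_le_mul_of_nonneg_left h7 (by positivity)
      _ = 18120 * (K * μ * (1 + log μ)) := by ring
      _ ≤ 40000 * (K * μ * (1 + log μ)) := by
          refine mul_le_mul_of_nonneg_right (by norm_num) ?_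
          positivity
      _ = x := by rw [hx]; ring
      _ ≤ l := hl1
  · have h1 : (2 : ℝ) ^ l = exp (l * log 2) := by
      rw [mul_comm, exp_mul, exp_log (by norm_num), rpow_natCast]
    have h2 : (2 * μ) ^ (80000 * K * μ) = exp ((80000 * K * μ) * (log 2 + log μ)) := by
      rw [rpow_def_of_pos (by positivity), log_mul (by norm_num) (by positivity), mul_comm]
    rw [h1, h2, exp_le_exp]
    have h3 : 0 < log 2 := log_pos (by norm_num)
    have h4 : log 2 ≤ 1 := by
      have := log_two_lt_d9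
      linarith
    calc l * log 2 ≤ (2 * x) * log 2 := mul_le_mul_of_nonneg_right hl3 h3.le
      _ = (80000 * K * μ) * (log 2 + log 2 * log μ) := by rw [hx]; ring
      _ ≤ (80000 * K * μ) * (log 2 + log μ) := by
          refine mul_le_mul_of_nonneg_left ?_ (by positivity)
          have : log 2 * log μ ≤ 1 * log μ := mul_le_mul_of_nonneg_right h4 hlμ
          linarith

/-- The exponential sum. -/
theorem sum_le {x z : ℝ} (hx : 0 ≤ x) (hz : 0 < z) (hz1 : z ≤ 1) (Λ : ℕ) :
    ∑ j ∈ Finset.range (Λ + 1), x ^ j / (j.factorial : ℝ) ≤ (1 / z) ^ Λ * exp (z * x) := by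
  have h1 : ∀ j ∈ Finset.range (Λ + 1), x ^ j / (j.factorial : ℝ) ≤
      (1 / z) ^ Λ * ((z * x) ^ j / (j.factorial : ℝ)) := by
    intro j hj
    have hj' : j ≤ Λ := by
      have := Finset.mem_range.1 hj
      omega
    have h2 : x ^ j = (1 / z) ^ j * (z * x) ^ j := by
      rw [← mul_pow]
      congr 1
      field_simp
    have h3 : (1 / z) ^ j ≤ (1 / z) ^ Λ :=
      pow_le_pow_right₀ (by rw [le_div_iff₀ hz]; linarith) hj'
    rw [h2, mul_div_assoc]
    exact mul_le_mul_of_nonneg_right h3 (by positivity)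
  calc ∑ j ∈ Finset.range (Λ + 1), x ^ j / (j.factorial : ℝ)
      ≤ ∑ j ∈ Finset.range (Λ + 1), (1 / z) ^ Λ * ((z * x) ^ j / (j.factorial : ℝ)) :=
        Finset.sum_le_sum h1
    _ = (1 / z) ^ Λ * ∑ j ∈ Finset.range (Λ + 1), (z * x) ^ j / (j.factorial : ℝ) := by
        rw [Finset.mul_sum]
    _ ≤ (1 / z) ^ Λ * exp (z * x) :=
        mul_le_mul_of_nonneg_left (sum_le_exp_of_nonneg (by positivity) _) (by positivity)

theorem exp_half_le : exp (1 / 2) ≤ 2 - 2 * exp (-2) := by
  have h1 : exp (1 / 2) ≤ 1.66 := by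
    have h2 : exp (1 / 2) ^ 2 = exp 1 := by
      rw [← exp_nat_mul]
      norm_num
    have h3 := exp_one_lt_d9
    have h4 : 0 < exp (1 / 2) := exp_pos _
    by_contra hcon
    push Not at hcon
    nlinarith
  have h5 : exp (-2) ≤ 0.14 := by
    have h6 : exp (-2) * exp 1 ^ 2 = 1 := by
      rw [← exp_nat_mul, ← exp_add]
      norm_num
    have h7 := exp_one_gt_d9
    have h8 : 0 < exp (-2) := exp_pos _
    have h9 : (7.3 : ℝ) ≤ exp 1 ^ 2 := by nlinarith
    nlinarith
  linarith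

/-- **The numerical part.** -/
theorem numericsGT (K : ℕ) (hK : 1 ≤ K) : ∃ c C : ℝ, 0 < c ∧ 0 < C ∧ ∀ n m r : ℕ,
    1 ≤ n → n ≤ m → 1 ≤ r →
    (∀ D l B : ℕ, 1 ≤ D → 1 ≤ l → 1 ≤ B → K * (D * (l * B + 2 ^ l)) ≤ n →
      ∀ q : ℝ, 0 < q → q < 1 →
      (2 - 2 * q ^ B) ^ (2 * D * l) ≤ 2 * ((2 * (D * m) / n : ℕ) + 1) * (r *
        (∑ j ∈ Finset.range (2 * (D * m) / n + 1),
          (m * (1 - q)) ^ j / (j.factorial : ℝ)) ^ 2)) →
    exp (c * n / (2 * ((m : ℝ) / n)) ^ (C * ((m : ℝ) / n))) ≤ 2 * r := by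
  refine ⟨1 / (16 * K), 80000 * K, by positivity, by positivity, ?_⟩
  intro n m r hn hnm hr H
  have hK' : (1 : ℝ) ≤ K := by exact_mod_cast hK
  have hK0 : (0 : ℝ) < K := by linarith
  have hn' : (1 : ℝ) ≤ n := by exact_mod_cast hn
  have hn0 : (0 : ℝ) < n := by linarith
  have hnm' : (n : ℝ) ≤ m := by exact_mod_cast hnm
  have hm0 : (0 : ℝ) < m := by linarith
  have hr' : (1 : ℝ) ≤ r := by exact_mod_cast hr
  have hr0 : (0 : ℝ) < r := by linarith
  set μ : ℝ := (m : ℝ) / n with hμ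
  have hμ1 : 1 ≤ μ := by rw [hμ, le_div_iff₀ hn0]; linarith
  have hμ0 : 0 < μ := by linarith
  have hmμ : (m : ℝ) = μ * n := by rw [hμ]; field_simp
  obtain ⟨l, hl1, hl2, hl3⟩ := choose_l hK' hμ1
  have hl1' : (1 : ℝ) ≤ l := by exact_mod_cast hl1
  have hl0 : (0 : ℝ) < l := by linarith
  have h2l : (0 : ℝ) < 2 ^ l := by positivity
  -- it suffices to bound with `2 ^ l`
  have hexp : 1 / (16 * (K : ℝ)) * n / (2 * μ) ^ (80000 * K * μ) ≤ n / (16 * K * 2 ^ l) := by
    calc 1 / (16 * (K : ℝ)) * n / (2 * μ) ^ (80000 * K * μ)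
        ≤ 1 / (16 * (K : ℝ)) * n / 2 ^ l :=
          div_le_div_of_nonneg_left (by positivity) h2l hl3
      _ = n / (16 * K * 2 ^ l) := by field_simp
  refine (exp_le_exp.2 hexp).trans ?_
  by_cases hcase : 2 * K * 2 ^ l ≤ n
  · obtain ⟨D, hD⟩ : ∃ D, D = n / (2 * K * 2 ^ l) := ⟨_, rfl⟩
    have hpos : 0 < 2 * K * 2 ^ l := by positivity
    have hD1 : 1 ≤ D := by
      rw [hD, Nat.one_le_div_iff hpos]
      exact hcase
    have hDn : D * (2 * K * 2 ^ l) ≤ n := by
      rw [hD]
      exact Nat.div_mul_le_self _ _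
    have hnD : n ≤ 2 * (D * (2 * K * 2 ^ l)) := by
      have h1 : n < (D + 1) * (2 * K * 2 ^ l) := (Nat.div_lt_iff_lt_mul hpos).1 (by omega)
      have h2 : (D + 1) * (2 * K * 2 ^ l) ≤ 2 * D * (2 * K * 2 ^ l) :=
        Nat.mul_le_mul_right _ (by omega)
      calc n ≤ 2 * D * (2 * K * 2 ^ l) := h1.le.trans h2
        _ = _ := by ring
    have hnD' : (n : ℝ) ≤ 2 * (D * (2 * K * 2 ^ l)) := by exact_mod_cast hnD
    have hD1' : (1 : ℝ) ≤ D := by exact_mod_cast hD1
    have hD0 : (0 : ℝ) < D := by linarith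
    obtain ⟨B, hB⟩ : ∃ B, B = 2 ^ l / l := ⟨_, rfl⟩
    have hll : l ≤ 2 ^ l := Nat.lt_two_pow_self.le
    have hB1 : 1 ≤ B := by
      rw [hB, Nat.one_le_div_iff (by omega)]
      exact hll
    have hlB : l * B ≤ 2 ^ l := by
      rw [hB]
      exact Nat.mul_div_le _ _
    have hlB2 : 2 ^ l ≤ 2 * (B * l) := by
      have h1 : 2 ^ l < (B + 1) * l := (Nat.div_lt_iff_lt_mul (by omega)).1 (by omega)
      have h2 : (B + 1) * l ≤ 2 * B * l := Nat.mul_le_mul_right _ (by omega)
      calc 2 ^ l ≤ 2 * B * l := h1.le.trans h2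
        _ = _ := by ring
    have hlB2' : (2 : ℝ) ^ l ≤ 2 * (B * l) := by exact_mod_cast hlB2
    have hB1' : (1 : ℝ) ≤ B := by exact_mod_cast hB1
    have hB0 : (0 : ℝ) < B := by linarith
    have hsize : K * (D * (l * B + 2 ^ l)) ≤ n := by
      calc K * (D * (l * B + 2 ^ l)) ≤ K * (D * (2 ^ l + 2 ^ l)) := by
            refine Nat.mul_le_mul_left _ (Nat.mul_le_mul_left _ ?_)
            omega
        _ = D * (2 * K * 2 ^ l) := by ring
        _ ≤ n := hDn
    obtain ⟨q, hq⟩ : ∃ q : ℝ, q = exp (-(2 / (B : ℝ))) := ⟨_, rfl⟩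
    have hq0 : 0 < q := by rw [hq]; exact exp_pos _
    have hq1 : q < 1 := by
      rw [hq, exp_lt_one_iff]
      have : 0 < 2 / (B : ℝ) := by positivity
      linarith
    have hqB : q ^ B = exp (-2) := by
      rw [hq, ← exp_nat_mul]
      congr 1
      field_simp
    have h1q : 1 - q ≤ 2 / B := by
      have := add_one_le_exp (-(2 / (B : ℝ)))
      rw [hq]
      linarith
    have h1q0 : 0 ≤ 1 - q := by linarith
    have hmain := H D l B hD1 hl1 hB1 hsize q hq0 hq1
    set Λ : ℕ := 2 * (D * m) / n with hΛ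
    have hΛ' : (Λ : ℝ) ≤ 2 * D * μ := by
      have h1 : Λ * n ≤ 2 * (D * m) := by
        rw [hΛ]
        exact Nat.div_mul_le_self _ _
      have h2 : (Λ : ℝ) * n ≤ 2 * (D * m) := by exact_mod_cast h1
      have h3 : (Λ : ℝ) * n ≤ (2 * D * μ) * n := by
        calc (Λ : ℝ) * n ≤ 2 * (D * m) := h2
          _ = (2 * D * μ) * n := by rw [hmμ]; ring
      exact le_of_mul_le_mul_right h3 hn0
    have hKl : (1 : ℝ) ≤ 16 * K * l := by
      have : (1 : ℝ) ≤ K * l := one_le_mul_of_one_le_of_one_le hK' hl1'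
      nlinarith
    have hKl0 : (0 : ℝ) < 16 * K * l := by linarith
    set z : ℝ := 1 / (16 * K * l) with hz
    have hz0 : 0 < z := by positivity
    have hz1 : z ≤ 1 := by
      rw [hz, div_le_one hKl0]
      exact hKl
    have hzx : z * (m * (1 - q)) ≤ D * μ := by
      have h1 : (m : ℝ) * (1 - q) ≤ 16 * K * l * (D * μ) := by
        have h2 : (2 : ℝ) / B ≤ 4 * l / 2 ^ l := by
          rw [div_le_div_iff₀ hB0 h2l]
          calc (2 : ℝ) * 2 ^ l ≤ 2 * (2 * (B * l)) := mul_le_mul_of_nonneg_left hlB2' (by norm_num)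
            _ = 4 * l * B := by ring
        have h3 : (1 : ℝ) / 2 ^ l ≤ 4 * K * D / n := by
          rw [div_le_div_iff₀ h2l hn0]
          linarith
        calc (m : ℝ) * (1 - q) ≤ m * (4 * l / 2 ^ l) :=
              mul_le_mul_of_nonneg_left (h1q.trans h2) hm0.le
          _ = 4 * m * l * (1 / 2 ^ l) := by ring
          _ ≤ 4 * m * l * (4 * K * D / n) := mul_le_mul_of_nonneg_left h3 (by positivity)
          _ = 16 * K * l * (D * μ) := by
              rw [hμ]
              ring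
      calc z * (m * (1 - q)) ≤ z * (16 * K * l * (D * μ)) := mul_le_mul_of_nonneg_left h1 hz0.le
        _ = D * μ := by
            rw [hz]
            field_simp
    have hS := sum_le (x := m * (1 - q)) (by positivity) hz0 hz1 Λ
    have h1z : 1 / z = 16 * K * l := by
      rw [hz]
      field_simp
    rw [h1z] at hS
    set lg : ℝ := log (16 * K * l) with hlg
    have hlg0 : 0 ≤ lg := log_nonneg hKl
    have hS2 : ∑ j ∈ Finset.range (Λ + 1), (m * (1 - q)) ^ j / (j.factorial : ℝ) ≤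
        exp (2 * D * μ * lg + D * μ) := by
      refine hS.trans ?_
      rw [exp_add]
      refine mul_le_mul ?_ (exp_le_exp.2 hzx) (exp_pos _).le (exp_pos _).le
      calc (16 * K * l : ℝ) ^ Λ = exp (Λ * lg) := by
            rw [mul_comm (Λ : ℝ), exp_mul, hlg, exp_log hKl0, rpow_natCast]
        _ ≤ exp (2 * D * μ * lg) := exp_le_exp.2 (mul_le_mul_of_nonneg_right hΛ' hlg0)
    have hS0 : 0 ≤ ∑ j ∈ Finset.range (Λ + 1), (m * (1 - q)) ^ j / (j.factorial : ℝ) :=
      Finset.sum_nonneg fun j _ => by positivity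
    have hleft : exp (D * l) ≤ (2 - 2 * q ^ B) ^ (2 * D * l) := by
      have h1 : exp ((D : ℝ) * l) = exp (1 / 2) ^ (2 * D * l) := by
        rw [← exp_nat_mul]
        congr 1
        push_cast
        ring
      rw [h1, hqB]
      exact pow_le_pow_left₀ (exp_pos _).le exp_half_le _
    have hfac : 2 * ((Λ : ℝ) + 1) ≤ 2 * exp (2 * D * μ) := by
      have := add_one_le_exp (2 * D * μ)
      linarith
    have hall : exp (D * l) ≤ 2 * r * exp (4 * D * μ * (1 + lg)) := by
      calc exp (D * l) ≤ _ := hleft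
        _ ≤ _ := hmain
        _ ≤ (2 * exp (2 * D * μ)) * (r * exp (2 * D * μ * lg + D * μ) ^ 2) := by
            refine mul_le_mul hfac ?_ (mul_nonneg hr0.le (sq_nonneg _))
              (mul_nonneg zero_le_two (exp_pos _).le)
            refine mul_le_mul_of_nonneg_left ?_ hr0.le
            exact pow_le_pow_left₀ hS0 hS2 2
        _ = 2 * r * exp (4 * D * μ * (1 + lg)) := by
            rw [← exp_nat_mul]
            have h1 : exp (4 * D * μ * (1 + lg)) =
                exp (2 * D * μ) * exp ((2 : ℕ) * (2 * D * μ * lg + D * μ)) := by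
              rw [← exp_add]
              congr 1
              push_cast
              ring
            rw [h1]
            ring
    have hhalf : 4 * D * μ * (1 + lg) ≤ D * l / 2 := by
      calc 4 * D * μ * (1 + lg) = D * (8 * μ * (1 + lg)) / 2 := by ring
        _ ≤ D * l / 2 := by
            refine div_le_div_of_nonneg_right ?_ (by norm_num)
            exact mul_le_mul_of_nonneg_left hl2 hD0.le
    have hfin : exp ((D : ℝ) * l / 2) ≤ 2 * r := by
      have h1 : exp ((D : ℝ) * l / 2) * exp ((D : ℝ) * l / 2) ≤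
          (2 * r) * exp ((D : ℝ) * l / 2) := by
        calc exp ((D : ℝ) * l / 2) * exp ((D : ℝ) * l / 2) = exp (D * l) := by
              rw [← exp_add]
              congr 1
              ring
          _ ≤ _ := hall
          _ ≤ (2 * r) * exp ((D : ℝ) * l / 2) :=
              mul_le_mul_of_nonneg_left (exp_le_exp.2 hhalf) (by positivity)
      exact le_of_mul_le_mul_right h1 (exp_pos _)
    refine (exp_le_exp.2 ?_).trans hfin
    rw [div_le_iff₀ (by positivity)]
    calc (n : ℝ) ≤ 2 * (D * (2 * K * 2 ^ l)) := hnD'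
      _ = 4 * (D * K * 2 ^ l) := by ring
      _ ≤ 8 * (D * K * 2 ^ l) * l := by
          have h1 : 0 ≤ (D : ℝ) * K * 2 ^ l := by positivity
          nlinarith
      _ = D * l / 2 * (16 * K * 2 ^ l) := by ring
  · push Not at hcase
    have hcase' : (n : ℝ) < 2 * K * 2 ^ l := by exact_mod_cast hcase
    have h1 : (n : ℝ) / (16 * K * 2 ^ l) ≤ 1 / 8 := by
      rw [div_le_div_iff₀ (by positivity) (by norm_num)]
      linarith
    have h2 : exp (1 / 8) ≤ 2 := by
      have h3 : exp (1 / 8) ≤ exp (1 / 2) := by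
        apply exp_le_exp.2
        norm_num
      have h4 := exp_half_le
      have h5 : 0 < exp (-2) := exp_pos _
      linarith
    calc exp ((n : ℝ) / (16 * K * 2 ^ l)) ≤ exp (1 / 8) := exp_le_exp.2 h1
      _ ≤ 2 := h2
      _ ≤ 2 * r := by linarith

end Pool.GTN
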