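import Mathlib
import Pool.Agent.Helper91.SD.Num2

/-!
# Determinant sums for Hamiltonicity: the choice of the parameters
-/

set_option autoImplicit false

namespace Pool.HNN

open Real

theorem exp_ten : (400 : ℝ) ≤ exp 10 := by
  have h1 : (2 : ℝ) ≤ exp 1 := by
    have := exp_one_gt_d9
    linarith
  have h2 : exp 10 = exp 1 ^ 10 := by
    rw [← exp_nat_mul]
    norm_num
  rw [h2]
  calc (400 : ℝ) ≤ 2 ^ 10 := by norm_num
    _ ≤ exp 1 ^ 10 := pow_le_pow_left₀ (by norm_num) h1 10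

/-- The choice of `l`. -/
theorem choose_l {a : ℝ} (ha : 1 ≤ a) {μ : ℝ} (hμ : 1 ≤ μ) :
    ∃ l : ℕ, 2 ≤ l ∧ a ^ 2 * μ * l ^ 2 ≤ 2 ^ l ∧
      l * (2 : ℝ) ^ l ≤ 40 * exp 10 * a ^ 5 * (μ * (1 + log μ) ^ 3) ∧
      (2 : ℝ) ^ l ≤ 2 * exp 10 * a ^ 4 * (μ * (1 + log μ) ^ 2) := by
  set L : ℝ := 1 + log μ with hL
  have hμ0 : 0 < μ := by linarith
  have hL1 : 1 ≤ L := by
    have := log_nonneg hμ
    linarith
  have hL0 : 0 < L := by linarith
  have ha0 : 0 < a := by linarith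
  have h10 := exp_ten
  have h100 : 0 < exp 10 := by linarith
  set x : ℝ := exp 10 * a ^ 4 * (μ * L ^ 2) with hx
  have hx400 : 400 ≤ x := by
    have h1 : 1 ≤ a ^ 4 := one_le_pow₀ ha
    have h2 : 1 ≤ μ * L ^ 2 := one_le_mul_of_one_le_of_one_le hμ (one_le_pow₀ hL1)
    calc (400 : ℝ) ≤ exp 10 := h10
      _ ≤ exp 10 * a ^ 4 := le_mul_of_one_le_right h100.le h1
      _ ≤ x := le_mul_of_one_le_right (by positivity) h2
  obtain ⟨p, hp1, hp2⟩ := exists_nat_pow_near (x := x) (y := 2) (by linarith) (by norm_num)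
  have hp : 1 ≤ p := by
    by_contra hcon
    have : p = 0 := by omega
    subst this
    norm_num at hp2
    linarith
  have hlogx : log x ≤ 10 * a * L := by
    have h1 : log x = 10 + 4 * log a + (log μ + 2 * log L) := by
      rw [hx, log_mul (by positivity) (by positivity), log_mul (by positivity) (by positivity),
        log_mul (by positivity) (by positivity), log_exp, log_pow, log_pow]
      push_cast
      ring
    have h2 : log a ≤ a - 1 := log_le_sub_one_of_pos ha0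
    have h3 : log L ≤ L - 1 := log_le_sub_one_of_pos hL0
    have h4 : log μ = L - 1 := by rw [hL]; ring
    rw [h1, h4]
    nlinarith [mul_nonneg (sub_nonneg.2 ha) (sub_nonneg.2 hL1)]
  have hplog : (p : ℝ) * log 2 ≤ log x := by
    have h1 : log ((2 : ℝ) ^ p) ≤ log x := log_le_log (by positivity) hp1
    rwa [log_pow] at h1
  have hl : ((p + 1 : ℕ) : ℝ) ≤ 20 * a * L := by
    have h1 : (0.69 : ℝ) ≤ log 2 := by
      have := log_two_gt_d9
      linarith
    have h2 : (p : ℝ) * 0.69 ≤ 10 * a * L :=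
      (mul_le_mul_of_nonneg_left h1 (by positivity)).trans (hplog.trans hlogx)
    have h3 : 1 ≤ a * L := one_le_mul_of_one_le_of_one_le ha hL1
    push_cast
    nlinarith
  refine ⟨p + 1, by omega, ?_, ?_, ?_⟩
  · calc a ^ 2 * μ * ((p + 1 : ℕ) : ℝ) ^ 2 ≤ a ^ 2 * μ * (20 * a * L) ^ 2 := by
          refine mul_le_mul_of_nonneg_left (pow_le_pow_left₀ (by positivity) hl 2) (by positivity)
      _ = 400 * (a ^ 4 * (μ * L ^ 2)) := by ring
      _ ≤ exp 10 * (a ^ 4 * (μ * L ^ 2)) := mul_le_mul_of_nonneg_right h10 (by positivity)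
      _ = x := by rw [hx]; ring
      _ ≤ 2 ^ (p + 1) := hp2.le
  · have h1 : (2 : ℝ) ^ (p + 1) ≤ 2 * x := by
      rw [pow_succ]
      linarith
    calc ((p + 1 : ℕ) : ℝ) * (2 : ℝ) ^ (p + 1) ≤ (20 * a * L) * (2 * x) :=
          mul_le_mul hl h1 (by positivity) (by positivity)
      _ = 40 * exp 10 * a ^ 5 * (μ * L ^ 3) := by rw [hx]; ring
  · rw [pow_succ]
    calc (2 : ℝ) ^ p * 2 ≤ x * 2 := mul_le_mul_of_nonneg_right hp1 (by norm_num)
      _ = 2 * exp 10 * a ^ 4 * (μ * L ^ 2) := by rw [hx]; ring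

/-- The constant. -/
noncomputable def cstH (K : ℕ) : ℝ := 1 / (2 * K * (40 * exp 10 * (4 * K) ^ 5))

theorem cstH_pos {K : ℕ} (hK : 1 ≤ K) : 0 < cstH K := by
  have : (1 : ℝ) ≤ K := by exact_mod_cast hK
  have h2 := exp_pos 10
  unfold cstH
  positivity

/-- **The numerical part.** -/
theorem numericsH {K n m r : ℕ} (hK : 1 ≤ K) (hn : 1 ≤ n) (hnm : n ≤ m) (hr : 1 ≤ r)
    (H : ∀ D l : ℕ, 1 ≤ D → 1 ≤ l → D < m → K * D * l * 2 ^ l ≤ n → ∀ q : ℝ, 0 < q → q < 1 →
      (2 - q ^ (2 ^ l)) ^ (2 * D * l) ≤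
        r * (∑ j ∈ Finset.range (D + 1), (Nat.choose (m - D - 1 + j) j : ℝ) * (1 - q) ^ j) ^ 2) :
    exp (cstH K * n ^ 2 / (m * (1 + log (m / n)) ^ 3)) ≤ 2 * r := by
  have hK' : (1 : ℝ) ≤ K := by exact_mod_cast hK
  have hK0 : (0 : ℝ) < K := by linarith
  have hn' : (1 : ℝ) ≤ n := by exact_mod_cast hn
  have hn0 : (0 : ℝ) < n := by linarith
  have hnm' : (n : ℝ) ≤ m := by exact_mod_cast hnm
  have hm0 : (0 : ℝ) < m := by linarith
  have hr' : (1 : ℝ) ≤ r := by exact_mod_cast hr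
  set μ : ℝ := m / n with hμ
  have hμ1 : 1 ≤ μ := by rw [hμ, le_div_iff₀ hn0]; linarith
  have hμ0 : 0 < μ := by linarith
  have hL1 : 1 ≤ 1 + log μ := by
    have := log_nonneg hμ1
    linarith
  have hL0 : 0 < 1 + log μ := by linarith
  obtain ⟨l, hl2, hl3, hl4, -⟩ := choose_l (a := 4 * K) (by linarith) hμ1
  set C : ℝ := 40 * exp 10 * (4 * K) ^ 5 with hC
  have h100 := exp_pos 10
  have hC0 : 0 < C := by positivity
  have hexp : cstH K * n ^ 2 / (m * (1 + log μ) ^ 3) =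
      n / (2 * K * (C * (μ * (1 + log μ) ^ 3))) := by
    unfold cstH
    rw [← hC, hμ]
    field_simp
  rw [hexp]
  set B : ℕ := 2 ^ l with hB
  have hB' : (B : ℝ) = 2 ^ l := by rw [hB]; push_cast; rfl
  have hB0 : (0 : ℝ) < B := by rw [hB']; positivity
  have hl2' : (2 : ℝ) ≤ l := by exact_mod_cast hl2
  have hl0 : (0 : ℝ) < l := by linarith
  have hpos : 0 < K * l * B := by positivity
  by_cases hcase : K * l * B ≤ n
  · obtain ⟨D, hDdef⟩ : ∃ D, D = n / (K * l * B) := ⟨_, rfl⟩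
    have hD1 : 1 ≤ D := by
      rw [hDdef, Nat.one_le_div_iff hpos]
      exact hcase
    have hDn : K * D * l * B ≤ n := by
      calc K * D * l * B = D * (K * l * B) := by ring
        _ ≤ n := by rw [hDdef]; exact Nat.div_mul_le_self _ _
    have hnD : n ≤ 2 * (D * (K * l * B)) := by
      have h1 : n < (D + 1) * (K * l * B) := by
        exact (Nat.div_lt_iff_lt_mul hpos).1 (by omega)
      have h2 : (D + 1) * (K * l * B) ≤ 2 * D * (K * l * B) := Nat.mul_le_mul_right _ (by omega)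
      calc n ≤ 2 * D * (K * l * B) := h1.le.trans h2
        _ = _ := by ring
    have hDn' : (K : ℝ) * D * l * B ≤ n := by exact_mod_cast hDn
    have hnD' : (n : ℝ) ≤ 2 * (D * (K * l * B)) := by exact_mod_cast hnD
    have hD1' : (1 : ℝ) ≤ D := by exact_mod_cast hD1
    have hD0 : (0 : ℝ) < D := by linarith
    have hDB : (D : ℝ) * B ≤ m := by
      have h1 : (D : ℝ) * B * 1 ≤ D * B * (K * l) :=
        mul_le_mul_of_nonneg_left (one_le_mul_of_one_le_of_one_le hK' (by linarith)) (by positivity)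
      calc (D : ℝ) * B = D * B * 1 := by ring
        _ ≤ D * B * (K * l) := h1
        _ = K * D * l * B := by ring
        _ ≤ m := hDn'.trans hnm'
    have hB4 : (4 : ℝ) ≤ B := by
      rw [hB']
      calc (4 : ℝ) = 2 ^ 2 := by norm_num
        _ ≤ 2 ^ l := pow_le_pow_right₀ (by norm_num) hl2
    have hDm : D < m := by
      have h1 : (D : ℝ) * 4 ≤ m := (mul_le_mul_of_nonneg_left hB4 hD0.le).trans hDB
      have h2 : (D : ℝ) < m := by linarith
      exact_mod_cast h2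
    -- the choice of q
    set lam : ℝ := log (2 * l) with hlam
    have hlam1 : 1 ≤ lam := by
      have h1 : log 4 ≤ lam := log_le_log (by norm_num) (by linarith)
      have h2 : log 4 = 2 * log 2 := by
        rw [show (4 : ℝ) = 2 ^ 2 by norm_num, log_pow]
        push_cast
        ring
      have h3 := log_two_gt_d9
      linarith
    have hlam2 : lam ≤ l := by
      have h1 : log (2 * l / 2) ≤ 2 * l / 2 - 1 := log_le_sub_one_of_pos (by positivity)
      have h2 : log (2 * l / 2 : ℝ) = lam - log 2 := by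
        rw [log_div (by positivity) (by norm_num)]
      have h3 := log_two_lt_d9
      rw [h2] at h1
      linarith
    set q : ℝ := exp (-(lam / B)) with hq
    have hq0 : 0 < q := exp_pos _
    have hq1 : q < 1 := by
      rw [hq, exp_lt_one_iff]
      have : 0 < lam / B := by positivity
      linarith
    have hqB : q ^ B = 1 / (2 * l) := by
      rw [hq, ← exp_nat_mul]
      have h1 : (B : ℝ) * -(lam / B) = -lam := by field_simp
      rw [h1, exp_neg, hlam, exp_log (by positivity), one_div]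
    have hq2 : 1 - q ≤ lam / B := by
      have := add_one_le_exp (-(lam / B))
      linarith
    have hmain := H D l hD1 (by omega) hDm (by rw [← hB]; exact hDn) q hq0 hq1
    rw [← hB, hqB] at hmain
    -- the left side
    have hleft : ((B : ℝ) ^ 2 / 2) ^ D ≤ (2 - 1 / (2 * l)) ^ (2 * D * l) := by
      have h1 : (1 : ℝ) / 2 ≤ (1 - 1 / (4 * l)) ^ (2 * l) := by
        have h2 := one_add_mul_le_pow (a := -(1 / (4 * l : ℝ))) (by
          have : (1 : ℝ) / (4 * l) ≤ 1 / 4 := by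
            apply one_div_le_one_div_of_le (by norm_num)
            linarith
          linarith) (2 * l)
        have h3 : 1 + ((2 * l : ℕ) : ℝ) * -(1 / (4 * l)) = 1 / 2 := by
          push_cast
          field_simp
          norm_num
        rw [h3] at h2
        calc (1 : ℝ) / 2 ≤ (1 + -(1 / (4 * l : ℝ))) ^ (2 * l) := h2
          _ = (1 - 1 / (4 * l)) ^ (2 * l) := by rw [← sub_eq_add_neg]
      have h4 : (B : ℝ) ^ 2 / 2 ≤ (2 - 1 / (2 * l)) ^ (2 * l) := by
        have h5 : (2 - 1 / (2 * l) : ℝ) = 2 * (1 - 1 / (4 * l)) := by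
          field_simp
          ring
        have h6 : (B : ℝ) ^ 2 = 2 ^ (2 * l) := by
          rw [hB', ← pow_mul, mul_comm]
        rw [h5, mul_pow, h6, div_eq_mul_one_div]
        exact mul_le_mul_of_nonneg_left h1 (by positivity)
      calc ((B : ℝ) ^ 2 / 2) ^ D ≤ ((2 - 1 / (2 * l)) ^ (2 * l)) ^ D :=
            pow_le_pow_left₀ (by positivity) h4 _
        _ = (2 - 1 / (2 * l)) ^ (2 * D * l) := by rw [← pow_mul]; congr 1; ring
    -- the right side
    have hDlam : (D : ℝ) ≤ m * (lam / B) := by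
      rw [mul_div_assoc', le_div_iff₀ hB0]
      calc (D : ℝ) * B ≤ m := hDB
        _ = m * 1 := (mul_one _).symm
        _ ≤ m * lam := mul_le_mul_of_nonneg_left hlam1 hm0.le
    have hsum := Pool.SDN.sum_choose_le' (m := m) (k := D) hD1 hDm.le (x := 1 - q)
      (y := m * (lam / B)) (by linarith) (mul_le_mul_of_nonneg_left hq2 hm0.le) hDlam
    have hbase : exp 1 * (m * (lam / B)) / D ≤ exp 1 * B / 8 := by
      have h1 : m * (lam / B) / D ≤ B / 8 := by
        have h2 : (m : ℝ) = μ * n := by rw [hμ]; field_simp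
        have h3 : m * (lam / B) / D ≤ 2 * K * μ * l ^ 2 := by
          rw [div_le_iff₀ hD0, mul_div_assoc', div_le_iff₀ hB0, h2]
          calc μ * n * lam ≤ μ * (2 * (D * (K * l * B))) * l := by
                refine mul_le_mul (mul_le_mul_of_nonneg_left hnD' hμ0.le) hlam2 (by linarith)
                  (by positivity)
            _ = 2 * K * μ * l ^ 2 * D * B := by ring
        have h4 : (4 * K : ℝ) ^ 2 * μ * l ^ 2 ≤ B := by rw [hB']; exact hl3
        have h5 : 2 * K * μ * l ^ 2 * 8 ≤ (4 * K : ℝ) ^ 2 * μ * l ^ 2 := by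
          have h6 : (K : ℝ) ≤ K * K := le_mul_of_one_le_left hK0.le hK'
          have h7 : 0 ≤ μ * (l : ℝ) ^ 2 := by positivity
          nlinarith
        linarith
      calc exp 1 * (m * (lam / B)) / D = exp 1 * (m * (lam / B) / D) := by ring
        _ ≤ exp 1 * (B / 8) := mul_le_mul_of_nonneg_left h1 (exp_pos 1).le
        _ = exp 1 * B / 8 := by ring
    set Sg : ℝ := ∑ j ∈ Finset.range (D + 1), (Nat.choose (m - D - 1 + j) j : ℝ) * (1 - q) ^ j
      with hSg
    have hSg0 : 0 ≤ Sg := Finset.sum_nonneg fun j _ =>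
      mul_nonneg (by positivity) (pow_nonneg (by linarith) _)
    have hSg1 : Sg ≤ (exp 1 * B / 8) ^ D := hsum.trans (pow_le_pow_left₀ (by positivity) hbase _)
    have h1 : ((B : ℝ) ^ 2 / 2) ^ D ≤ r * ((exp 1 * B / 8) ^ D) ^ 2 :=
      hleft.trans (hmain.trans (mul_le_mul_of_nonneg_left (pow_le_pow_left₀ hSg0 hSg1 2)
        (by linarith)))
    have h2 : ((exp 1 * B / 8) ^ D) ^ 2 = ((exp 1) ^ 2 / 32) ^ D * ((B : ℝ) ^ 2 / 2) ^ D := by
      rw [← mul_pow, ← pow_mul, mul_comm D 2, pow_mul]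
      congr 1
      ring
    rw [h2, ← mul_assoc] at h1
    have h3 : 0 < ((B : ℝ) ^ 2 / 2) ^ D := by positivity
    have h4 : 1 ≤ r * ((exp 1) ^ 2 / 32) ^ D := by
      have h5 : 1 * ((B : ℝ) ^ 2 / 2) ^ D ≤ r * ((exp 1) ^ 2 / 32) ^ D * ((B : ℝ) ^ 2 / 2) ^ D := by
        rw [one_mul]
        exact h1
      exact le_of_mul_le_mul_right h5 h3
    have h5 : (exp 1) ^ 2 / 32 ≤ exp (-1) := by
      have h6 : exp 1 < 2.7182818286 := exp_one_lt_d9
      have h7 : 0 < exp 1 := exp_pos 1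
      rw [exp_neg, le_inv_comm₀ (by positivity) h7]
      rw [inv_div, le_div_iff₀ (by positivity)]
      have h8 : exp 1 * exp 1 ^ 2 ≤ 2.7182818286 * 2.7182818286 ^ 2 :=
        mul_le_mul h6.le (pow_le_pow_left₀ h7.le h6.le 2) (by positivity) (by norm_num)
      calc exp 1 * exp 1 ^ 2 ≤ 2.7182818286 * 2.7182818286 ^ 2 := h8
        _ ≤ 32 := by norm_num
    have h6 : exp D ≤ r := by
      have h7 : ((exp 1) ^ 2 / 32) ^ D ≤ exp (-1) ^ D := pow_le_pow_left₀ (by positivity) h5 _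
      have h8 : 1 ≤ r * exp (-1) ^ D := h4.trans (mul_le_mul_of_nonneg_left h7 (by linarith))
      have h9 : exp (-1) ^ D = (exp D)⁻¹ := by
        rw [← exp_nat_mul, ← exp_neg]
        congr 1
        ring
      rw [h9, ← div_eq_mul_inv, le_div_iff₀ (exp_pos _), one_mul] at h8
      exact h8
    have h7 : (n : ℝ) / (2 * K * (C * (μ * (1 + log μ) ^ 3))) ≤ D := by
      rw [div_le_iff₀ (by positivity)]
      have h8 : (l : ℝ) * B ≤ C * (μ * (1 + log μ) ^ 3) := by rw [hB']; exact hl4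
      calc (n : ℝ) ≤ 2 * (D * (K * l * B)) := hnD'
        _ = D * (2 * K) * (l * B) := by ring
        _ ≤ D * (2 * K) * (C * (μ * (1 + log μ) ^ 3)) :=
            mul_le_mul_of_nonneg_left h8 (by positivity)
        _ = D * (2 * K * (C * (μ * (1 + log μ) ^ 3))) := by ring
    calc exp (n / (2 * K * (C * (μ * (1 + log μ) ^ 3)))) ≤ exp D := exp_le_exp.2 h7
      _ ≤ r := h6
      _ ≤ 2 * r := by linarith
  · push Not at hcase
    have h1 : (n : ℝ) ≤ K * l * B := by exact_mod_cast hcase.le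
    have h2 : (l : ℝ) * B ≤ C * (μ * (1 + log μ) ^ 3) := by rw [hB']; exact hl4
    have h3 : (n : ℝ) ≤ K * (C * (μ * (1 + log μ) ^ 3)) := by
      calc (n : ℝ) ≤ K * l * B := h1
        _ = K * (l * B) := by ring
        _ ≤ _ := mul_le_mul_of_nonneg_left h2 hK0.le
    have h4 : (n : ℝ) / (2 * K * (C * (μ * (1 + log μ) ^ 3))) ≤ log 2 := by
      rw [div_le_iff₀ (by positivity)]
      have h5 := log_two_gt_d9
      have h6 : 0 ≤ K * (C * (μ * (1 + log μ) ^ 3)) := by positivity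
      nlinarith
    calc exp (n / (2 * K * (C * (μ * (1 + log μ) ^ 3)))) ≤ exp (log 2) := exp_le_exp.2 h4
      _ = 2 := exp_log (by norm_num)
      _ ≤ 2 * r := by linarith

/-- **HN**: the form for the Hamiltonicity gadget. -/
theorem HN : ∃ c : ℝ, 0 < c ∧ ∀ n m r : ℕ, 1 ≤ n → n ≤ m → 1 ≤ r →
    (∀ D l B : ℕ, 1 ≤ D → 1 ≤ l → 1 ≤ B → D < m →
      3 * (2 * D * l * (B + 2 + 3 * 2 ^ l) + 2 * D * 2 ^ l + 2 * D) ≤ n →
      ∀ q : ℝ, 0 < q → q < 1 → (2 - q ^ B) ^ (2 * D * l) ≤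
        r * (∑ j ∈ Finset.range (D + 1), ((m - D - 1 + j).choose j : ℝ) * (1 - q) ^ j) ^ 2) →
    exp (c * n ^ 2 / (m * (1 + log (m / n)) ^ 3)) ≤ 2 * r := by
  refine ⟨cstH 39, cstH_pos (by norm_num), fun n m r hn hnm hr H => ?_⟩
  refine numericsH (K := 39) (by norm_num) hn hnm hr fun D l hD hl hDm hK q hq0 hq1 => ?_
  refine H D l (2 ^ l) hD hl (Nat.one_le_two_pow) hDm ?_ q hq0 hq1
  have h1 : 2 ≤ 2 ^ l := by
    calc 2 = 2 ^ 1 := by norm_num
      _ ≤ 2 ^ l := Nat.pow_le_pow_right (by norm_num) hl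
  have h2 : 2 * D * l * (2 ^ l + 2 + 3 * 2 ^ l) ≤ 2 * D * l * (5 * 2 ^ l) :=
    Nat.mul_le_mul_left _ (by omega)
  have h3 : 2 * D * 2 ^ l ≤ 2 * D * l * 2 ^ l :=
    Nat.mul_le_mul_right _ (Nat.le_mul_of_pos_right _ hl)
  have h4 : 2 * D ≤ D * l * 2 ^ l := by
    calc 2 * D = D * 1 * 2 := by ring
      _ ≤ D * l * 2 ^ l := Nat.mul_le_mul (Nat.mul_le_mul_left _ hl) h1
  calc 3 * (2 * D * l * (2 ^ l + 2 + 3 * 2 ^ l) + 2 * D * 2 ^ l + 2 * D)
      ≤ 3 * (2 * D * l * (5 * 2 ^ l) + 2 * D * l * 2 ^ l + D * l * 2 ^ l) :=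
        Nat.mul_le_mul_left _ (Nat.add_le_add (Nat.add_le_add h2 h3) h4)
    _ = 39 * D * l * 2 ^ l := by ring
    _ ≤ n := hK

/-- The constant. -/
noncomputable def cstH2 (K : ℕ) : ℝ := 1 / (4 * K * (2 * exp 10 * (8 * K) ^ 4))

theorem cstH2_pos {K : ℕ} (hK : 1 ≤ K) : 0 < cstH2 K := by
  have : (1 : ℝ) ≤ K := by exact_mod_cast hK
  have h2 := exp_pos 10
  unfold cstH2
  positivity

/-- **The numerical part**, for smaller gadgets. -/
theorem numericsH2 {K n m r : ℕ} (hK : 1 ≤ K) (hn : 1 ≤ n) (hnm : n ≤ m) (hr : 1 ≤ r)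
    (H : ∀ D l B : ℕ, 1 ≤ D → 1 ≤ l → 1 ≤ B → D < m → K * (D * (l * B + 2 ^ l)) ≤ n →
      ∀ q : ℝ, 0 < q → q < 1 → (2 - q ^ B) ^ (2 * D * l) ≤
        r * (∑ j ∈ Finset.range (D + 1), ((m - D - 1 + j).choose j : ℝ) * (1 - q) ^ j) ^ 2) :
    exp (cstH2 K * n ^ 2 / (m * (1 + log (m / n)) ^ 2)) ≤ 2 * r := by
  have hK' : (1 : ℝ) ≤ K := by exact_mod_cast hK
  have hK0 : (0 : ℝ) < K := by linarith
  have hn' : (1 : ℝ) ≤ n := by exact_mod_cast hn
  have hn0 : (0 : ℝ) < n := by linarith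
  have hnm' : (n : ℝ) ≤ m := by exact_mod_cast hnm
  have hm0 : (0 : ℝ) < m := by linarith
  have hr' : (1 : ℝ) ≤ r := by exact_mod_cast hr
  set μ : ℝ := m / n with hμ
  have hμ1 : 1 ≤ μ := by rw [hμ, le_div_iff₀ hn0]; linarith
  have hμ0 : 0 < μ := by linarith
  have hL1 : 1 ≤ 1 + log μ := by
    have := log_nonneg hμ1
    linarith
  have hL0 : 0 < 1 + log μ := by linarith
  obtain ⟨l, hl2, hl3, -, hl4⟩ := choose_l (a := 8 * K) (by linarith) hμ1
  set C : ℝ := 2 * exp 10 * (8 * K) ^ 4 with hC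
  have h100 := exp_pos 10
  have hC0 : 0 < C := by positivity
  have hexp : cstH2 K * n ^ 2 / (m * (1 + log μ) ^ 2) =
      n / (4 * K * (C * (μ * (1 + log μ) ^ 2))) := by
    unfold cstH2
    rw [← hC, hμ]
    field_simp
  rw [hexp]
  obtain ⟨G, hG⟩ : ∃ G : ℕ, G = 2 ^ l := ⟨_, rfl⟩
  have hG' : (G : ℝ) = 2 ^ l := by rw [hG]; push_cast; rfl
  have hG0 : (0 : ℝ) < G := by rw [hG']; positivity
  have hl2' : (2 : ℝ) ≤ l := by exact_mod_cast hl2
  have hl0 : (0 : ℝ) < l := by linarith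
  have hlG : l ≤ G := by rw [hG]; exact Nat.lt_two_pow_self.le
  obtain ⟨B, hB⟩ : ∃ B : ℕ, B = G / l := ⟨_, rfl⟩
  have hB1 : 1 ≤ B := by
    rw [hB, Nat.one_le_div_iff (by omega)]
    exact hlG
  have hB1' : (1 : ℝ) ≤ B := by exact_mod_cast hB1
  have hB0 : (0 : ℝ) < B := by linarith
  have hlB : l * B ≤ G := by rw [hB]; exact Nat.mul_div_le G l
  have hGB : G ≤ 2 * (l * B) := by
    have h1 : G < (B + 1) * l := by
      rw [hB]
      exact (Nat.div_lt_iff_lt_mul (by omega)).1 (by omega)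
    have h2 : (B + 1) * l ≤ 2 * B * l := Nat.mul_le_mul_right _ (by omega)
    calc G ≤ 2 * B * l := h1.le.trans h2
      _ = _ := by ring
  have hGB' : (G : ℝ) ≤ 2 * (l * B) := by exact_mod_cast hGB
  have hBG : B ≤ G := (Nat.le_mul_of_pos_left B (by omega)).trans hlB
  have hBG' : (B : ℝ) ≤ G := by exact_mod_cast hBG
  have hpos : 0 < 2 * K * G := by
    have : 0 < G := by exact_mod_cast hG0
    positivity
  by_cases hcase : 2 * K * G ≤ n
  · obtain ⟨D, hDdef⟩ : ∃ D, D = n / (2 * K * G) := ⟨_, rfl⟩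
    have hD1 : 1 ≤ D := by
      rw [hDdef, Nat.one_le_div_iff hpos]
      exact hcase
    have hDn0 : D * (2 * K * G) ≤ n := by rw [hDdef]; exact Nat.div_mul_le_self _ _
    have hDn : K * (D * (l * B + 2 ^ l)) ≤ n := by
      calc K * (D * (l * B + 2 ^ l)) ≤ K * (D * (G + G)) := by
            refine Nat.mul_le_mul_left _ (Nat.mul_le_mul_left _ ?_)
            rw [← hG]
            omega
        _ = D * (2 * K * G) := by ring
        _ ≤ n := hDn0
    have hnD : n ≤ 4 * K * (D * G) := by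
      have h1 : n < (D + 1) * (2 * K * G) := by
        rw [hDdef]
        exact (Nat.div_lt_iff_lt_mul hpos).1 (by omega)
      have h2 : (D + 1) * (2 * K * G) ≤ 2 * D * (2 * K * G) := Nat.mul_le_mul_right _ (by omega)
      calc n ≤ 2 * D * (2 * K * G) := h1.le.trans h2
        _ = _ := by ring
    have hDn' : (D : ℝ) * (2 * K * G) ≤ n := by exact_mod_cast hDn0
    have hnD' : (n : ℝ) ≤ 4 * K * (D * G) := by exact_mod_cast hnD
    have hD1' : (1 : ℝ) ≤ D := by exact_mod_cast hD1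
    have hD0 : (0 : ℝ) < D := by linarith
    have hDG : (D : ℝ) * G ≤ m := by
      have h1 : (D : ℝ) * G * 1 ≤ D * G * (2 * K) :=
        mul_le_mul_of_nonneg_left (by linarith) (by positivity)
      calc (D : ℝ) * G = D * G * 1 := by ring
        _ ≤ D * G * (2 * K) := h1
        _ = D * (2 * K * G) := by ring
        _ ≤ m := hDn'.trans hnm'
    have hG4 : (4 : ℝ) ≤ G := by
      rw [hG']
      calc (4 : ℝ) = 2 ^ 2 := by norm_num
        _ ≤ 2 ^ l := pow_le_pow_right₀ (by norm_num) hl2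
    have hDm : D < m := by
      have h1 : (D : ℝ) * 4 ≤ m := (mul_le_mul_of_nonneg_left hG4 hD0.le).trans hDG
      have h2 : (D : ℝ) < m := by linarith
      exact_mod_cast h2
    -- the choice of q
    set lam : ℝ := log (2 * l) with hlam
    have hlam1 : 1 ≤ lam := by
      have h1 : log 4 ≤ lam := log_le_log (by norm_num) (by linarith)
      have h2 : log 4 = 2 * log 2 := by
        rw [show (4 : ℝ) = 2 ^ 2 by norm_num, log_pow]
        push_cast
        ring
      have h3 := log_two_gt_d9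
      linarith
    have hlam2 : lam ≤ l := by
      have h1 : log (2 * l / 2) ≤ 2 * l / 2 - 1 := log_le_sub_one_of_pos (by positivity)
      have h2 : log (2 * l / 2 : ℝ) = lam - log 2 := by
        rw [log_div (by positivity) (by norm_num)]
      have h3 := log_two_lt_d9
      rw [h2] at h1
      linarith
    set q : ℝ := exp (-(lam / B)) with hq
    have hq0 : 0 < q := exp_pos _
    have hq1 : q < 1 := by
      rw [hq, exp_lt_one_iff]
      have : 0 < lam / B := by positivity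
      linarith
    have hqB : q ^ B = 1 / (2 * l) := by
      rw [hq, ← exp_nat_mul]
      have h1 : (B : ℝ) * -(lam / B) = -lam := by field_simp
      rw [h1, exp_neg, hlam, exp_log (by positivity), one_div]
    have hq2 : 1 - q ≤ lam / B := by
      have := add_one_le_exp (-(lam / B))
      linarith
    have hmain := H D l B hD1 (by omega) hB1 hDm hDn q hq0 hq1
    rw [hqB] at hmain
    -- the left side
    have hleft : ((G : ℝ) ^ 2 / 2) ^ D ≤ (2 - 1 / (2 * l)) ^ (2 * D * l) := by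
      have h1 : (1 : ℝ) / 2 ≤ (1 - 1 / (4 * l)) ^ (2 * l) := by
        have h2 := one_add_mul_le_pow (a := -(1 / (4 * l : ℝ))) (by
          have : (1 : ℝ) / (4 * l) ≤ 1 / 4 := by
            apply one_div_le_one_div_of_le (by norm_num)
            linarith
          linarith) (2 * l)
        have h3 : 1 + ((2 * l : ℕ) : ℝ) * -(1 / (4 * l)) = 1 / 2 := by
          push_cast
          field_simp
          norm_num
        rw [h3] at h2
        calc (1 : ℝ) / 2 ≤ (1 + -(1 / (4 * l : ℝ))) ^ (2 * l) := h2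
          _ = (1 - 1 / (4 * l)) ^ (2 * l) := by rw [← sub_eq_add_neg]
      have h4 : (G : ℝ) ^ 2 / 2 ≤ (2 - 1 / (2 * l)) ^ (2 * l) := by
        have h5 : (2 - 1 / (2 * l) : ℝ) = 2 * (1 - 1 / (4 * l)) := by
          field_simp
          ring
        have h6 : (G : ℝ) ^ 2 = 2 ^ (2 * l) := by
          rw [hG', ← pow_mul, mul_comm]
        rw [h5, mul_pow, h6, div_eq_mul_one_div]
        exact mul_le_mul_of_nonneg_left h1 (by positivity)
      calc ((G : ℝ) ^ 2 / 2) ^ D ≤ ((2 - 1 / (2 * l)) ^ (2 * l)) ^ D :=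
            pow_le_pow_left₀ (by positivity) h4 _
        _ = (2 - 1 / (2 * l)) ^ (2 * D * l) := by rw [← pow_mul]; congr 1; ring
    -- the right side
    have hDlam : (D : ℝ) ≤ m * (lam / B) := by
      rw [mul_div_assoc', le_div_iff₀ hB0]
      calc (D : ℝ) * B ≤ D * G := mul_le_mul_of_nonneg_left hBG' hD0.le
        _ ≤ m := hDG
        _ = m * 1 := (mul_one _).symm
        _ ≤ m * lam := mul_le_mul_of_nonneg_left hlam1 hm0.le
    have hsum := Pool.SDN.sum_choose_le' (m := m) (k := D) hD1 hDm.le (x := 1 - q)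
      (y := m * (lam / B)) (by linarith) (mul_le_mul_of_nonneg_left hq2 hm0.le) hDlam
    have hbase : exp 1 * (m * (lam / B)) / D ≤ exp 1 * G / 8 := by
      have h1 : m * (lam / B) / D ≤ G / 8 := by
        have h2 : (m : ℝ) = μ * n := by rw [hμ]; field_simp
        have h3 : m * (lam / B) / D ≤ 8 * K * μ * l ^ 2 := by
          rw [div_le_iff₀ hD0, mul_div_assoc', div_le_iff₀ hB0, h2]
          have h4 : (n : ℝ) ≤ 4 * K * (D * (2 * (l * B))) :=
            hnD'.trans (mul_le_mul_of_nonneg_left (mul_le_mul_of_nonneg_left hGB' hD0.le)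
              (by positivity))
          calc μ * n * lam ≤ μ * (4 * K * (D * (2 * (l * B)))) * l := by
                refine mul_le_mul (mul_le_mul_of_nonneg_left h4 hμ0.le) hlam2 (by linarith)
                  (by positivity)
            _ = 8 * K * μ * l ^ 2 * D * B := by ring
        have h4 : (8 * K : ℝ) ^ 2 * μ * l ^ 2 ≤ G := by rw [hG']; exact hl3
        have h5 : 8 * K * μ * l ^ 2 * 8 ≤ (8 * K : ℝ) ^ 2 * μ * l ^ 2 := by
          have h6 : (K : ℝ) ≤ K * K := le_mul_of_one_le_left hK0.le hK'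
          have h7 : 0 ≤ μ * (l : ℝ) ^ 2 := by positivity
          nlinarith
        linarith
      calc exp 1 * (m * (lam / B)) / D = exp 1 * (m * (lam / B) / D) := by ring
        _ ≤ exp 1 * (G / 8) := mul_le_mul_of_nonneg_left h1 (exp_pos 1).le
        _ = exp 1 * G / 8 := by ring
    set Sg : ℝ := ∑ j ∈ Finset.range (D + 1), (Nat.choose (m - D - 1 + j) j : ℝ) * (1 - q) ^ j
      with hSg
    have hSg0 : 0 ≤ Sg := Finset.sum_nonneg fun j _ =>
      mul_nonneg (by positivity) (pow_nonneg (by linarith) _)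
    have hSg1 : Sg ≤ (exp 1 * G / 8) ^ D := hsum.trans (pow_le_pow_left₀ (by positivity) hbase _)
    have h1 : ((G : ℝ) ^ 2 / 2) ^ D ≤ r * ((exp 1 * G / 8) ^ D) ^ 2 :=
      hleft.trans (hmain.trans (mul_le_mul_of_nonneg_left (pow_le_pow_left₀ hSg0 hSg1 2)
        (by linarith)))
    have h2 : ((exp 1 * G / 8) ^ D) ^ 2 = ((exp 1) ^ 2 / 32) ^ D * ((G : ℝ) ^ 2 / 2) ^ D := by
      rw [← mul_pow, ← pow_mul, mul_comm D 2, pow_mul]
      congr 1
      ring
    rw [h2, ← mul_assoc] at h1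
    have h3 : 0 < ((G : ℝ) ^ 2 / 2) ^ D := by positivity
    have h4 : 1 ≤ r * ((exp 1) ^ 2 / 32) ^ D := by
      have h5 : 1 * ((G : ℝ) ^ 2 / 2) ^ D ≤ r * ((exp 1) ^ 2 / 32) ^ D * ((G : ℝ) ^ 2 / 2) ^ D := by
        rw [one_mul]
        exact h1
      exact le_of_mul_le_mul_right h5 h3
    have h5 : (exp 1) ^ 2 / 32 ≤ exp (-1) := by
      have h6 : exp 1 < 2.7182818286 := exp_one_lt_d9
      have h7 : 0 < exp 1 := exp_pos 1
      rw [exp_neg, le_inv_comm₀ (by positivity) h7]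
      rw [inv_div, le_div_iff₀ (by positivity)]
      have h8 : exp 1 * exp 1 ^ 2 ≤ 2.7182818286 * 2.7182818286 ^ 2 :=
        mul_le_mul h6.le (pow_le_pow_left₀ h7.le h6.le 2) (by positivity) (by norm_num)
      calc exp 1 * exp 1 ^ 2 ≤ 2.7182818286 * 2.7182818286 ^ 2 := h8
        _ ≤ 32 := by norm_num
    have h6 : exp D ≤ r := by
      have h7 : ((exp 1) ^ 2 / 32) ^ D ≤ exp (-1) ^ D := pow_le_pow_left₀ (by positivity) h5 _
      have h8 : 1 ≤ r * exp (-1) ^ D := h4.trans (mul_le_mul_of_nonneg_left h7 (by linarith))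
      have h9 : exp (-1) ^ D = (exp D)⁻¹ := by
        rw [← exp_nat_mul, ← exp_neg]
        congr 1
        ring
      rw [h9, ← div_eq_mul_inv, le_div_iff₀ (exp_pos _), one_mul] at h8
      exact h8
    have h7 : (n : ℝ) / (4 * K * (C * (μ * (1 + log μ) ^ 2))) ≤ D := by
      rw [div_le_iff₀ (by positivity)]
      have h8 : (G : ℝ) ≤ C * (μ * (1 + log μ) ^ 2) := by rw [hG']; exact hl4
      calc (n : ℝ) ≤ 4 * K * (D * G) := hnD'
        _ = D * (4 * K) * G := by ring
        _ ≤ D * (4 * K) * (C * (μ * (1 + log μ) ^ 2)) :=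
            mul_le_mul_of_nonneg_left h8 (by positivity)
        _ = D * (4 * K * (C * (μ * (1 + log μ) ^ 2))) := by ring
    calc exp (n / (4 * K * (C * (μ * (1 + log μ) ^ 2)))) ≤ exp D := exp_le_exp.2 h7
      _ ≤ r := h6
      _ ≤ 2 * r := by linarith
  · push Not at hcase
    have h1 : (n : ℝ) ≤ 2 * K * G := by exact_mod_cast hcase.le
    have h2 : (G : ℝ) ≤ C * (μ * (1 + log μ) ^ 2) := by rw [hG']; exact hl4
    have h3 : (n : ℝ) ≤ 2 * K * (C * (μ * (1 + log μ) ^ 2)) :=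
      h1.trans (mul_le_mul_of_nonneg_left h2 (by positivity))
    have h4 : (n : ℝ) / (4 * K * (C * (μ * (1 + log μ) ^ 2))) ≤ log 2 := by
      rw [div_le_iff₀ (by positivity)]
      have h5 := log_two_gt_d9
      have h6 : 0 ≤ K * (C * (μ * (1 + log μ) ^ 2)) := by positivity
      nlinarith
    calc exp (n / (4 * K * (C * (μ * (1 + log μ) ^ 2)))) ≤ exp (log 2) := exp_le_exp.2 h4
      _ = 2 := exp_log (by norm_num)
      _ ≤ 2 * r := by linarith

/-- The form with an unspecified constant. -/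
theorem HN2 (K : ℕ) (hK : 1 ≤ K) : ∃ c : ℝ, 0 < c ∧ ∀ n m r : ℕ, 1 ≤ n → n ≤ m → 1 ≤ r →
    (∀ D l B : ℕ, 1 ≤ D → 1 ≤ l → 1 ≤ B → D < m → K * (D * (l * B + 2 ^ l)) ≤ n →
      ∀ q : ℝ, 0 < q → q < 1 → (2 - q ^ B) ^ (2 * D * l) ≤
        r * (∑ j ∈ Finset.range (D + 1), ((m - D - 1 + j).choose j : ℝ) * (1 - q) ^ j) ^ 2) →
    exp (c * n ^ 2 / (m * (1 + log (m / n)) ^ 2)) ≤ 2 * r :=
  ⟨cstH2 K, cstH2_pos hK, fun _ _ _ hn hnm hr H => numericsH2 hK hn hnm hr H⟩

end Pool.HNN
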