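import Pool.Agent.Helper91.HN.Num10
import Pool.Agent.Helper10.GT.RandReal

/-!
# Adaptive algorithms, gadgets with Reed-Solomon codes: the numbers in the form of the final theorem
-/

set_option autoImplicit false

namespace Pool.ADN

open Real

/-- Numbers for adaptive algorithms, third version, with a factor `2 ^ (A e s)` for tests which are
functions of Pfaffians. `V` is the number of variables up to a constant, `K0` is the constant of the
gadget, `R` the number of repetitions (pool `R N`, at most `R h` positive answers on a path),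
`lam = A e` bounds the degree of the relevant monomial per block. -/
theorem numADP3F (K0 A R : ℕ) (hK : 1 ≤ K0) (hA : 1 ≤ A) (hR : 1 ≤ R) : ∃ C : ℕ, 1 ≤ C ∧
    ∀ (n N h e m T V : ℕ) (μ : ℝ), 1 ≤ n → n ≤ V → 1 ≤ N → 1 ≤ h → 1 ≤ e → 1 ≤ T → 1 ≤ μ →
    (N * m : ℝ) ≤ μ * V →
    exp (n / (N * (C * h * e * μ) ^ (C * e))) ≤ 3 * N * T ∨
    ∃ (D p t l b s : ℕ), 1 ≤ D ∧ p.Prime ∧ 1 ≤ t ∧ 1 ≤ l ∧ l ≤ p ∧ 1 ≤ b ∧
      K0 * ((8 * (R * N)) * D * (p ^ t + l * p * b)) ≤ n ∧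
      8 * (R * h) * (t - 1) ≤ l ∧ 16 * (R * h) * s ≤ D ∧ A * e * s ≤ n ∧
      ∀ B : ℕ, 1 ≤ B → b * V ≤ K0 * B * n → ∃ (τ T0 : ℕ) (q : ℝ), 1 ≤ τ ∧
      (T0 : ℝ) ≤ τ * (1 / (8 * (R * h)) * (l * B) - ((t - 1 : ℕ) : ℝ) * B) ∧ 0 < q ∧ q < 1 ∧
      (((p ^ t : ℕ) : ℝ)) ^ s * q ^ T0 ≤ 1 / 2 ∧
      ∀ cf : ℝ, 1 / 2 ≤ cf →
        q ^ (0 + A * e * s * (1 - 1)) * (cf * ((p ^ t : ℕ) : ℝ) ^ s) ≤
          2 * Pool.GT.RP (T * 2 ^ (A * e * s)) m 1 (A * e * s) q *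
            ((((R * N) * (2 * D).choose s * ((A * e * s + 1) * (2 ^ s * (p ^ t) ^ τ))) : ℕ) : ℝ) →
        exp (n / (N * (C * h * e * μ) ^ (C * e))) ≤ 3 * N * T := by
  obtain ⟨C₀, hC₀, HH⟩ := numAD3F K0 8 16 8 hK (by norm_num) (by norm_num) (by norm_num)
  obtain ⟨C, hC⟩ : ∃ C : ℕ, C = 4 * C₀ * A * R ^ 2 := ⟨_, rfl⟩
  have hCpos : 1 ≤ C := by
    rw [hC]
    have : 0 < 4 * C₀ * A * R ^ 2 := by positivity
    omega
  refine ⟨C, hCpos, ?_⟩
  intro n N h e m T V μ hn hnV hN hh he hT hμ hm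
  have hA' : (1 : ℝ) ≤ A := by exact_mod_cast hA
  have hR' : (1 : ℝ) ≤ R := by exact_mod_cast hR
  have hR0' : (0 : ℝ) < R := by linarith
  have hn' : (1 : ℝ) ≤ n := by exact_mod_cast hn
  have hn0 : (0 : ℝ) < n := by linarith
  have hnV' : (n : ℝ) ≤ V := by exact_mod_cast hnV
  have hV0 : (0 : ℝ) < V := by linarith
  have hN' : (1 : ℝ) ≤ N := by exact_mod_cast hN
  have hN0 : (0 : ℝ) < N := by linarith
  have hh' : (1 : ℝ) ≤ h := by exact_mod_cast hh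
  have hh0 : (0 : ℝ) < h := by linarith
  have he' : (1 : ℝ) ≤ e := by exact_mod_cast he
  have hT' : (1 : ℝ) ≤ T := by exact_mod_cast hT
  have hT0 : (0 : ℝ) < T := by linarith
  have hC₀' : (1 : ℝ) ≤ C₀ := by exact_mod_cast hC₀
  have hμ0 : 0 < μ := by linarith
  have hRh : 1 ≤ R * h := Nat.one_le_iff_ne_zero.2 (by positivity)
  have hRN : 1 ≤ R * N := Nat.one_le_iff_ne_zero.2 (by positivity)
  have hAe : 1 ≤ A * e := Nat.one_le_iff_ne_zero.2 (by positivity)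
  obtain ⟨c, hc⟩ : ∃ c : ℕ, c = ⌈μ⌉₊ := ⟨_, rfl⟩
  have hc1 : μ ≤ c := by rw [hc]; exact Nat.le_ceil _
  have hc2 : (c : ℝ) ≤ 2 * μ := by
    have : (c : ℝ) < μ + 1 := by rw [hc]; exact Nat.ceil_lt_add_one hμ0.le
    linarith
  have hcpos : 1 ≤ c := by
    have : (1 : ℝ) ≤ c := hμ.trans hc1
    exact_mod_cast this
  have hRc : 1 ≤ R * c := Nat.one_le_iff_ne_zero.2 (by positivity)
  have hmd : R * N * m ≤ R * c * V := by
    have h1 : ((R * N * m : ℕ) : ℝ) ≤ ((R * c * V : ℕ) : ℝ) := by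
      push_cast
      calc (R : ℝ) * N * m = R * (N * m) := by ring
        _ ≤ R * (μ * V) := mul_le_mul_of_nonneg_left hm hR0'.le
        _ ≤ R * (c * V) := by
            refine mul_le_mul_of_nonneg_left ?_ hR0'.le
            exact mul_le_mul_of_nonneg_right hc1 hV0.le
        _ = (R : ℝ) * c * V := by ring
    exact_mod_cast h1
  -- comparison of the two bounds
  obtain ⟨b₀, hb₀⟩ : ∃ b₀ : ℝ, b₀ = (C : ℝ) * h * e * μ := ⟨_, rfl⟩
  obtain ⟨G, hG⟩ : ∃ G : ℝ, G = ((C₀ * (R * h) * (A * e) * (R * c) : ℕ) : ℝ) := ⟨_, rfl⟩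
  have hhe : 1 ≤ (h : ℝ) * e := one_le_mul_of_one_le_of_one_le hh' he'
  have hheμ : 1 ≤ (h : ℝ) * e * μ := one_le_mul_of_one_le_of_one_le hhe hμ
  have hCr : (C : ℝ) = 4 * C₀ * A * R ^ 2 := by rw [hC]; push_cast; ring
  have hRb : 4 * (R : ℝ) ^ 2 ≤ b₀ := by
    have h1 : (1 : ℝ) ≤ C₀ * A * (h * e * μ) :=
      one_le_mul_of_one_le_of_one_le (one_le_mul_of_one_le_of_one_le hC₀' hA') hheμ
    rw [hb₀, hCr]
    calc 4 * (R : ℝ) ^ 2 = (4 * (R : ℝ) ^ 2) * 1 := (mul_one _).symm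
      _ ≤ (4 * (R : ℝ) ^ 2) * (C₀ * A * (h * e * μ)) :=
          mul_le_mul_of_nonneg_left h1 (by positivity)
      _ = _ := by ring
  have hb1 : 1 ≤ b₀ := by
    have h1 : 1 ≤ (R : ℝ) ^ 2 := one_le_pow₀ hR'
    linarith
  have hb0 : 0 < b₀ := by linarith
  have hGb : G ≤ b₀ := by
    rw [hG, hb₀, hCr]
    push_cast
    calc (C₀ : ℝ) * (R * h) * (A * e) * (R * c)
        = c * (C₀ * A * R ^ 2 * h * e) := by ring
      _ ≤ (2 * μ) * (C₀ * A * R ^ 2 * h * e) :=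
          mul_le_mul_of_nonneg_right hc2 (by positivity)
      _ ≤ (4 * μ) * (C₀ * A * R ^ 2 * h * e) := by
          refine mul_le_mul_of_nonneg_right ?_ (by positivity)
          linarith
      _ = _ := by ring
  have hG0 : 0 ≤ G := by rw [hG]; positivity
  have hGpos : 0 < G := by
    rw [hG]
    have : 0 < C₀ * (R * h) * (A * e) * (R * c) := by positivity
    exact_mod_cast this
  have hexp : C₀ * (A * e) + 1 ≤ C * e := by
    have h1 : C * e = (4 * R ^ 2) * (C₀ * (A * e)) := by rw [hC]; ring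
    have h2 : 1 ≤ C₀ * (A * e) := Nat.one_le_iff_ne_zero.2 (by positivity)
    have h3 : 2 ≤ 4 * R ^ 2 := by
      have : 1 ≤ R ^ 2 := Nat.one_le_pow _ _ hR
      omega
    calc C₀ * (A * e) + 1 ≤ 2 * (C₀ * (A * e)) := by omega
      _ ≤ (4 * R ^ 2) * (C₀ * (A * e)) := Nat.mul_le_mul_right _ h3
      _ = C * e := h1.symm
  obtain ⟨X, hX⟩ : ∃ X : ℝ, X = (n : ℝ) / (((R * N : ℕ) : ℝ) * G ^ (C₀ * (A * e))) := ⟨_, rfl⟩
  have hX0 : 0 ≤ X := by rw [hX]; positivity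
  have hcomp : (n : ℝ) / (N * b₀ ^ (C * e)) ≤ X / (4 * R) := by
    rw [hX, div_div]
    refine div_le_div_of_nonneg_left hn0.le (by positivity) ?_
    have h1 : (4 * (R : ℝ) ^ 2) * G ^ (C₀ * (A * e)) ≤ b₀ ^ (C * e) := by
      calc (4 * (R : ℝ) ^ 2) * G ^ (C₀ * (A * e))
          ≤ b₀ * b₀ ^ (C₀ * (A * e)) :=
            mul_le_mul hRb (pow_le_pow_left₀ hG0 hGb _) (by positivity) hb0.le
        _ = b₀ ^ (C₀ * (A * e) + 1) := by rw [pow_succ']
        _ ≤ b₀ ^ (C * e) := pow_le_pow_right₀ hb1 hexp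
    push_cast
    calc (R : ℝ) * N * G ^ (C₀ * (A * e)) * (4 * R)
        = N * ((4 * (R : ℝ) ^ 2) * G ^ (C₀ * (A * e))) := by ring
      _ ≤ N * b₀ ^ (C * e) := mul_le_mul_of_nonneg_left h1 hN0.le
  have hNT : 0 < (N : ℝ) * T := by positivity
  have hNT1 : 1 ≤ (N : ℝ) * T := one_le_mul_of_one_le_of_one_le hN' hT'
  have hexp1 : exp (1 / 2) ≤ 3 := by
    have h4 : exp (1 / 2) ≤ exp 1 := exp_le_exp.2 (by norm_num)
    have h5 := exp_one_lt_d9
    linarith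
  rw [← hb₀]
  rcases HH n m (R * h) (R * N) (A * e) (R * c) V hn hnV hRh hRN hAe hRc hmd with
    h1 | ⟨p, t, s, b, hp, ht, hs, hb, hlp, hΛsn, hbud, h1⟩
  · left
    rw [← hG, ← hX] at h1
    have h2 : (n : ℝ) / (N * b₀ ^ (C * e)) ≤ 1 / 2 := by
      refine hcomp.trans (le_trans ?_ h1)
      exact div_le_self hX0 (by linarith)
    calc exp ((n : ℝ) / (N * b₀ ^ (C * e))) ≤ exp (1 / 2) := exp_le_exp.2 h2
      _ ≤ 3 := hexp1
      _ ≤ 3 * N * T := by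
          rw [mul_assoc]
          linarith
  · right
    obtain ⟨l, hl⟩ : ∃ l : ℕ, l = 2 * 8 * (R * h) * t := ⟨_, rfl⟩
    rw [← hl] at hlp hbud
    obtain ⟨D, hD⟩ : ∃ D : ℕ, D = 16 * (R * h) * s := ⟨_, rfl⟩
    rw [← hD] at hbud
    have hRht : 1 ≤ R * h * t := Nat.one_le_iff_ne_zero.2 (by positivity)
    have hRhs : 1 ≤ R * h * s := Nat.one_le_iff_ne_zero.2 (by positivity)
    have hl1 : 1 ≤ l := by
      rw [hl]
      calc 1 ≤ R * h * t := hRht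
        _ ≤ 16 * (R * h * t) := Nat.le_mul_of_pos_left _ (by norm_num)
        _ = _ := by ring
    have hD1 : 1 ≤ D := by
      rw [hD]
      calc 1 ≤ R * h * s := hRhs
        _ ≤ 16 * (R * h * s) := Nat.le_mul_of_pos_left _ (by norm_num)
        _ = _ := by ring
    refine ⟨D, p, t, l, b, s, hD1, hp, ht, hl1, hlp, hb, hbud, ?_, le_of_eq hD.symm, hΛsn, ?_⟩
    · rw [hl]
      calc 8 * (R * h) * (t - 1) ≤ 8 * (R * h) * t := Nat.mul_le_mul_left _ (Nat.sub_le _ _)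
        _ ≤ 2 * (8 * (R * h) * t) := Nat.le_mul_of_pos_left _ (by norm_num)
        _ = _ := by ring
    · intro B hB hbB
      obtain ⟨τ, T0, q, hτ1, hτs, h3, h4, h5, h6, h7⟩ := h1 B hB hbB
      refine ⟨τ, T0, q, hτ1, ?_, h4, h5, h6, ?_⟩
      · refine h3.trans (le_of_eq ?_)
        congr 1
        rw [hl, Nat.cast_sub ht]
        push_cast
        field_simp
        ring
      · intro cf hcf hmain
        obtain ⟨S, hS⟩ : ∃ S : ℝ, S = ∑ j ∈ Finset.range (2 * (A * e * s) + 1),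
          (2 * ((m + A * e * s + 1 : ℕ) : ℝ) * (1 - q)) ^ j / (j.factorial : ℝ) := ⟨_, rfl⟩
        have h1q : 0 ≤ 1 - q := by linarith
        have hS0 : 0 ≤ S := by
          rw [hS]
          exact Finset.sum_nonneg fun j _ => by positivity
        have hRP : Pool.GT.RP (T * 2 ^ (A * e * s)) m 1 (A * e * s) q =
            (T : ℝ) * 2 ^ (A * e * s) * S := by
          unfold Pool.GT.RP
          rw [hS]
          push_cast
          simp only [one_mul]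
        have h8 := h7 cf (T : ℝ) S (by linarith) hT' hS0 (le_of_eq hS) (by
          rw [hRP] at hmain
          have h9 : q ^ (0 + A * e * s * (1 - 1)) * (cf * ((p ^ t : ℕ) : ℝ) ^ s) =
              cf * ((p ^ t : ℕ) : ℝ) ^ s := by
            simp
          rw [h9] at hmain
          refine hmain.trans (le_of_eq ?_)
          rw [hD]
          push_cast
          ring)
        rw [← hG, ← hX] at h8
        have h10 : log (((R * N : ℕ) : ℝ) * T) = log R + log (N * T) := by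
          rw [← log_mul hR0'.ne' hNT.ne']
          congr 1
          push_cast
          ring
        have h11 : log (R : ℝ) ≤ R := by
          have := log_le_sub_one_of_pos (x := (R : ℝ)) (by positivity)
          linarith
        have h12 : 0 ≤ log ((N : ℝ) * T) := log_nonneg hNT1
        have h13 : X / (4 * R) ≤ 1 / 2 + log (N * T) := by
          rw [div_le_iff₀ (by positivity)]
          have h14 : log ((N : ℝ) * T) ≤ log (N * T) * (4 * R) :=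
            le_mul_of_one_le_right h12 (by linarith)
          rw [h10] at h8
          linarith
        have h15 : exp ((n : ℝ) / (N * b₀ ^ (C * e))) ≤ exp (1 / 2 + log (N * T)) :=
          exp_le_exp.2 (hcomp.trans h13)
        rw [exp_add, exp_log hNT] at h15
        calc exp ((n : ℝ) / (N * b₀ ^ (C * e))) ≤ exp (1 / 2) * (N * T) := h15
          _ ≤ 3 * (N * T) := mul_le_mul_of_nonneg_right hexp1 hNT.le
          _ = 3 * N * T := by ring

/-- Numbers for adaptive algorithms, third version -/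
theorem numADP3 (K0 A R : ℕ) (hK : 1 ≤ K0) (hA : 1 ≤ A) (hR : 1 ≤ R) : ∃ C : ℕ, 1 ≤ C ∧
    ∀ (n N h e m T V : ℕ) (μ : ℝ), 1 ≤ n → n ≤ V → 1 ≤ N → 1 ≤ h → 1 ≤ e → 1 ≤ T → 1 ≤ μ →
    (N * m : ℝ) ≤ μ * V →
    exp (n / (N * (C * h * e * μ) ^ (C * e))) ≤ 3 * N * T ∨
    ∃ (D p t l b s : ℕ), 1 ≤ D ∧ p.Prime ∧ 1 ≤ t ∧ 1 ≤ l ∧ l ≤ p ∧ 1 ≤ b ∧
      K0 * ((8 * (R * N)) * D * (p ^ t + l * p * b)) ≤ n ∧
      8 * (R * h) * (t - 1) ≤ l ∧ 16 * (R * h) * s ≤ D ∧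
      ∀ B : ℕ, 1 ≤ B → b * V ≤ K0 * B * n → ∃ (τ T0 : ℕ) (q : ℝ), 1 ≤ τ ∧
      (T0 : ℝ) ≤ τ * (1 / (8 * (R * h)) * (l * B) - ((t - 1 : ℕ) : ℝ) * B) ∧ 0 < q ∧ q < 1 ∧
      (((p ^ t : ℕ) : ℝ)) ^ s * q ^ T0 ≤ 1 / 2 ∧
      ∀ cf : ℝ, 1 / 2 ≤ cf →
        q ^ (0 + A * e * s * (1 - 1)) * (cf * ((p ^ t : ℕ) : ℝ) ^ s) ≤
          2 * Pool.GT.RP T m 1 (A * e * s) q *
            ((((R * N) * (2 * D).choose s * ((A * e * s + 1) * (2 ^ s * (p ^ t) ^ τ))) : ℕ) : ℝ) →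
        exp (n / (N * (C * h * e * μ) ^ (C * e))) ≤ 3 * N * T := by
  obtain ⟨C, hC, H⟩ := numADP3F K0 A R hK hA hR
  refine ⟨C, hC, ?_⟩
  intro n N h e m T V μ hn hnV hN hh he hT hμ hm
  rcases H n N h e m T V μ hn hnV hN hh he hT hμ hm with
    h1 | ⟨D, p, t, l, b, s, hD, hp, ht, hl, hlp, hb, hbud, h2, h3, _, h4⟩
  · exact Or.inl h1
  refine Or.inr ⟨D, p, t, l, b, s, hD, hp, ht, hl, hlp, hb, hbud, h2, h3, ?_⟩
  intro B hB hbB
  obtain ⟨τ, T0, q, h5, h6, h7, h8, h9, h10⟩ := h4 B hB hbB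
  refine ⟨τ, T0, q, h5, h6, h7, h8, h9, ?_⟩
  intro cf hcf hmain
  refine h10 cf hcf (hmain.trans ?_)
  have h1q : 0 ≤ 1 - q := by linarith
  refine mul_le_mul_of_nonneg_right ?_ (Nat.cast_nonneg _)
  refine mul_le_mul_of_nonneg_left ?_ (by norm_num)
  unfold Pool.GT.RP
  refine mul_le_mul_of_nonneg_right ?_ (Finset.sum_nonneg fun j _ => by positivity)
  have h11 : T ≤ T * 2 ^ (A * e * s) := Nat.le_mul_of_pos_right _ (by positivity)
  exact_mod_cast h11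

end Pool.ADN
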