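import Pool.Agent.Helper91.HN.Num8
import Pool.Agent.Helper10.GT.RandReal

/-!
# Adaptive algorithms: the numbers in the form of the final statements
-/

set_option autoImplicit false

namespace Pool.ADN

open Real

/-- Numbers for adaptive algorithms. `V` is the number of variables up to a constant (`n ^ k` for
`k`-SAT, `n ^ 2` for graphs), `K` is the constant of the gadget, `R` the number of repetitions (pool
`R N`, at most `R h` positive answers), the exponents are at most `A (R h) e D`. -/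
theorem numADP (K A R : ℕ) (hK : 1 ≤ K) (hA : 1 ≤ A) (hR : 1 ≤ R) : ∃ C : ℕ, 1 ≤ C ∧
    ∀ (n N h e m T V : ℕ) (μ : ℝ), 1 ≤ n → n ≤ V → 1 ≤ N → 1 ≤ h → 1 ≤ e → 1 ≤ T → 1 ≤ μ →
    (N * m : ℝ) ≤ μ * V →
    exp (n / (N * (C * h * e * μ) ^ (C * h * e))) ≤ 3 * N * T ∨
    ∃ (D l b : ℕ), 1 ≤ D ∧ 1 ≤ l ∧ 1 ≤ b ∧ K * ((8 * (R * N)) * D * (2 ^ l + l * b)) ≤ n ∧
      ∀ B : ℕ, 1 ≤ B → b * V ≤ K * B * n → ∃ (τ T0 : ℕ) (q : ℝ),
      (T0 : ℝ) + 1 / 8 * (2 * D * l * B) ≤ τ * B ∧ 0 < q ∧ q < 1 ∧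
      (2 : ℝ) ^ (2 * D * l) * q ^ T0 ≤ 1 / 2 ∧
      ∀ cf : ℝ, 1 / 2 ≤ cf →
        q ^ (R * h * 0 + A * (R * h) * e * D * (1 - 1)) * (cf * 2 ^ (2 * D * l)) ≤
          2 * (((R * N + 1) ^ (R * h) : ℕ) *
            Pool.GT.RP (T ^ (R * h)) (R * h * m) 1 (A * (R * h) * e * D) q) *
            (((A * (R * h) * e * D : ℕ) + 1) *
              ∑ j ∈ Finset.range τ, ((2 * D * l).choose j : ℝ)) →
        exp (n / (N * (C * h * e * μ) ^ (C * h * e))) ≤ 3 * N * T := by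
  obtain ⟨C₀, hC₀, H⟩ := numAD K hK
  obtain ⟨C, hC⟩ : ∃ C : ℕ, C = 8 * C₀ * K ^ 2 * A * R ^ 3 := ⟨_, rfl⟩
  have hCpos : 1 ≤ C := by
    rw [hC]
    have : 0 < 8 * C₀ * K ^ 2 * A * R ^ 3 := by positivity
    omega
  refine ⟨C, hCpos, ?_⟩
  intro n N h e m T V μ hn hnV hN hh he hT hμ hm
  have hK' : (1 : ℝ) ≤ K := by exact_mod_cast hK
  have hK0 : (0 : ℝ) < K := by linarith
  have hA' : (1 : ℝ) ≤ A := by exact_mod_cast hA
  have hR' : (1 : ℝ) ≤ R := by exact_mod_cast hR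
  have hR0' : (0 : ℝ) < R := by linarith
  have hn' : (1 : ℝ) ≤ n := by exact_mod_cast hn
  have hn0 : (0 : ℝ) < n := by linarith
  have hnV' : (n : ℝ) ≤ V := by exact_mod_cast hnV
  have hV0 : (0 : ℝ) < V := by linarith
  have hN' : (1 : ℝ) ≤ N := by exact_mod_cast hN
  have hN0 : (0 : ℝ) < N := by linarith
  have hh' : (1 : ℝ) ≤ h := by exact_mod_cast hh
  have he' : (1 : ℝ) ≤ e := by exact_mod_cast he
  have hT' : (1 : ℝ) ≤ T := by exact_mod_cast hT
  have hT0 : (0 : ℝ) < T := by linarith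
  have hC₀' : (1 : ℝ) ≤ C₀ := by exact_mod_cast hC₀
  have hμ0 : 0 < μ := by linarith
  have hRpos : 0 < R := by omega
  have hRh : 1 ≤ R * h := Nat.one_le_iff_ne_zero.2 (by positivity)
  have hRN : 1 ≤ R * N := Nat.one_le_iff_ne_zero.2 (by positivity)
  obtain ⟨c, hc⟩ : ∃ c : ℕ, c = ⌈μ⌉₊ := ⟨_, rfl⟩
  have hc1 : μ ≤ c := by rw [hc]; exact Nat.le_ceil _
  have hc2 : (c : ℝ) ≤ 2 * μ := by
    have : (c : ℝ) < μ + 1 := by rw [hc]; exact Nat.ceil_lt_add_one hμ0.le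
    linarith
  have hcpos : 1 ≤ c := by
    have : (1 : ℝ) ≤ c := hμ.trans hc1
    exact_mod_cast this
  have hcK : 1 ≤ R * c * K := Nat.one_le_iff_ne_zero.2 (by positivity)
  have hR0pos : (0 : ℝ) < (V : ℝ) / (K * n) := by positivity
  have hΛ : R * h ≤ A * (R * h) * e := by
    calc R * h = 1 * (R * h) * 1 := by ring
      _ ≤ A * (R * h) * e := Nat.mul_le_mul (Nat.mul_le_mul_right _ hA) he
  have hmd : (((R * N : ℕ) : ℝ) * m * ((1 : ℕ) : ℝ)) ≤
      ((R * c * K : ℕ) : ℝ) * n * ((V : ℝ) / (K * n)) := by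
    rw [Nat.cast_one, mul_one]
    push_cast
    calc (R : ℝ) * N * m = R * (N * m) := by ring
      _ ≤ R * (μ * V) := mul_le_mul_of_nonneg_left hm hR0'.le
      _ ≤ R * (c * V) := by
          refine mul_le_mul_of_nonneg_left ?_ hR0'.le
          exact mul_le_mul_of_nonneg_right hc1 hV0.le
      _ = (R : ℝ) * c * K * n * ((V : ℝ) / (K * n)) := by
          field_simp
  have hde : (((1 : ℕ) : ℝ)) ≤ (K : ℝ) * ((V : ℝ) / (K * n)) := by
    rw [Nat.cast_one]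
    have h1 : (K : ℝ) * ((V : ℝ) / (K * n)) = V / n := by field_simp
    rw [h1, le_div_iff₀ hn0]
    linarith
  have hν : (C₀ : ℝ) * ((0 : ℕ) : ℝ) * ((R * h : ℕ) : ℝ) * ((R * N : ℕ) : ℝ) ≤
      n * ((V : ℝ) / (K * n)) := by
    have : 0 ≤ (n : ℝ) * ((V : ℝ) / (K * n)) := by positivity
    simpa using this
  -- comparison of the two bounds
  obtain ⟨b₀, hb₀⟩ : ∃ b₀ : ℝ, b₀ = (C : ℝ) * h * e * μ := ⟨_, rfl⟩
  obtain ⟨G, hG⟩ : ∃ G : ℝ, G = ((C₀ * (R * c * K) * (A * (R * h) * e) : ℕ) : ℝ) := ⟨_, rfl⟩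
  have hhe : 1 ≤ (h : ℝ) * e := one_le_mul_of_one_le_of_one_le hh' he'
  have hheμ : 1 ≤ (h : ℝ) * e * μ := one_le_mul_of_one_le_of_one_le hhe hμ
  have hCr : (C : ℝ) = 8 * C₀ * K ^ 2 * A * R ^ 3 := by rw [hC]; push_cast; ring
  have hKC : 4 * (R : ℝ) ^ 2 * K ≤ C := by
    rw [hCr]
    have h1 : (1 : ℝ) ≤ C₀ * K * A * R :=
      one_le_mul_of_one_le_of_one_le (one_le_mul_of_one_le_of_one_le
        (one_le_mul_of_one_le_of_one_le hC₀' hK') hA') hR'
    calc 4 * (R : ℝ) ^ 2 * K = (4 * (R : ℝ) ^ 2 * K) * 1 := (mul_one _).symm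
      _ ≤ (4 * (R : ℝ) ^ 2 * K) * (2 * (C₀ * K * A * R)) :=
          mul_le_mul_of_nonneg_left (by linarith) (by positivity)
      _ = _ := by ring
  have hKb : 4 * (R : ℝ) ^ 2 * K ≤ b₀ := by
    rw [hb₀]
    calc 4 * (R : ℝ) ^ 2 * K ≤ C := hKC
      _ ≤ C * (h * e * μ) := le_mul_of_one_le_right (by positivity) hheμ
      _ = _ := by ring
  have hb1 : 1 ≤ b₀ := by
    have h1 : 1 ≤ (R : ℝ) ^ 2 := one_le_pow₀ hR'
    have h2 : 1 ≤ (R : ℝ) ^ 2 * K := one_le_mul_of_one_le_of_one_le h1 hK'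
    linarith
  have hb0 : 0 < b₀ := by linarith
  have hGb : G ≤ b₀ := by
    rw [hG, hb₀, hCr]
    push_cast
    calc (C₀ : ℝ) * (R * c * K) * (A * (R * h) * e)
        = c * (C₀ * K * A * R ^ 2 * h * e) := by ring
      _ ≤ (2 * μ) * (C₀ * K * A * R ^ 2 * h * e) :=
          mul_le_mul_of_nonneg_right hc2 (by positivity)
      _ = (C₀ * K * A * R ^ 2 * h * e * μ) * 2 := by ring
      _ ≤ (C₀ * K * A * R ^ 2 * h * e * μ) * (8 * (K * R)) := by
          refine mul_le_mul_of_nonneg_left ?_ (by positivity)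
          have : (1 : ℝ) ≤ K * R := one_le_mul_of_one_le_of_one_le hK' hR'
          linarith
      _ = _ := by ring
  have hG0 : 0 ≤ G := by rw [hG]; positivity
  have hGpos : 0 < G := by
    rw [hG]
    have : 0 < C₀ * (R * c * K) * (A * (R * h) * e) := by positivity
    exact_mod_cast this
  have hexp : C₀ * (A * (R * h) * e) + 1 ≤ C * h * e := by
    have h1 : C * h * e = (8 * K ^ 2 * R ^ 2) * (C₀ * (A * (R * h) * e)) := by rw [hC]; ring
    have h2 : 1 ≤ C₀ * (A * (R * h) * e) := Nat.one_le_iff_ne_zero.2 (by positivity)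
    have h3 : 2 ≤ 8 * K ^ 2 * R ^ 2 := by
      have : 1 ≤ K ^ 2 * R ^ 2 := Nat.one_le_iff_ne_zero.2 (by positivity)
      calc 2 ≤ 8 * 1 := by norm_num
        _ ≤ 8 * (K ^ 2 * R ^ 2) := Nat.mul_le_mul_left _ this
        _ = 8 * K ^ 2 * R ^ 2 := by ring
    calc C₀ * (A * (R * h) * e) + 1 ≤ 2 * (C₀ * (A * (R * h) * e)) := by omega
      _ ≤ (8 * K ^ 2 * R ^ 2) * (C₀ * (A * (R * h) * e)) := Nat.mul_le_mul_right _ h3
      _ = C * h * e := h1.symm
  obtain ⟨X, hX⟩ : ∃ X : ℝ, X = (n : ℝ) / (((R * N : ℕ) : ℝ) *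
    (K * G ^ (C₀ * (A * (R * h) * e)))) := ⟨_, rfl⟩
  have hX0 : 0 ≤ X := by rw [hX]; positivity
  have hcomp : (n : ℝ) / (N * b₀ ^ (C * h * e)) ≤ X / (4 * R) := by
    rw [hX, div_div]
    refine div_le_div_of_nonneg_left hn0.le (by positivity) ?_
    have h1 : (4 * (R : ℝ) ^ 2 * K) * G ^ (C₀ * (A * (R * h) * e)) ≤ b₀ ^ (C * h * e) := by
      calc (4 * (R : ℝ) ^ 2 * K) * G ^ (C₀ * (A * (R * h) * e))
          ≤ b₀ * b₀ ^ (C₀ * (A * (R * h) * e)) :=
            mul_le_mul hKb (pow_le_pow_left₀ hG0 hGb _) (by positivity) hb0.le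
        _ = b₀ ^ (C₀ * (A * (R * h) * e) + 1) := by rw [pow_succ']
        _ ≤ b₀ ^ (C * h * e) := pow_le_pow_right₀ hb1 hexp
    push_cast
    calc (R : ℝ) * N * (K * G ^ (C₀ * (A * (R * h) * e))) * (4 * R)
        = N * ((4 * (R : ℝ) ^ 2 * K) * G ^ (C₀ * (A * (R * h) * e))) := by ring
      _ ≤ N * b₀ ^ (C * h * e) := mul_le_mul_of_nonneg_left h1 hN0.le
  have hNT : 0 < (N : ℝ) * T := by positivity
  have hNT1 : 1 ≤ (N : ℝ) * T := one_le_mul_of_one_le_of_one_le hN' hT'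
  have hexp1 : exp (1 / 2) ≤ 3 := by
    have h4 : exp (1 / 2) ≤ exp 1 := exp_le_exp.2 (by norm_num)
    have h5 := exp_one_lt_d9
    linarith
  rw [← hb₀]
  rcases H n K m 1 0 (R * h) (R * N) (A * (R * h) * e) (R * c * K) ((V : ℝ) / (K * n)) hn hR0pos hK
    le_rfl hRh hRN hΛ hcK hmd hde hν with h1 | ⟨D, l, b, hD, hl, hb, hbud, h1⟩
  · left
    rw [← hG, ← hX] at h1
    have h2 : (n : ℝ) / (N * b₀ ^ (C * h * e)) ≤ 1 / 2 := by
      refine hcomp.trans (le_trans ?_ h1)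
      exact div_le_self hX0 (by linarith)
    calc exp ((n : ℝ) / (N * b₀ ^ (C * h * e))) ≤ exp (1 / 2) := exp_le_exp.2 h2
      _ ≤ 3 := hexp1
      _ ≤ 3 * N * T := by
          rw [mul_assoc]
          linarith
  · right
    refine ⟨D, l, b, hD, hl, hb, ?_, ?_⟩
    · calc K * (8 * (R * N) * D * (2 ^ l + l * b)) = K * (8 * (R * N) * D * (l * b + 2 ^ l)) := by
            ring
        _ ≤ n := hbud
    · intro B hB hbB
      have hbB' : (V : ℝ) / (K * n) * b ≤ B := by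
        rw [div_mul_eq_mul_div, div_le_iff₀ (by positivity)]
        have h2 : (b : ℝ) * V ≤ K * B * n := by exact_mod_cast hbB
        linarith
      obtain ⟨τ, T0, q, h2, h3, h4, h5, h6⟩ := h1 B hB hbB'
      refine ⟨τ, T0, q, h2, h3, h4, h5, ?_⟩
      intro cf hcf hmain
      have hL1 : 1 ≤ A * (R * h) * e * D := Nat.one_le_iff_ne_zero.2 (by positivity)
      obtain ⟨S, hS⟩ : ∃ S : ℝ, S = ∑ j ∈ Finset.range (2 * (A * (R * h) * e * D) + 1),
        (2 * ((R * h * m + A * (R * h) * e * D + 1 : ℕ) : ℝ) * (((1 : ℕ) : ℝ) * (1 - q))) ^ j /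
          (j.factorial : ℝ) := ⟨_, rfl⟩
      have h1q : 0 ≤ 1 - q := by linarith
      have hS0 : 0 ≤ S := by
        rw [hS]
        exact Finset.sum_nonneg fun j _ => by positivity
      have hSle := RP_form (h := R * h) (m := m) (L := A * (R * h) * e * D) (d := 1) hL1 h4
      rw [← hS] at hSle
      have hRP : Pool.GT.RP (T ^ (R * h)) (R * h * m) 1 (A * (R * h) * e * D) q =
          (T : ℝ) ^ (R * h) * S := by
        unfold Pool.GT.RP
        rw [hS]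
        push_cast
        rfl
      have hρ1 : (1 : ℝ) ≤ (((R * N + 1) ^ (R * h) : ℕ) : ℝ) * (T : ℝ) ^ (R * h) := by
        refine one_le_mul_of_one_le_of_one_le ?_ (one_le_pow₀ hT')
        have : 1 ≤ (R * N + 1) ^ (R * h) := Nat.one_le_pow _ _ (by omega)
        exact_mod_cast this
      have h7 := h6 cf ((((R * N + 1) ^ (R * h) : ℕ) : ℝ) * (T : ℝ) ^ (R * h)) S hcf hρ1 hS0 hSle (by
        rw [hRP, ← mul_assoc ((((R * N + 1) ^ (R * h) : ℕ) : ℝ))] at hmain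
        exact hmain)
      have hρ : (((R * N + 1) ^ (R * h) : ℕ) : ℝ) * (T : ℝ) ^ (R * h) =
          (((R : ℝ) * N + 1) * T) ^ (R * h) := by
        push_cast
        rw [← mul_pow]
      rw [← hG, ← hX, hρ, log_pow] at h7
      have h8 : (0 : ℝ) < ((R * h : ℕ) : ℝ) := by exact_mod_cast hRh
      have h9 := le_of_mul_le_mul_left h7 h8
      -- h9 : X ≤ log ((R N + 1) T)
      have h10 : log (((R : ℝ) * N + 1) * T) ≤ log (2 * R) + log (N * T) := by
        rw [← log_mul (by positivity) hNT.ne']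
        refine log_le_log (by positivity) ?_
        have h11 : (1 : ℝ) ≤ R * N := one_le_mul_of_one_le_of_one_le hR' hN'
        calc ((R : ℝ) * N + 1) * T ≤ (2 * (R * N)) * T :=
              mul_le_mul_of_nonneg_right (by linarith) hT0.le
          _ = 2 * R * (N * T) := by ring
      have h11 : log (2 * (R : ℝ)) ≤ 2 * R := by
        have := log_le_sub_one_of_pos (x := 2 * (R : ℝ)) (by positivity)
        linarith
      have h12 : 0 ≤ log ((N : ℝ) * T) := log_nonneg hNT1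
      have h13 : X / (4 * R) ≤ 1 / 2 + log (N * T) := by
        rw [div_le_iff₀ (by positivity)]
        have h14 : log ((N : ℝ) * T) ≤ log (N * T) * (4 * R) :=
          le_mul_of_one_le_right h12 (by linarith)
        linarith
      have h15 : exp ((n : ℝ) / (N * b₀ ^ (C * h * e))) ≤ exp (1 / 2 + log (N * T)) :=
        exp_le_exp.2 (hcomp.trans h13)
      rw [exp_add, exp_log hNT] at h15
      calc exp ((n : ℝ) / (N * b₀ ^ (C * h * e))) ≤ exp (1 / 2) * (N * T) := h15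
        _ ≤ 3 * (N * T) := mul_le_mul_of_nonneg_right hexp1 hNT.le
        _ = 3 * N * T := by ring

end Pool.ADN
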