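import Mathlib
import Pool.Agent.Helper91.HN.Num5
import Pool.Agent.Helper59.SAT.Num

/-!
# Random tests for k-SAT: the choice of the parameters
-/

set_option autoImplicit false

namespace Pool.RTN

open Real

/-- all pairs of assignments at distance greater than `ρ` violate many different clauses -/
def GoodDist (n k ρ T0 : ℕ) (β : ℝ) : Prop :=
  ∀ j, ρ < j → j ≤ n → (T0 : ℝ) + β * n.choose k ≤ ((n.choose k - (n - j).choose k - j : ℕ) : ℝ)

/-- `C(n - j, k) ≤ exp (- j k / n) C(n, k)` -/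
theorem choose_exp {n j k : ℕ} (hn : 1 ≤ n) (hj : j ≤ n) :
    ((n - j).choose k : ℝ) ≤ exp (-((j : ℝ) * k / n)) * n.choose k := by
  have hn' : (1 : ℝ) ≤ n := by exact_mod_cast hn
  have hn0 : (0 : ℝ) < n := by linarith
  have h1 : ((n - j).choose k : ℝ) * n ^ k ≤ n.choose k * (n - j) ^ k := by
    have h2 := Pool.SatDet.choose_sub_le n j k
    have h3 : (((n - j).choose k * n ^ k : ℕ) : ℝ) ≤ ((n.choose k * (n - j) ^ k : ℕ) : ℝ) := by
      exact_mod_cast h2
    push_cast [Nat.cast_sub hj] at h3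
    exact h3
  have hjn : (j : ℝ) ≤ n := by exact_mod_cast hj
  have h4 : ((n : ℝ) - j) ^ k ≤ (exp (-((j : ℝ) / n)) * n) ^ k := by
    refine pow_le_pow_left₀ (by linarith) ?_ k
    have h5 := add_one_le_exp (-((j : ℝ) / n))
    calc (n : ℝ) - j = (-((j : ℝ) / n) + 1) * n := by field_simp; ring
      _ ≤ exp (-((j : ℝ) / n)) * n := mul_le_mul_of_nonneg_right h5 hn0.le
  have h6 : exp (-((j : ℝ) / n)) ^ k = exp (-((j : ℝ) * k / n)) := by
    rw [← exp_nat_mul]
    congr 1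
    ring
  rw [mul_pow, h6] at h4
  have h7 : ((n - j).choose k : ℝ) * n ^ k ≤
      (exp (-((j : ℝ) * k / n)) * n.choose k) * n ^ k := by
    calc ((n - j).choose k : ℝ) * n ^ k ≤ n.choose k * (n - j) ^ k := h1
      _ ≤ n.choose k * (exp (-((j : ℝ) * k / n)) * n ^ k) :=
          mul_le_mul_of_nonneg_left h4 (by positivity)
      _ = _ := by ring
  exact le_of_mul_le_mul_right h7 (by positivity)

/-- the Pfaffian sum -/
theorem pfsum_le {m L d : ℕ} (hL : 1 ≤ L) {q y z : ℝ} (hq0 : 0 < q) (hq1 : q < 1)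
    (hy : 1 - q ^ d ≤ y) (hz : 0 < z) (hz1 : z ≤ 1) :
    ∑ j ∈ Finset.range (2 * L + 1), ((2 * m + 2 * L + 1 + j).choose j : ℝ) * (1 - q ^ d) ^ j ≤
      (1 / z) ^ (2 * L) * exp (z * ((2 * m + 5 * L) * y)) := by
  have hq : 0 ≤ 1 - q ^ d := by
    have := pow_le_one₀ (n := d) hq0.le hq1.le
    linarith
  have hy0 : 0 ≤ y := hq.trans hy
  have hL' : (1 : ℝ) ≤ L := by exact_mod_cast hL
  have h1 : ∀ j ∈ Finset.range (2 * L + 1),
      ((2 * m + 2 * L + 1 + j).choose j : ℝ) * (1 - q ^ d) ^ j ≤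
        ((2 * m + 5 * L) * y) ^ j / (j.factorial : ℝ) := by
    intro j hj
    have hj' : j ≤ 2 * L := by
      have := Finset.mem_range.1 hj
      omega
    have h2 : ((2 * m + 2 * L + 1 + j).choose j : ℝ) ≤
        ((2 * m + 2 * L + 1 + j : ℕ) : ℝ) ^ j / (j.factorial : ℝ) :=
      Nat.choose_le_pow_div j (2 * m + 2 * L + 1 + j)
    have h3 : ((2 * m + 2 * L + 1 + j : ℕ) : ℝ) ≤ 2 * m + 5 * L := by
      have h4 : 2 * m + 2 * L + 1 + j ≤ 2 * m + 5 * L := by omega
      exact_mod_cast h4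
    calc ((2 * m + 2 * L + 1 + j).choose j : ℝ) * (1 - q ^ d) ^ j
        ≤ (((2 * m + 2 * L + 1 + j : ℕ) : ℝ) ^ j / (j.factorial : ℝ)) * y ^ j :=
          mul_le_mul h2 (pow_le_pow_left₀ hq hy j) (by positivity) (by positivity)
      _ ≤ ((2 * m + 5 * L) ^ j / (j.factorial : ℝ)) * y ^ j := by
          refine mul_le_mul_of_nonneg_right ?_ (by positivity)
          refine div_le_div_of_nonneg_right ?_ (by positivity)
          exact pow_le_pow_left₀ (by positivity) h3 j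
      _ = ((2 * m + 5 * L) * y) ^ j / (j.factorial : ℝ) := by
          rw [mul_pow]
          ring
  exact (Finset.sum_le_sum h1).trans (Pool.GTN.sum_le (by positivity) hz hz1 (2 * L))

/-- the ball -/
theorem ball_le {M k ρ : ℕ} (hk : 1 ≤ k) :
    ∑ j ∈ Finset.range (ρ + 1), (M.choose j : ℝ) ≤ exp (ρ * log k + M / k) := by
  have hk' : (1 : ℝ) ≤ k := by exact_mod_cast hk
  have hk0 : (0 : ℝ) < k := by linarith
  have h1 : ∀ j ∈ Finset.range (ρ + 1), (M.choose j : ℝ) ≤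
      (k : ℝ) ^ ρ * ((M.choose j : ℝ) * (1 / (k : ℝ)) ^ j) := by
    intro j hj
    have hj' : j ≤ ρ := by
      have := Finset.mem_range.1 hj
      omega
    have h2 : (1 : ℝ) ≤ (k : ℝ) ^ ρ * (1 / (k : ℝ)) ^ j := by
      rw [one_div, inv_pow, ← div_eq_mul_inv, le_div_iff₀ (by positivity), one_mul]
      exact pow_le_pow_right₀ hk' hj'
    calc (M.choose j : ℝ) = M.choose j * 1 := (mul_one _).symm
      _ ≤ M.choose j * ((k : ℝ) ^ ρ * (1 / (k : ℝ)) ^ j) :=
          mul_le_mul_of_nonneg_left h2 (by positivity)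
      _ = _ := by ring
  have h3 : ∑ j ∈ Finset.range (ρ + 1), (M.choose j : ℝ) * (1 / (k : ℝ)) ^ j ≤
      (1 + 1 / (k : ℝ)) ^ M := by
    have h4 : (1 + 1 / (k : ℝ)) ^ M =
        ∑ j ∈ Finset.range (M + 1), (M.choose j : ℝ) * (1 / (k : ℝ)) ^ j := by
      rw [add_comm (1 : ℝ), add_pow]
      refine Finset.sum_congr rfl fun j _ => ?_
      rw [one_pow, mul_one, mul_comm]
    rw [h4]
    rcases le_total (ρ + 1) (M + 1) with h | h
    · exact Finset.sum_le_sum_of_subset_of_nonneg (Finset.range_mono h)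
        fun j _ _ => by positivity
    · refine le_of_eq (Finset.sum_subset (Finset.range_mono h) ?_).symm
      intro j _ hj
      have : M < j := by
        by_contra hcon
        exact hj (Finset.mem_range.2 (by omega))
      rw [Nat.choose_eq_zero_of_lt this]
      simp
  have h5 : (1 + 1 / (k : ℝ)) ^ M ≤ exp (M / k) := by
    calc (1 + 1 / (k : ℝ)) ^ M ≤ exp (1 / (k : ℝ)) ^ M := by
          refine pow_le_pow_left₀ (by positivity) ?_ M
          have := add_one_le_exp (1 / (k : ℝ))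
          linarith
      _ = exp (M / k) := by
          rw [← exp_nat_mul]
          congr 1
          ring
  have h6 : (k : ℝ) ^ ρ = exp (ρ * log k) := by
    rw [mul_comm, exp_mul, exp_log hk0, rpow_natCast]
  calc ∑ j ∈ Finset.range (ρ + 1), (M.choose j : ℝ)
      ≤ ∑ j ∈ Finset.range (ρ + 1), (k : ℝ) ^ ρ * ((M.choose j : ℝ) * (1 / (k : ℝ)) ^ j) :=
        Finset.sum_le_sum h1
    _ = (k : ℝ) ^ ρ * ∑ j ∈ Finset.range (ρ + 1), (M.choose j : ℝ) * (1 / (k : ℝ)) ^ j := by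
        rw [Finset.mul_sum]
    _ ≤ (k : ℝ) ^ ρ * exp (M / k) := mul_le_mul_of_nonneg_left (h3.trans h5) (by positivity)
    _ = exp (ρ * log k + M / k) := by rw [h6, ← exp_add]

theorem exp5 (a b c d e : ℝ) :
    exp (a + (b + c) + (d + e)) = exp a * (exp b * exp c) * (exp d * exp e) := by
  rw [exp_add, exp_add a, exp_add b, exp_add d]

/-- The main step. `η` is the gap, `R ^ 2 ≤ K`. -/
theorem step {η : ℝ} (hη0 : 0 < η) (hη1 : η ≤ 1 / 4) {K : ℕ} {R : ℝ} (hR : 1 ≤ R) (hRK : R ^ 2 ≤ K)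
    (hK1 : 8 / η + 5 ≤ K) {n k m δ ν : ℕ} {lam ε1 ε2 : ℝ}
    (hKk : K ≤ k) (hkn : K * k ≤ n) (hδ : 1 ≤ δ) (hnδ : n * δ ≤ n.choose k)
    (hν : K * ν ≤ n.choose k) (hlam : 1 ≤ lam) (hk2 : (k : ℝ) ≤ 2 ^ ((k : ℝ) / (K * lam)))
    (hm2 : (k : ℝ) * m * δ ≤ 2 ^ ((k : ℝ) / (K * lam)) * n.choose k)
    (h1 : 0 ≤ ε1) (_h2 : 0 ≤ ε2) (h12 : ε1 + ε2 ≤ 1 - 4 * η) :
    ∃ (D L ρ T0 : ℕ) (β ε3 q : ℝ), D * k ≤ n ∧ D < n.choose k ∧ 0 < β ∧ 0 < L ∧
      (L : ℝ) ≤ K * lam * n / k ∧ (D * lam : ℝ) ≤ ε3 * L ∧ GoodDist n k ρ T0 β ∧ 0 < q ∧ q < 1 ∧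
      (2 : ℝ) ^ (D * k) * q ^ T0 ≤ 1 / 2 ∧ ∀ r : ℕ, 1 ≤ r →
      q ^ (ν + L * (δ - 1)) * ((1 - (ε1 + ε2 / β + ε3)) * 2 ^ (D * k)) ≤
        2 * (r * ∑ j ∈ Finset.range (2 * L + 1),
          ((2 * m + 2 * L + 1 + j).choose j : ℝ) * (1 - q ^ δ) ^ j) *
          ((L + 1) * ∑ j ∈ Finset.range (ρ + 1), ((D * k).choose j : ℝ)) →
      n * log 2 - n * ((4 + 40 * (1 / η) + (16 / η) * (8 + 2 / η)) / R + 2 * log (4 / η) / R) ≤
        log r := by
  have hR0 : 0 < R := by linarith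
  have hηinv : 4 ≤ 1 / η := by
    rw [le_div_iff₀ hη0]
    linarith
  have h8η : 8 / η = 8 * (1 / η) := by ring
  have hK' : (37 : ℝ) ≤ K := by linarith
  have hK0 : (0 : ℝ) < K := by linarith
  have hKn : 37 ≤ K := by exact_mod_cast hK'
  have hKk' : (K : ℝ) ≤ k := by exact_mod_cast hKk
  have hk0 : (0 : ℝ) < k := by linarith
  have hkn' : (K : ℝ) * k ≤ n := by exact_mod_cast hkn
  have hn0 : (0 : ℝ) < n := lt_of_lt_of_le (by positivity) hkn'
  have hKn' : (K : ℝ) ≤ n :=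
    (le_mul_of_one_le_right hK0.le (by linarith)).trans hkn'
  have hnpos : 1 ≤ n := by
    have : (1 : ℝ) ≤ n := by linarith
    exact_mod_cast this
  have hkn2 : k + 3 ≤ n := by
    have h3 := (Nat.mul_le_mul_right k hKn).trans hkn
    omega
  have hδ' : (1 : ℝ) ≤ δ := by exact_mod_cast hδ
  have hδ0 : (0 : ℝ) < δ := by linarith
  have hlam0 : 0 < lam := by linarith
  obtain ⟨N, hN⟩ : ∃ N : ℝ, N = (n.choose k : ℝ) := ⟨_, rfl⟩
  have hnδ' : (n : ℝ) * δ ≤ N := by rw [hN]; exact_mod_cast hnδ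
  have hν' : (K : ℝ) * ν ≤ N := by rw [hN]; exact_mod_cast hν
  rw [← hN] at hm2
  have hNbig : (8 / η) * n ≤ N := by
    have h3 := Pool.SatDet.choose_big n k (by omega) hkn2
    have h4 : ((n * (n - 1) : ℕ) : ℝ) ≤ N := by rw [hN]; exact_mod_cast h3
    rw [Nat.cast_mul, Nat.cast_sub hnpos, Nat.cast_one] at h4
    have h5 : 8 / η ≤ n - 1 := by linarith
    calc 8 / η * n ≤ (n - 1) * n := mul_le_mul_of_nonneg_right h5 hn0.le
      _ = n * (n - 1) := by ring
      _ ≤ N := h4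
  have h8pos : 0 < 8 / η := by positivity
  have hN0 : 0 < N := lt_of_lt_of_le (by positivity) hNbig
  have hnN : (n : ℝ) ≤ η / 8 * N := by
    have h3 : η / 8 * (8 / η * n) ≤ η / 8 * N := mul_le_mul_of_nonneg_left hNbig (by positivity)
    have h4 : η / 8 * (8 / η * n) = n := by field_simp
    linarith
  -- the parameters
  obtain ⟨D, hD⟩ : ∃ D, D = n / k := ⟨_, rfl⟩
  have hkpos : 0 < k := by omega
  have hDk : D * k ≤ n := by rw [hD]; exact Nat.div_mul_le_self _ _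
  have hDk2 : n ≤ D * k + k := by
    have h3 : n < (D + 1) * k := (Nat.div_lt_iff_lt_mul hkpos).1 (by omega)
    calc n ≤ (D + 1) * k := h3.le
      _ = D * k + k := by ring
  have hDk' : (D : ℝ) * k ≤ n := by exact_mod_cast hDk
  have hDk2' : (n : ℝ) ≤ D * k + k := by exact_mod_cast hDk2
  have hD1 : 1 ≤ D := by
    rw [hD, Nat.one_le_div_iff hkpos]
    omega
  have hD1' : (1 : ℝ) ≤ D := by exact_mod_cast hD1
  have hD0 : (0 : ℝ) < D := by linarith
  have hDn : D ≤ n := by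
    calc D = D * 1 := (mul_one D).symm
      _ ≤ D * k := Nat.mul_le_mul_left D hkpos
      _ ≤ n := hDk
  have hDN : D < n.choose k := by
    have h3 : (D : ℝ) < N := by
      have h4 : (D : ℝ) ≤ n := by exact_mod_cast hDn
      have h5 : η / 8 * N < N := mul_lt_of_lt_one_left hN0 (by linarith)
      linarith
    rw [hN] at h3
    exact_mod_cast h3
  obtain ⟨L, hL⟩ : ∃ L : ℕ, L = ⌈(D : ℝ) * lam / η⌉₊ := ⟨_, rfl⟩
  have hDl : 1 ≤ (D : ℝ) * lam := one_le_mul_of_one_le_of_one_le hD1' hlam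
  have hDlη : 1 ≤ (D : ℝ) * lam / η := by
    rw [le_div_iff₀ hη0]
    linarith
  have hL1 : (D : ℝ) * lam / η ≤ L := by rw [hL]; exact Nat.le_ceil _
  have hL2 : (L : ℝ) ≤ 2 * (D * lam / η) := by
    have : (L : ℝ) < D * lam / η + 1 := by rw [hL]; exact Nat.ceil_lt_add_one (by positivity)
    linarith
  have hLpos : 0 < L := by
    have : (0 : ℝ) < L := by linarith
    exact_mod_cast this
  have hL0 : (0 : ℝ) < L := by exact_mod_cast hLpos
  have hLη : (D : ℝ) * lam ≤ η * L := by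
    rw [div_le_iff₀ hη0] at hL1
    linarith
  -- `K λ ≤ k`
  have hKlam : (K : ℝ) * lam ≤ k := by
    have h3 : (2 : ℝ) ^ (1 : ℝ) ≤ 2 ^ ((k : ℝ) / (K * lam)) := by
      refine le_trans ?_ hk2
      rw [rpow_one]
      linarith
    have h4 : (1 : ℝ) ≤ k / (K * lam) := (rpow_le_rpow_left_iff (by norm_num)).1 h3
    rwa [le_div_iff₀ (by positivity), one_mul] at h4
  have hDlamK : (D : ℝ) * lam * K ≤ n := by
    calc (D : ℝ) * lam * K = D * (K * lam) := by ring
      _ ≤ D * k := mul_le_mul_of_nonneg_left hKlam hD0.le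
      _ ≤ n := hDk'
  have hLn : (L : ℝ) ≤ 2 / η * (n / K) := by
    have h3 : (D : ℝ) * lam ≤ n / K := by
      rw [le_div_iff₀ hK0]
      exact hDlamK
    calc (L : ℝ) ≤ 2 * (D * lam / η) := hL2
      _ = 2 / η * (D * lam) := by ring
      _ ≤ 2 / η * (n / K) := mul_le_mul_of_nonneg_left h3 (by positivity)
  have hLδ : (L : ℝ) * δ ≤ 2 / η * (N / K) := by
    calc (L : ℝ) * δ ≤ (2 / η * (n / K)) * δ := mul_le_mul_of_nonneg_right hLn hδ0.le
      _ = 2 / η * ((n * δ) / K) := by ring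
      _ ≤ 2 / η * (N / K) := by
          refine mul_le_mul_of_nonneg_left ?_ (by positivity)
          exact div_le_div_of_nonneg_right hnδ' hK0.le
  obtain ⟨A, hA⟩ : ∃ A : ℝ, A = 16 / η := ⟨_, rfl⟩
  have hA0 : 0 < A := by rw [hA]; positivity
  obtain ⟨q, hq⟩ : ∃ q : ℝ, q = exp (-(A * n / N)) := ⟨_, rfl⟩
  have hq0 : 0 < q := by rw [hq]; exact exp_pos _
  have hq1 : q < 1 := by
    rw [hq, exp_lt_one_iff]
    have : 0 < A * n / N := by positivity
    linarith
  have hqpow : ∀ e : ℕ, q ^ e = exp (-(A * n / N * e)) := by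
    intro e
    rw [hq, ← exp_nat_mul]
    congr 1
    ring
  obtain ⟨T0, hT0⟩ : ∃ T0 : ℕ, T0 = ⌊η * N / 4⌋₊ := ⟨_, rfl⟩
  have hT01 : (T0 : ℝ) ≤ η * N / 4 := by rw [hT0]; exact Nat.floor_le (by positivity)
  have hT02 : η * N / 8 ≤ T0 := by
    have h3 : η * N / 4 < T0 + 1 := by rw [hT0]; exact Nat.lt_floor_add_one _
    have h4 : 1 ≤ η * N / 8 := by
      have h5 : (1 : ℝ) ≤ n := by exact_mod_cast hnpos
      linarith
    linarith
  obtain ⟨c, hc⟩ : ∃ c : ℝ, c = log (4 / η) := ⟨_, rfl⟩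
  have hc0 : 0 ≤ c := by
    rw [hc]
    refine log_nonneg ?_
    rw [le_div_iff₀ hη0]
    linarith
  obtain ⟨ρ, hρ⟩ : ∃ ρ : ℕ, ρ = ⌊n * c / k⌋₊ := ⟨_, rfl⟩
  have hρ1 : (ρ : ℝ) ≤ n * c / k := by rw [hρ]; exact Nat.floor_le (by positivity)
  have hgood : GoodDist n k ρ T0 (1 - η) := by
    intro j hj hjn
    rw [← hN]
    have h3 : n * c / k < j := by
      rw [hρ] at hj
      exact Nat.lt_of_floor_lt hj
    have h4 : ((n - j).choose k : ℝ) ≤ η / 4 * N := by
      have h5 := choose_exp (n := n) (j := j) (k := k) hnpos hjn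
      rw [← hN] at h5
      have h6 : exp (-((j : ℝ) * k / n)) ≤ η / 4 := by
        have h7 : c ≤ (j : ℝ) * k / n := by
          rw [le_div_iff₀ hn0]
          rw [div_lt_iff₀ hk0] at h3
          linarith
        calc exp (-((j : ℝ) * k / n)) ≤ exp (-c) := exp_le_exp.2 (by linarith)
          _ = η / 4 := by
              rw [exp_neg, hc, exp_log (by positivity), inv_div]
      exact h5.trans (mul_le_mul_of_nonneg_right h6 hN0.le)
    have h8 : N ≤ ((n.choose k - (n - j).choose k - j : ℕ) : ℝ) + (n - j).choose k + j := by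
      have h9 : n.choose k ≤ (n.choose k - (n - j).choose k - j) + (n - j).choose k + j := by
        omega
      rw [hN]
      exact_mod_cast h9
    have h10 : (j : ℝ) ≤ η / 8 * N := by
      have : (j : ℝ) ≤ n := by exact_mod_cast hjn
      linarith
    have h11 : 0 ≤ η * N := by positivity
    linarith
  have hexp1 : (2 : ℝ) ≤ exp 1 := by
    have := add_one_le_exp (1 : ℝ)
    linarith
  have hhalf : (2 : ℝ) ^ (D * k) * q ^ T0 ≤ 1 / 2 := by
    have h3 : (2 : ℝ) ^ (D * k) ≤ exp n := by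
      calc (2 : ℝ) ^ (D * k) ≤ 2 ^ n := pow_le_pow_right₀ (by norm_num) hDk
        _ ≤ exp 1 ^ n := pow_le_pow_left₀ (by norm_num) hexp1 n
        _ = exp n := by rw [← exp_nat_mul, mul_one]
    have h4 : q ^ T0 ≤ exp (-(2 * n)) := by
      rw [hqpow, exp_le_exp]
      have h5 : 2 * (n : ℝ) = A * n / N * (η * N / 8) := by
        rw [hA]
        field_simp
        norm_num
      have h6 : A * n / N * (η * N / 8) ≤ A * n / N * T0 :=
        mul_le_mul_of_nonneg_left hT02 (by positivity)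
      linarith
    calc (2 : ℝ) ^ (D * k) * q ^ T0 ≤ exp n * exp (-(2 * n)) :=
          mul_le_mul h3 h4 (by positivity) (exp_pos _).le
      _ = exp (-n) := by
          rw [← exp_add]
          congr 1
          ring
      _ ≤ exp (-1) := by
          refine exp_le_exp.2 ?_
          have : (1 : ℝ) ≤ n := by exact_mod_cast hnpos
          linarith
      _ ≤ 1 / 2 := by
          rw [exp_neg, ← one_div]
          exact one_div_le_one_div_of_le (by norm_num) hexp1
  have hLK : (L : ℝ) ≤ K * lam * n / k := by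
    have h3 : (D : ℝ) ≤ n / k := by
      rw [le_div_iff₀ hk0]
      exact hDk'
    have h4 : 2 / η ≤ K := by
      have : 2 / η = 2 * (1 / η) := by ring
      linarith
    calc (L : ℝ) ≤ 2 * (D * lam / η) := hL2
      _ = 2 / η * lam * D := by ring
      _ ≤ K * lam * (n / k) := by
          refine mul_le_mul ?_ h3 hD0.le (by positivity)
          exact mul_le_mul_of_nonneg_right h4 hlam0.le
      _ = K * lam * n / k := by ring
  refine ⟨D, L, ρ, T0, 1 - η, η, q, hDk, hDN, by linarith, hLpos, hLK, hLη, hgood, hq0, hq1, hhalf, ?_⟩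
  intro r hr hmain
  -- left side
  have hcoef : η ≤ 1 - (ε1 + ε2 / (1 - η) + η) := by
    have h3 : ε2 / (1 - η) ≤ ε2 + 2 * η := by
      rw [div_le_iff₀ (by linarith)]
      have h4 : 0 ≤ η * (2 - ε2 - 2 * η) := mul_nonneg hη0.le (by linarith)
      have h5 : (ε2 + 2 * η) * (1 - η) - ε2 = η * (2 - ε2 - 2 * η) := by ring
      linarith
    linarith
  have hleft1 : exp (-(A * (1 + 2 / η) * (n / K))) ≤ q ^ (ν + L * (δ - 1)) := by
    rw [hqpow, exp_le_exp, neg_le_neg_iff]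
    have h3 : ((ν + L * (δ - 1) : ℕ) : ℝ) ≤ (1 + 2 / η) * (N / K) := by
      have h4 : ((ν + L * (δ - 1) : ℕ) : ℝ) ≤ ν + L * δ := by
        have h5 : ν + L * (δ - 1) ≤ ν + L * δ :=
          Nat.add_le_add_left (Nat.mul_le_mul_left _ (Nat.sub_le _ _)) _
        exact_mod_cast h5
      have h6 : (ν : ℝ) ≤ N / K := by
        rw [le_div_iff₀ hK0]
        linarith
      calc ((ν + L * (δ - 1) : ℕ) : ℝ) ≤ ν + L * δ := h4
        _ ≤ N / K + 2 / η * (N / K) := add_le_add h6 hLδ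
        _ = _ := by ring
    calc A * n / N * ((ν + L * (δ - 1) : ℕ) : ℝ) ≤ A * n / N * ((1 + 2 / η) * (N / K)) :=
          mul_le_mul_of_nonneg_left h3 (by positivity)
      _ = A * (1 + 2 / η) * (n / K) := by field_simp
  have hleft2 : exp (-((1 / η) * (n / K))) ≤ η := by
    have h3 : 1 / η ≤ (1 / η) * (n / K) := by
      refine le_mul_of_one_le_right (by positivity) ?_
      rw [le_div_iff₀ hK0]
      linarith
    have h4 : 1 / η ≤ exp (1 / η) := by
      have := add_one_le_exp (1 / η)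
      linarith
    have h5 : 1 / η ≤ exp ((1 / η) * (n / K)) := h4.trans (exp_le_exp.2 h3)
    rw [exp_neg, ← one_div]
    rw [div_le_iff₀ hη0] at h5
    rw [div_le_iff₀ (exp_pos _)]
    linarith
  have hlog2 : 0 < log 2 := log_pos (by norm_num)
  have hlog2' : log 2 ≤ 1 := by
    have := log_two_lt_d9
    linarith
  have hleft3 : exp (n * log 2 - n / K) ≤ (2 : ℝ) ^ (D * k) := by
    have h3 : (2 : ℝ) ^ (D * k) = exp ((D * k : ℕ) * log 2) := by
      rw [← log_pow, exp_log (by positivity)]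
    rw [h3, exp_le_exp]
    push_cast
    have h4 : (n - k) * log 2 ≤ (D : ℝ) * k * log 2 :=
      mul_le_mul_of_nonneg_right (by linarith) hlog2.le
    have h5 : (k : ℝ) ≤ n / K := by
      rw [le_div_iff₀ hK0]
      linarith
    have h6 : (k : ℝ) * log 2 ≤ n / K := (mul_le_of_le_one_right hk0.le hlog2').trans h5
    linarith
  have hleft : exp (-(A * (1 + 2 / η) * (n / K))) *
      (exp (-((1 / η) * (n / K))) * exp (n * log 2 - n / K)) ≤
      q ^ (ν + L * (δ - 1)) * ((1 - (ε1 + ε2 / (1 - η) + η)) * 2 ^ (D * k)) := by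
    refine mul_le_mul hleft1 ?_ (by positivity) (by positivity)
    refine mul_le_mul (hleft2.trans hcoef) hleft3 (by positivity) (by linarith)
  -- right side
  obtain ⟨z, hz⟩ : ∃ z : ℝ, z = (2 : ℝ) ^ (-((k : ℝ) / (K * lam))) := ⟨_, rfl⟩
  have hz0 : 0 < z := by rw [hz]; exact rpow_pos_of_pos (by norm_num) _
  have h1z : 1 / z = 2 ^ ((k : ℝ) / (K * lam)) := by
    rw [hz, rpow_neg (by norm_num), one_div, inv_inv]
  have hzk : z * k ≤ 1 := by
    rw [← h1z, le_div_iff₀ hz0] at hk2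
    linarith
  have hzm : z * (k * m * δ) ≤ N := by
    rw [← h1z] at hm2
    calc z * (k * m * δ) ≤ z * (1 / z * N) := mul_le_mul_of_nonneg_left hm2 hz0.le
      _ = N := by field_simp
  have hz1 : z ≤ 1 := (le_mul_of_one_le_right hz0.le (by linarith)).trans hzk
  have hy : 1 - q ^ δ ≤ A * n * δ / N := by
    rw [hqpow]
    have h3 := add_one_le_exp (-(A * n / N * δ))
    have h4 : A * n / N * δ = A * n * δ / N := by ring
    rw [h4] at h3 ⊢
    linarith
  have hS := pfsum_le (m := m) (L := L) (d := δ) hLpos hq0 hq1 hy hz0 hz1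
  have hS1 : z * ((2 * m + 5 * L) * (A * n * δ / N)) ≤ 7 * A * (n / K) := by
    have h3 : z * (m * δ) ≤ N / k := by
      rw [le_div_iff₀ hk0]
      calc z * (m * δ) * k = z * (k * m * δ) := by ring
        _ ≤ N := hzm
    have h4 : z * (L * δ) ≤ N / k := by
      rw [le_div_iff₀ hk0]
      have h5 : (L : ℝ) * δ ≤ N := by
        refine hLδ.trans ?_
        have h6 : 2 / η ≤ K := by
          have : 2 / η = 2 * (1 / η) := by ring
          linarith
        calc 2 / η * (N / K) ≤ K * (N / K) := mul_le_mul_of_nonneg_right h6 (by positivity)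
          _ = N := by field_simp
      calc z * (L * δ) * k = (z * k) * (L * δ) := by ring
        _ ≤ 1 * N := mul_le_mul hzk h5 (by positivity) (by norm_num)
        _ = N := one_mul N
    calc z * ((2 * m + 5 * L) * (A * n * δ / N))
        = (2 * (z * (m * δ)) + 5 * (z * (L * δ))) * (A * n / N) := by ring
      _ ≤ (2 * (N / k) + 5 * (N / k)) * (A * n / N) := by
          refine mul_le_mul_of_nonneg_right ?_ (by positivity)
          linarith
      _ = 7 * A * (n / k) := by field_simp; ring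
      _ ≤ 7 * A * (n / K) := by
          refine mul_le_mul_of_nonneg_left ?_ (by positivity)
          exact div_le_div_of_nonneg_left hn0.le hK0 hKk'
  have hS2 : (1 / z) ^ (2 * L) ≤ exp (4 / η * (n / K)) := by
    rw [h1z]
    have h3 : ((2 : ℝ) ^ ((k : ℝ) / (K * lam))) ^ (2 * L) =
        exp ((2 * L : ℕ) * (k / (K * lam) * log 2)) := by
      rw [exp_nat_mul, mul_comm ((k : ℝ) / (K * lam)) (log 2),
        ← rpow_def_of_pos (by norm_num : (0 : ℝ) < 2)]
    rw [h3, exp_le_exp]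
    push_cast
    have h4 : (k : ℝ) / (K * lam) * log 2 ≤ k / (K * lam) :=
      mul_le_of_le_one_right (by positivity) hlog2'
    calc 2 * (L : ℝ) * (k / (K * lam) * log 2) ≤ 2 * (2 * (D * lam / η)) * (k / (K * lam)) := by
          refine mul_le_mul (by linarith) h4 (by positivity) (by positivity)
      _ = 4 / η * ((D * k) / K) := by field_simp; ring
      _ ≤ 4 / η * (n / K) := by
          refine mul_le_mul_of_nonneg_left ?_ (by positivity)
          exact div_le_div_of_nonneg_right hDk' hK0.le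
  have hS3 : ∑ j ∈ Finset.range (2 * L + 1),
      ((2 * m + 2 * L + 1 + j).choose j : ℝ) * (1 - q ^ δ) ^ j ≤
      exp (4 / η * (n / K)) * exp (7 * A * (n / K)) :=
    hS.trans (mul_le_mul hS2 (exp_le_exp.2 hS1) (exp_pos _).le (exp_pos _).le)
  have hLexp : (L : ℝ) + 1 ≤ exp (2 / η * (n / K)) :=
    (add_one_le_exp (L : ℝ)).trans (exp_le_exp.2 hLn)
  have hball : ∑ j ∈ Finset.range (ρ + 1), ((D * k).choose j : ℝ) ≤
      exp (2 * c / R * n + n / K) := by
    refine (ball_le (M := D * k) (k := k) (ρ := ρ) hkpos).trans (exp_le_exp.2 ?_)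
    have h3 : (ρ : ℝ) * log k ≤ 2 * c / R * n := by
      have hlogk : 0 ≤ log (k : ℝ) := log_nonneg (by linarith)
      have h4 : log (k : ℝ) ≤ 2 * √k := Pool.GTN.log_le_sqrt hk0
      have h5 : R ≤ √k := le_sqrt_of_sq_le (hRK.trans hKk')
      have h6 : 0 < √(k : ℝ) := sqrt_pos.2 hk0
      have h7 : √(k : ℝ) * √k = k := mul_self_sqrt hk0.le
      calc (ρ : ℝ) * log k ≤ (n * c / k) * (2 * √k) :=
            mul_le_mul hρ1 h4 hlogk (by positivity)
        _ = 2 * c * n * (√k / k) := by ring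
        _ = 2 * c * n * (1 / √k) := by
            congr 1
            rw [div_eq_div_iff hk0.ne' h6.ne', one_mul, h7]
        _ ≤ 2 * c * n * (1 / R) := by
            refine mul_le_mul_of_nonneg_left ?_ (by positivity)
            exact one_div_le_one_div_of_le hR0 h5
        _ = 2 * c / R * n := by ring
    have h8 : ((D * k : ℕ) : ℝ) / k ≤ n / K := by
      calc ((D * k : ℕ) : ℝ) / k ≤ n / k := by
            refine div_le_div_of_nonneg_right ?_ hk0.le
            exact_mod_cast hDk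
        _ ≤ n / K := div_le_div_of_nonneg_left hn0.le hK0 hKk'
    linarith
  have h2exp : (2 : ℝ) ≤ exp (n / K) := by
    refine hexp1.trans (exp_le_exp.2 ?_)
    rw [le_div_iff₀ hK0]
    linarith
  have hr' : (1 : ℝ) ≤ r := by exact_mod_cast hr
  have hr0 : (0 : ℝ) < r := by linarith
  have hq' : 0 ≤ 1 - q ^ δ := by
    have := pow_le_one₀ (n := δ) hq0.le hq1.le
    linarith
  have hright : 2 * (r * ∑ j ∈ Finset.range (2 * L + 1),
      ((2 * m + 2 * L + 1 + j).choose j : ℝ) * (1 - q ^ δ) ^ j) *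
      ((L + 1) * ∑ j ∈ Finset.range (ρ + 1), ((D * k).choose j : ℝ)) ≤
      exp (n / K) * (r * (exp (4 / η * (n / K)) * exp (7 * A * (n / K)))) *
        (exp (2 / η * (n / K)) * exp (2 * c / R * n + n / K)) := by
    have h3 : 0 ≤ ∑ j ∈ Finset.range (2 * L + 1),
        ((2 * m + 2 * L + 1 + j).choose j : ℝ) * (1 - q ^ δ) ^ j :=
      Finset.sum_nonneg fun j _ => by positivity
    have h4 : 0 ≤ ∑ j ∈ Finset.range (ρ + 1), ((D * k).choose j : ℝ) :=
      Finset.sum_nonneg fun j _ => by positivity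
    refine mul_le_mul ?_ ?_ (by positivity) (by positivity)
    · refine mul_le_mul h2exp ?_ (by positivity) (exp_pos _).le
      exact mul_le_mul_of_nonneg_left hS3 hr0.le
    · exact mul_le_mul hLexp hball h4 (exp_pos _).le
  have hall := hleft.trans (hmain.trans hright)
  -- logarithms
  obtain ⟨E, hE⟩ : ∃ E : ℝ, E = n * log 2 - (3 + 7 * (1 / η) + A * (8 + 2 / η)) * (n / K) -
    2 * c / R * n := ⟨_, rfl⟩
  have hexpE : exp E ≤ r := by
    have h3 : exp (-(A * (1 + 2 / η) * (n / K))) *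
        (exp (-((1 / η) * (n / K))) * exp (n * log 2 - n / K)) =
        exp E * exp (n / K + (4 / η * (n / K) + 7 * A * (n / K)) +
          (2 / η * (n / K) + (2 * c / R * n + n / K))) := by
      rw [← exp_add, ← exp_add, ← exp_add]
      congr 1
      rw [hE]
      ring
    have h4 : exp (n / K) * (r * (exp (4 / η * (n / K)) * exp (7 * A * (n / K)))) *
        (exp (2 / η * (n / K)) * exp (2 * c / R * n + n / K)) =
        r * exp (n / K + (4 / η * (n / K) + 7 * A * (n / K)) +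
          (2 / η * (n / K) + (2 * c / R * n + n / K))) := by
      rw [exp5]
      ring
    rw [h3, h4] at hall
    exact le_of_mul_le_mul_right hall (exp_pos _)
  have hElog : E ≤ log r := (le_log_iff_exp_le hr0).2 hexpE
  refine le_trans ?_ hElog
  have hKR : (n : ℝ) / K ≤ n / R := by
    refine div_le_div_of_nonneg_left hn0.le hR0 (le_trans ?_ hRK)
    rw [sq]
    exact le_mul_of_one_le_right hR0.le hR
  have hcoefpos : 0 ≤ 3 + 7 * (1 / η) + A * (8 + 2 / η) := by positivity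
  have h10 : (3 + 7 * (1 / η) + A * (8 + 2 / η)) * (n / K) ≤
      (4 + 40 * (1 / η) + A * (8 + 2 / η)) * (n / R) := by
    refine mul_le_mul ?_ hKR (by positivity) (by positivity)
    linarith
  rw [hE, ← hA, ← hc]
  have h11 : (n : ℝ) * ((4 + 40 * (1 / η) + A * (8 + 2 / η)) / R + 2 * c / R) =
      (4 + 40 * (1 / η) + A * (8 + 2 / η)) * (n / R) + 2 * c / R * n := by ring
  rw [h11]
  linarith

/-- **The numerical theorem**, as existence of parameters. -/
theorem numRT2 : ∀ ε α : ℝ, 0 < ε → α < 1 → ∃ K : ℕ, 1 ≤ K ∧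
    ∀ (n k m d ν : ℕ) (lam ε1 ε2 : ℝ), K ≤ k → K * k ≤ n → 1 ≤ d → n * d ≤ n.choose k →
    K * ν ≤ n.choose k → 1 ≤ lam → (k : ℝ) ≤ 2 ^ ((k : ℝ) / (K * lam)) →
    (k * m * d : ℝ) ≤ 2 ^ ((k : ℝ) / (K * lam)) * n.choose k → 0 ≤ ε1 → 0 ≤ ε2 → ε1 + ε2 ≤ α →
    ∃ (D L ρ T0 : ℕ) (β ε3 q : ℝ), D * k ≤ n ∧ D < n.choose k ∧ 0 < β ∧ 0 < L ∧
      (L : ℝ) ≤ K * lam * n / k ∧ (D * lam : ℝ) ≤ ε3 * L ∧ GoodDist n k ρ T0 β ∧ 0 < q ∧ q < 1 ∧
      (2 : ℝ) ^ (D * k) * q ^ T0 ≤ 1 / 2 ∧ ∀ r : ℕ, 1 ≤ r →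
      q ^ (ν + L * (d - 1)) * ((1 - (ε1 + ε2 / β + ε3)) * 2 ^ (D * k)) ≤
        2 * (r * ∑ j ∈ Finset.range (2 * L + 1),
          ((2 * m + 2 * L + 1 + j).choose j : ℝ) * (1 - q ^ d) ^ j) *
          ((L + 1) * ∑ j ∈ Finset.range (ρ + 1), ((D * k).choose j : ℝ)) →
      (2 : ℝ) ^ ((1 - ε) * n : ℝ) ≤ r := by
  intro ε al hε hal
  obtain ⟨η, hη⟩ : ∃ η : ℝ, η = min ((1 - al) / 4) (1 / 4) := ⟨_, rfl⟩
  have hη0 : 0 < η := by
    rw [hη]
    exact lt_min (by linarith) (by norm_num)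
  have hη1 : η ≤ 1 / 4 := by rw [hη]; exact min_le_right _ _
  have hη2 : al ≤ 1 - 4 * η := by
    have : η ≤ (1 - al) / 4 := by rw [hη]; exact min_le_left _ _
    linarith
  have hlog2 : 0 < log 2 := log_pos (by norm_num)
  obtain ⟨E, hE⟩ : ∃ E : ℝ, E = 4 + 40 * (1 / η) + (16 / η) * (8 + 2 / η) + 2 * log (4 / η) :=
    ⟨_, rfl⟩
  obtain ⟨R, hR⟩ : ∃ R : ℝ, R = max 1 (E / (ε * log 2)) := ⟨_, rfl⟩
  have hR1 : 1 ≤ R := by rw [hR]; exact le_max_left _ _
  have hR0 : 0 < R := by linarith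
  have hRE : E / (ε * log 2) ≤ R := by rw [hR]; exact le_max_right _ _
  obtain ⟨K, hK⟩ : ∃ K : ℕ, K = max 1 (max ⌈R ^ 2⌉₊ ⌈8 / η + 5⌉₊) := ⟨_, rfl⟩
  have hK1 : 1 ≤ K := by rw [hK]; exact le_max_left _ _
  have hKR : R ^ 2 ≤ K := by
    have h1 : ⌈R ^ 2⌉₊ ≤ K := by
      rw [hK]
      exact (le_max_left _ _).trans (le_max_right _ _)
    exact (Nat.le_ceil _).trans (by exact_mod_cast h1)
  have hK2 : 8 / η + 5 ≤ K := by
    have h1 : ⌈8 / η + 5⌉₊ ≤ K := by
      rw [hK]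
      exact (le_max_right _ _).trans (le_max_right _ _)
    exact (Nat.le_ceil _).trans (by exact_mod_cast h1)
  refine ⟨K, hK1, ?_⟩
  intro n k m δ ν lam ε1 ε2 hKk hkn hδ hnδ hν hlam hk2 hm2 h1 h2 h12
  obtain ⟨D, L, ρ, T0, β, ε3, q, c1, c2, c3, c4, c5, c6, c7, c8, c9, c10, hs⟩ :=
    step hη0 hη1 hR1 hKR hK2 hKk hkn hδ hnδ hν hlam hk2 hm2 h1 h2 (h12.trans hη2)
  refine ⟨D, L, ρ, T0, β, ε3, q, c1, c2, c3, c4, c5, c6, c7, c8, c9, c10, ?_⟩
  intro r hr H
  have hs := hs r hr H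
  have hr0 : (0 : ℝ) < r := by exact_mod_cast hr
  have h3 : (4 + 40 * (1 / η) + (16 / η) * (8 + 2 / η)) / R + 2 * log (4 / η) / R = E / R := by
    rw [hE]
    ring
  rw [h3] at hs
  have h4 : E / R ≤ ε * log 2 := by
    rw [div_le_iff₀ hR0]
    rw [div_le_iff₀ (by positivity)] at hRE
    linarith
  have h5 : (n : ℝ) * (E / R) ≤ n * (ε * log 2) :=
    mul_le_mul_of_nonneg_left h4 (Nat.cast_nonneg n)
  rw [rpow_def_of_pos (by norm_num), ← le_log_iff_exp_le hr0]
  calc log 2 * ((1 - ε) * n) = n * log 2 - n * (ε * log 2) := by ring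
    _ ≤ n * log 2 - n * (E / R) := by linarith
    _ ≤ log r := hs

end Pool.RTN
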