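import Mathlib
import Pool.Agent.Helper91.HN.Num5

/-!
# Adaptive algorithms, gadgets with Reed-Solomon codes: the choice of the parameters
-/

set_option autoImplicit false

namespace Pool.ADN

open Real

/-- `C(2 G s, s) ≤ (6 G)^s` -/
theorem choose_le_pow' {G s : ℕ} (hG : 1 ≤ G) (hs : 1 ≤ s) :
    ((2 * G * s).choose s : ℝ) ≤ (6 * G : ℝ) ^ s := by
  have hG' : (1 : ℝ) ≤ G := by exact_mod_cast hG
  have hG0 : (0 : ℝ) < G := by linarith
  obtain ⟨y, hy⟩ : ∃ y : ℝ, y = 1 / (2 * G) := ⟨_, rfl⟩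
  have hy0 : 0 < y := by rw [hy]; positivity
  have h1 : ((2 * G * s).choose s : ℝ) * y ^ s ≤ (1 + y) ^ (2 * G * s) := by
    rw [add_comm (1 : ℝ) y, add_pow]
    have h2 : ((2 * G * s).choose s : ℝ) * y ^ s =
        y ^ s * 1 ^ (2 * G * s - s) * ((2 * G * s).choose s : ℝ) := by
      rw [one_pow, mul_one, mul_comm]
    rw [h2]
    have h3 : s ≤ 2 * G * s := Nat.le_mul_of_pos_left _ (by omega)
    exact Finset.single_le_sum (f := fun j => y ^ j * 1 ^ (2 * G * s - j) *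
      ((2 * G * s).choose j : ℝ)) (fun j _ => by positivity) (Finset.mem_range.2 (by omega))
  have h4 : (1 + y) ^ (2 * G * s) ≤ (3 : ℝ) ^ s := by
    calc (1 + y) ^ (2 * G * s) ≤ exp y ^ (2 * G * s) := by
          refine pow_le_pow_left₀ (by positivity) ?_ _
          have := add_one_le_exp y
          linarith
      _ = exp 1 ^ s := by
          rw [← exp_nat_mul, ← exp_nat_mul]
          congr 1
          rw [hy]
          push_cast
          field_simp
      _ ≤ 3 ^ s := by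
          refine pow_le_pow_left₀ (exp_pos _).le ?_ s
          have := exp_one_lt_d9
          linarith
  have h6 : (6 * G : ℝ) ^ s * y ^ s = 3 ^ s := by
    rw [← mul_pow, hy]
    congr 1
    field_simp
    norm_num
  have h7 : ((2 * G * s).choose s : ℝ) * y ^ s ≤ (6 * G : ℝ) ^ s * y ^ s := by
    rw [h6]
    exact h1.trans h4
  exact le_of_mul_le_mul_right h7 (by positivity)

/-- **The numerical theorem for adaptive algorithms**, gadgets with `cJ P` cells of `D = cD H s`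
blocks, codes of `p ^ t` words of length `l = 2 cl H t ≤ p` over `ZMod p` with agreement `a = t - 1`,
heavy fraction `δ = 1 / (cl H)`: `δ l - a = t + 1`. -/
theorem numAD3F (K cJ cD cl : ℕ) (hK : 1 ≤ K) (hcJ : 1 ≤ cJ) (hcD : 1 ≤ cD) (hcl : 1 ≤ cl) :
    ∃ C : ℕ, 1 ≤ C ∧ ∀ (n m H P Λ M V : ℕ),
    1 ≤ n → n ≤ V → 1 ≤ H → 1 ≤ P → 1 ≤ Λ → 1 ≤ M → P * m ≤ M * V →
    (n : ℝ) / (P * ((C * H * Λ * M : ℕ) : ℝ) ^ (C * Λ)) ≤ 1 / 2 ∨
    ∃ (p t s b : ℕ), p.Prime ∧ 1 ≤ t ∧ 2 ≤ s ∧ 1 ≤ b ∧ 2 * cl * H * t ≤ p ∧ Λ * s ≤ n ∧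
      K * ((cJ * P) * (cD * H * s) * (p ^ t + (2 * cl * H * t) * p * b)) ≤ n ∧
      ∀ B : ℕ, 1 ≤ B → b * V ≤ K * B * n → ∃ (τ T0 : ℕ) (q : ℝ), 1 ≤ τ ∧ τ ≤ s ∧
      (T0 : ℝ) ≤ τ * ((t + 1) * B) ∧ 0 < q ∧ q < 1 ∧
      (((p ^ t : ℕ) : ℝ)) ^ s * q ^ T0 ≤ 1 / 2 ∧
      ∀ cf T S : ℝ, 1 / 4 ≤ cf → 1 ≤ T → 0 ≤ S →
        S ≤ ∑ j ∈ Finset.range (2 * (Λ * s) + 1),
          (2 * ((m + Λ * s + 1 : ℕ) : ℝ) * (1 - q)) ^ j / (j.factorial : ℝ) →
        cf * ((p ^ t : ℕ) : ℝ) ^ s ≤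
          2 * (P * ((2 * (cD * H * s)).choose s : ℝ) * ((T * 2 ^ (Λ * s)) * S)) *
            (((Λ * s : ℕ) + 1) * (2 ^ s * ((p ^ t : ℕ) : ℝ) ^ τ)) →
        (n : ℝ) / (P * ((C * H * Λ * M : ℕ) : ℝ) ^ (C * Λ)) ≤ log (P * T) := by
  have hK' : (1 : ℝ) ≤ K := by exact_mod_cast hK
  have hK0 : (0 : ℝ) < K := by linarith
  have hcJ' : (1 : ℝ) ≤ cJ := by exact_mod_cast hcJ
  have hcJ0 : (0 : ℝ) < cJ := by linarith
  have hcD' : (1 : ℝ) ≤ cD := by exact_mod_cast hcD
  have hcD0 : (0 : ℝ) < cD := by linarith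
  have hcl' : (1 : ℝ) ≤ cl := by exact_mod_cast hcl
  obtain ⟨W, hW⟩ : ∃ W : ℕ, W = K * cJ * cD * cl := ⟨_, rfl⟩
  have hWpos : 0 < W := by rw [hW]; positivity
  have hWr : (W : ℝ) = K * cJ * cD * cl := by rw [hW]; push_cast; ring
  have hW1 : (1 : ℝ) ≤ W := by exact_mod_cast hWpos
  have hW0 : (0 : ℝ) < W := by linarith
  have hWW : (W : ℝ) ≤ W ^ 2 := by
    rw [sq]
    exact le_mul_of_one_le_left hW0.le hW1
  have hWcl : cl ≤ W ^ 2 := by
    have h1 : cl ≤ W := by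
      rw [hW]
      exact Nat.le_mul_of_pos_left _ (by positivity)
    have h2 : W ≤ W ^ 2 := Nat.le_self_pow (by norm_num) W
    omega
  have hWcD : (cD : ℝ) ≤ W ^ 2 := by
    refine le_trans ?_ hWW
    rw [hWr]
    have : (1 : ℝ) ≤ K * cJ * cl :=
      one_le_mul_of_one_le_of_one_le (one_le_mul_of_one_le_of_one_le hK' hcJ') hcl'
    calc (cD : ℝ) ≤ cD * (K * cJ * cl) := le_mul_of_one_le_right hcD0.le this
      _ = _ := by ring
  have hWKJD : (K : ℝ) * cJ * cD ≤ W := by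
    rw [hWr]
    exact le_mul_of_one_le_right (by positivity) hcl'
  have hWK2 : (K : ℝ) ^ 2 * cJ * cD ≤ W ^ 2 := by
    have h1 : (K : ℝ) ≤ W := by
      refine le_trans ?_ hWKJD
      have h2 : (1 : ℝ) ≤ cJ * cD := one_le_mul_of_one_le_of_one_le hcJ' hcD'
      calc (K : ℝ) ≤ K * (cJ * cD) := le_mul_of_one_le_right hK0.le h2
        _ = _ := by ring
    calc (K : ℝ) ^ 2 * cJ * cD = K * (K * cJ * cD) := by ring
      _ ≤ W * W := mul_le_mul h1 hWKJD (by positivity) hW0.le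
      _ = _ := by ring
  obtain ⟨C, hC⟩ : ∃ C : ℕ, C = 2000 * W ^ 2 := ⟨_, rfl⟩
  have hCr : (C : ℝ) = 2000 * W ^ 2 := by rw [hC]; push_cast; ring
  have hC61 : 61 ≤ C := by
    rw [hC]
    have : 1 ≤ W ^ 2 := Nat.one_le_pow _ _ hWpos
    omega
  refine ⟨C, by omega, ?_⟩
  intro n m H P Λ M V hn hnV hH hP hΛ hM hmd
  have hn' : (1 : ℝ) ≤ n := by exact_mod_cast hn
  have hn0 : (0 : ℝ) < n := by linarith
  have hnV' : (n : ℝ) ≤ V := by exact_mod_cast hnV
  have hV0 : (0 : ℝ) < V := by linarith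
  have hH' : (1 : ℝ) ≤ H := by exact_mod_cast hH
  have hH0 : (0 : ℝ) < H := by linarith
  have hP' : (1 : ℝ) ≤ P := by exact_mod_cast hP
  have hP0 : (0 : ℝ) < P := by linarith
  have hΛ' : (1 : ℝ) ≤ Λ := by exact_mod_cast hΛ
  have hΛ0 : (0 : ℝ) < Λ := by linarith
  have hM' : (1 : ℝ) ≤ M := by exact_mod_cast hM
  have hM0 : (0 : ℝ) < M := by linarith
  have hmd' : (P : ℝ) * m ≤ M * V := by exact_mod_cast hmd
  have hΛM : 1 ≤ (Λ : ℝ) * M := one_le_mul_of_one_le_of_one_le hΛ' hM'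
  obtain ⟨Y, hY⟩ : ∃ Y : ℝ, Y = W ^ 2 * (H * (Λ * M)) := ⟨_, rfl⟩
  have hW2H : (W : ℝ) ^ 2 * H ≤ Y := by
    rw [hY]
    refine mul_le_mul_of_nonneg_left ?_ (by positivity)
    exact le_mul_of_one_le_right hH0.le hΛM
  have hY1 : 1 ≤ Y := by
    refine le_trans ?_ hW2H
    exact one_le_mul_of_one_le_of_one_le (one_le_pow₀ hW1) hH'
  obtain ⟨G, hG⟩ : ∃ G : ℝ, G = ((C * H * Λ * M : ℕ) : ℝ) := ⟨_, rfl⟩
  have hGr : G = 2000 * Y := by rw [hG, hY]; push_cast; rw [hCr]; ring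
  rw [← hG]
  have hG1 : 1 ≤ G := by
    rw [hGr]
    linarith
  have hG0 : 0 < G := by linarith
  -- the prime
  obtain ⟨P₀, hP₀⟩ : ∃ P₀ : ℕ, P₀ = 1000 * (W ^ 2 * (H * (Λ * M))) := ⟨_, rfl⟩
  have hP₀r : (P₀ : ℝ) = 1000 * Y := by rw [hP₀, hY]; push_cast; ring
  have hP₀pos : P₀ ≠ 0 := by
    intro h0
    rw [h0] at hP₀r
    push_cast at hP₀r
    linarith
  obtain ⟨p, hp, hp1, hp2⟩ := Nat.exists_prime_lt_and_le_two_mul P₀ hP₀pos
  have hp1' : (P₀ : ℝ) < p := by exact_mod_cast hp1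
  have hp2' : (p : ℝ) ≤ 2 * P₀ := by exact_mod_cast hp2
  have hpG : (p : ℝ) ≤ G := by
    rw [hGr]
    calc (p : ℝ) ≤ 2 * P₀ := hp2'
      _ = _ := by rw [hP₀r]; ring
  have hpY : 1000 * Y ≤ p := by
    rw [← hP₀r]
    exact hp1'.le
  have hp6 : 6 * ((cD * H : ℕ) : ℝ) ≤ p := by
    have h1 : (cD : ℝ) * H ≤ W ^ 2 * H := mul_le_mul_of_nonneg_right hWcD hH0.le
    push_cast
    linarith
  have hp3 : (3 : ℝ) ≤ p := by linarith
  have hp0 : (0 : ℝ) < p := by linarith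
  have hp1le : (1 : ℝ) ≤ p := by linarith
  obtain ⟨t, ht⟩ : ∃ t : ℕ, t = 60 * Λ := ⟨_, rfl⟩
  have ht1 : 1 ≤ t := by omega
  have htr : (t : ℝ) = 60 * Λ := by rw [ht]; push_cast; ring
  have hlp : 2 * cl * H * t ≤ p := by
    have h1 : 2 * cl * H * t ≤ P₀ := by
      rw [ht, hP₀]
      calc 2 * cl * H * (60 * Λ) = 120 * (cl * (H * (Λ * 1))) := by ring
        _ ≤ 1000 * (W ^ 2 * (H * (Λ * M))) := by
            refine Nat.mul_le_mul (by norm_num) (Nat.mul_le_mul hWcl ?_)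
            exact Nat.mul_le_mul_left _ (Nat.mul_le_mul_left _ hM)
    omega
  have hYp : 32 * ((K : ℝ) ^ 2 * cJ * cD) * H * (M + 2 * Λ) ≤ p := by
    have h1 : (M : ℝ) + 2 * Λ ≤ 3 * (Λ * M) := by
      have h2 : (M : ℝ) ≤ Λ * M := le_mul_of_one_le_left hM0.le hΛ'
      have h3 : (Λ : ℝ) ≤ Λ * M := le_mul_of_one_le_right hΛ0.le hM'
      linarith
    refine le_trans ?_ hpY
    calc 32 * ((K : ℝ) ^ 2 * cJ * cD) * H * (M + 2 * Λ)
        ≤ 32 * ((K : ℝ) ^ 2 * cJ * cD) * H * (3 * (Λ * M)) :=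
          mul_le_mul_of_nonneg_left h1 (by positivity)
      _ = ((K : ℝ) ^ 2 * cJ * cD) * (96 * (H * (Λ * M))) := by ring
      _ ≤ W ^ 2 * (96 * (H * (Λ * M))) := mul_le_mul_of_nonneg_right hWK2 (by positivity)
      _ = 96 * Y := by rw [hY]; ring
      _ ≤ 1000 * Y := by linarith
  -- the number of words
  obtain ⟨Kc, hKc⟩ : ∃ Kc : ℕ, Kc = p ^ t := ⟨_, rfl⟩
  have hKcr : (Kc : ℝ) = (p : ℝ) ^ t := by rw [hKc]; push_cast; rfl
  have hKc0 : (0 : ℝ) < Kc := by rw [hKcr]; positivity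
  have hKc1 : (1 : ℝ) ≤ Kc := by rw [hKcr]; exact one_le_pow₀ hp1le
  have hKcpos : 0 < Kc := by exact_mod_cast hKc0
  obtain ⟨u, hu⟩ : ∃ u : ℝ, u = K * cJ * cD * H * Kc := ⟨_, rfl⟩
  have hu1 : 1 ≤ u := by
    rw [hu]
    exact one_le_mul_of_one_le_of_one_le (one_le_mul_of_one_le_of_one_le
      (one_le_mul_of_one_le_of_one_le (one_le_mul_of_one_le_of_one_le hK' hcJ') hcD') hH') hKc1
  have hu0 : 0 < u := by linarith
  have hKcG : 8 * u ≤ G ^ (C * Λ) := by
    have h1 : 8 * ((K : ℝ) * cJ * cD * H) ≤ G := by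
      rw [hGr]
      have h3 : (K : ℝ) * cJ * cD * H ≤ W ^ 2 * H :=
        mul_le_mul_of_nonneg_right (hWKJD.trans hWW) hH0.le
      linarith
    have h4 : (Kc : ℝ) ≤ G ^ (60 * Λ) := by
      rw [hKcr, ht]
      exact pow_le_pow_left₀ hp0.le hpG _
    calc 8 * u = 8 * ((K : ℝ) * cJ * cD * H) * Kc := by rw [hu]; ring
      _ ≤ G * G ^ (60 * Λ) := mul_le_mul h1 h4 hKc0.le hG0.le
      _ = G ^ (60 * Λ + 1) := by rw [pow_succ']
      _ ≤ G ^ (C * Λ) := by
          refine pow_le_pow_right₀ hG1 ?_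
          have : 61 * Λ ≤ C * Λ := Nat.mul_le_mul_right _ hC61
          omega
  have hbound : (n : ℝ) / (P * G ^ (C * Λ)) ≤ n / (P * (8 * u)) := by
    refine div_le_div_of_nonneg_left hn0.le (by positivity) ?_
    exact mul_le_mul_of_nonneg_left hKcG hP0.le
  obtain ⟨uN, huN⟩ : ∃ uN : ℕ, uN = P * (K * cJ * cD * H * Kc) := ⟨_, rfl⟩
  have huNr : (uN : ℝ) = P * u := by rw [huN, hu]; push_cast; ring
  have huNpos : 0 < uN := by rw [huN]; positivity
  have hpos : 0 < 2 * uN := by omega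
  by_cases hcase : 2 * (2 * uN) ≤ n
  · right
    obtain ⟨s, hs⟩ : ∃ s, s = n / (2 * uN) := ⟨_, rfl⟩
    have hs2 : 2 ≤ s := by
      rw [hs]
      exact (Nat.le_div_iff_mul_le hpos).2 hcase
    have hsn : s * (2 * uN) ≤ n := by rw [hs]; exact Nat.div_mul_le_self _ _
    have hns : n ≤ 2 * (s * (2 * uN)) := by
      have h1 : n < (s + 1) * (2 * uN) := (Nat.div_lt_iff_lt_mul hpos).1 (by omega)
      have h2 : (s + 1) * (2 * uN) ≤ 2 * s * (2 * uN) :=
        Nat.mul_le_mul_right _ (by omega)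
      calc n ≤ 2 * s * (2 * uN) := h1.le.trans h2
        _ = _ := by ring
    have hs2' : (2 : ℝ) ≤ s := by exact_mod_cast hs2
    have hs0 : (0 : ℝ) < s := by linarith
    have hsn' : (s : ℝ) * (2 * (P * u)) ≤ n := by
      rw [← huNr]
      exact_mod_cast hsn
    have hns' : (n : ℝ) ≤ 2 * (s * (2 * (P * u))) := by
      rw [← huNr]
      exact_mod_cast hns
    obtain ⟨lp, hlpdef⟩ : ∃ lp : ℕ, lp = 2 * cl * H * t * p := ⟨_, rfl⟩
    have hlppos : 0 < lp := by rw [hlpdef]; have := hp.pos; positivity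
    have hlp2 : lp ≤ p ^ 2 := by
      rw [hlpdef]
      calc 2 * cl * H * t * p ≤ p * p := Nat.mul_le_mul_right _ hlp
        _ = p ^ 2 := by ring
    have hlpK : lp ≤ Kc := by
      rw [hKc]
      exact hlp2.trans (Nat.pow_le_pow_right hp.pos (by omega))
    obtain ⟨b, hb⟩ : ∃ b, b = Kc / lp := ⟨_, rfl⟩
    have hb1 : 1 ≤ b := by
      rw [hb, Nat.one_le_div_iff hlppos]
      exact hlpK
    have hlb : lp * b ≤ Kc := by rw [hb]; exact Nat.mul_div_le _ _
    have hlb2 : Kc ≤ 2 * (b * lp) := by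
      have h1 : Kc < (b + 1) * lp := (Nat.div_lt_iff_lt_mul hlppos).1 (by omega)
      have h2 : (b + 1) * lp ≤ 2 * b * lp := Nat.mul_le_mul_right _ (by omega)
      calc Kc ≤ 2 * b * lp := h1.le.trans h2
        _ = _ := by ring
    have hlb2' : (Kc : ℝ) ≤ 2 * (b * lp) := by exact_mod_cast hlb2
    have hb1' : (1 : ℝ) ≤ b := by exact_mod_cast hb1
    have hb0 : (0 : ℝ) < b := by linarith
    have hlpr : (lp : ℝ) ≤ p ^ 2 := by exact_mod_cast hlp2
    have hΛsn : Λ * s ≤ n := by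
      have h1 : (Λ : ℝ) ≤ 2 * (P * u) := by
        have h2 : (Λ : ℝ) ≤ p := by
          have h3 : (Λ : ℝ) ≤ Λ * M := le_mul_of_one_le_right hΛ0.le hM'
          have h4 : (Λ : ℝ) * M ≤ Y := by
            rw [hY]
            have h5 : (1 : ℝ) ≤ W ^ 2 * H := one_le_mul_of_one_le_of_one_le (one_le_pow₀ hW1) hH'
            calc (Λ : ℝ) * M = 1 * (Λ * M) := (one_mul _).symm
              _ ≤ (W ^ 2 * H) * (Λ * M) := mul_le_mul_of_nonneg_right h5 (by positivity)
              _ = _ := by ring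
          linarith
        have h3 : (p : ℝ) ≤ Kc := by
          rw [hKcr]
          exact le_self_pow₀ hp1le (by omega)
        have h4 : (Kc : ℝ) ≤ u := by
          rw [hu]
          have : (1 : ℝ) ≤ K * cJ * cD * H :=
            one_le_mul_of_one_le_of_one_le (one_le_mul_of_one_le_of_one_le
              (one_le_mul_of_one_le_of_one_le hK' hcJ') hcD') hH'
          exact le_mul_of_one_le_left hKc0.le this
        have h5 : u ≤ P * u := le_mul_of_one_le_left hu0.le hP'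
        linarith
      have h2 : (Λ : ℝ) * s ≤ n := by
        calc (Λ : ℝ) * s = s * Λ := by ring
          _ ≤ s * (2 * (P * u)) := mul_le_mul_of_nonneg_left h1 hs0.le
          _ ≤ n := hsn'
      exact_mod_cast h2
    refine ⟨p, t, s, b, hp, ht1, hs2, hb1, hlp, hΛsn, ?_, ?_⟩
    · rw [← hKc]
      calc K * (cJ * P * (cD * H * s) * (Kc + 2 * cl * H * t * p * b))
          = K * (cJ * P * (cD * H * s) * (Kc + lp * b)) := by rw [hlpdef]
        _ ≤ K * (cJ * P * (cD * H * s) * (Kc + Kc)) := by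
            refine Nat.mul_le_mul_left _ (Nat.mul_le_mul_left _ ?_)
            omega
        _ = s * (2 * uN) := by rw [huN]; ring
        _ ≤ n := hsn
    rw [← hKc]
    intro B' hB'1 hB'
    obtain ⟨B, hB⟩ : ∃ B : ℝ, B = (B' : ℝ) := ⟨_, rfl⟩
    have hBV : (b : ℝ) * V ≤ K * B * n := by rw [hB]; exact_mod_cast hB'
    rw [← hB]
    have hB1 : 1 ≤ B := by rw [hB]; exact_mod_cast hB'1
    have hB0 : 0 < B := by linarith
    -- `1 / B ≤ 2 p² K n / (Kc V)`
    have hBinv : 1 / B ≤ 2 * p ^ 2 * K * n / (Kc * V) := by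
      rw [div_le_div_iff₀ hB0 (by positivity)]
      calc 1 * ((Kc : ℝ) * V) ≤ (2 * (b * lp)) * V := by
            rw [one_mul]
            exact mul_le_mul_of_nonneg_right hlb2' hV0.le
        _ ≤ (2 * (b * p ^ 2)) * V := by
            refine mul_le_mul_of_nonneg_right ?_ hV0.le
            refine mul_le_mul_of_nonneg_left ?_ (by norm_num)
            exact mul_le_mul_of_nonneg_left hlpr hb0.le
        _ = 2 * p ^ 2 * (b * V) := by ring
        _ ≤ 2 * p ^ 2 * (K * B * n) := mul_le_mul_of_nonneg_left hBV (by positivity)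
        _ = _ := by ring
    obtain ⟨lgp, hlgp⟩ : ∃ lgp : ℝ, lgp = log p := ⟨_, rfl⟩
    have hlgp1 : 1 ≤ lgp := by
      rw [hlgp, le_log_iff_exp_le hp0]
      have := exp_one_lt_d9
      linarith
    have hlgpp : lgp + 1 ≤ p := by
      have := log_le_sub_one_of_pos hp0
      rw [hlgp]
      linarith
    obtain ⟨τ, hτ⟩ : ∃ τ : ℕ, τ = (s + 1) / 2 := ⟨_, rfl⟩
    have hτs : τ ≤ s := by omega
    have hτ1 : s ≤ 2 * τ := by omega
    have hτ2 : 3 * τ ≤ 2 * s := by omega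
    have hτ1' : (s : ℝ) ≤ 2 * τ := by exact_mod_cast hτ1
    have hτ2' : 3 * (τ : ℝ) ≤ 2 * s := by exact_mod_cast hτ2
    obtain ⟨T0, hT0⟩ : ∃ T0 : ℕ, T0 = τ * (t + 1) * B' := ⟨_, rfl⟩
    have hT0r : (T0 : ℝ) = τ * ((t + 1) * B) := by
      rw [hT0, hB]
      push_cast
      ring
    obtain ⟨q, hq⟩ : ∃ q : ℝ, q = exp (-(2 * (lgp + 1) / B)) := ⟨_, rfl⟩
    have hq0 : 0 < q := by rw [hq]; exact exp_pos _
    have hq1 : q < 1 := by
      rw [hq, exp_lt_one_iff]
      have : 0 < 2 * (lgp + 1) / B := by positivity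
      linarith
    have h1q : 1 - q ≤ 2 * p / B := by
      have h1 := add_one_le_exp (-(2 * (lgp + 1) / B))
      have h2 : 2 * (lgp + 1) / B ≤ 2 * p / B := div_le_div_of_nonneg_right (by linarith) hB0.le
      rw [hq]
      linarith
    have h1q0 : 0 ≤ 1 - q := by linarith
    have hexp1 : (2 : ℝ) ≤ exp 1 := by
      have := add_one_le_exp (1 : ℝ)
      linarith
    have hKcexp : (Kc : ℝ) = exp (t * lgp) := by
      rw [hKcr, hlgp, ← log_pow, exp_log (by positivity)]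
    have hhalf : (Kc : ℝ) ^ s * q ^ T0 ≤ 1 / 2 := by
      have h1 : (Kc : ℝ) ^ s = exp (s * (t * lgp)) := by
        rw [hKcexp, ← exp_nat_mul]
      have h2 : q ^ T0 = exp (-(2 * τ * ((t + 1) * (lgp + 1)))) := by
        rw [hq, ← exp_nat_mul, hT0r]
        congr 1
        field_simp
      have h3 : (s : ℝ) * ((t + 1) * (lgp + 1)) ≤ 2 * τ * ((t + 1) * (lgp + 1)) :=
        mul_le_mul_of_nonneg_right hτ1' (by positivity)
      have h4 : (s : ℝ) * (t * lgp) + 1 ≤ s * ((t + 1) * (lgp + 1)) := by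
        have h5 : (s : ℝ) * ((t + 1) * (lgp + 1)) = s * (t * lgp) + s * (t + lgp + 1) := by ring
        rw [h5]
        have h6 : (1 : ℝ) ≤ s * (t + lgp + 1) := by
          have h7 : (0 : ℝ) ≤ t := Nat.cast_nonneg t
          exact one_le_mul_of_one_le_of_one_le (by linarith) (by linarith)
        linarith
      calc (Kc : ℝ) ^ s * q ^ T0 = exp (s * (t * lgp) + -(2 * τ * ((t + 1) * (lgp + 1)))) := by
            rw [h1, h2, ← exp_add]
        _ ≤ exp (-1) := exp_le_exp.2 (by linarith)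
        _ ≤ 1 / 2 := by
            rw [exp_neg, ← one_div]
            exact one_div_le_one_div_of_le (by norm_num) hexp1
    refine ⟨τ, T0, q, by omega, hτs, le_of_eq hT0r, hq0, hq1, hhalf, ?_⟩
    intro cf T S hcf hT hS0 hSle hmain
    have hT0' : 0 < T := by linarith
    -- the sum
    have hsV : (P : ℝ) * (Λ * s) ≤ Λ * V := by
      have h1 : (P : ℝ) * s ≤ n := by
        have h2 : (1 : ℝ) ≤ 2 * u := by linarith
        calc (P : ℝ) * s = (s * P) * 1 := by ring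
          _ ≤ (s * P) * (2 * u) := mul_le_mul_of_nonneg_left h2 (by positivity)
          _ = s * (2 * (P * u)) := by ring
          _ ≤ n := hsn'
      calc (P : ℝ) * (Λ * s) = Λ * (P * s) := by ring
        _ ≤ Λ * V := mul_le_mul_of_nonneg_left (h1.trans hnV') hΛ0.le
    have hΛs1 : 1 ≤ (Λ : ℝ) * s := one_le_mul_of_one_le_of_one_le hΛ' (by linarith)
    have hx : 2 * ((m + Λ * s + 1 : ℕ) : ℝ) * (1 - q) ≤ (p : ℝ) ^ 4 * s := by
      have h1 : ((m + Λ * s + 1 : ℕ) : ℝ) ≤ (M + 2 * Λ) * V / P := by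
        rw [le_div_iff₀ hP0]
        push_cast
        calc ((m : ℝ) + Λ * s + 1) * P ≤ (m + 2 * (Λ * s)) * P :=
              mul_le_mul_of_nonneg_right (by linarith) hP0.le
          _ = P * m + 2 * (P * (Λ * s)) := by ring
          _ ≤ M * V + 2 * (Λ * V) := by linarith
          _ = _ := by ring
      calc 2 * ((m + Λ * s + 1 : ℕ) : ℝ) * (1 - q)
          ≤ 2 * ((M + 2 * Λ) * V / P) * (2 * p / B) := by
            refine mul_le_mul ?_ h1q h1q0 (by positivity)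
            exact mul_le_mul_of_nonneg_left h1 (by norm_num)
        _ = 4 * p * ((M + 2 * Λ) * V / P) * (1 / B) := by ring
        _ ≤ 4 * p * ((M + 2 * Λ) * V / P) * (2 * p ^ 2 * K * n / (Kc * V)) :=
            mul_le_mul_of_nonneg_left hBinv (by positivity)
        _ = 8 * p ^ 3 * K * (M + 2 * Λ) / (P * Kc) * n := by
            field_simp
            ring
        _ ≤ 8 * p ^ 3 * K * (M + 2 * Λ) / (P * Kc) * (2 * (s * (2 * (P * u)))) :=
            mul_le_mul_of_nonneg_left hns' (by positivity)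
        _ = p ^ 3 * (32 * ((K : ℝ) ^ 2 * cJ * cD) * H * (M + 2 * Λ)) * s := by
            rw [hu]
            field_simp
            ring
        _ ≤ p ^ 3 * p * s := by
            refine mul_le_mul_of_nonneg_right ?_ hs0.le
            exact mul_le_mul_of_nonneg_left hYp (by positivity)
        _ = (p : ℝ) ^ 4 * s := by ring
    have hx0 : 0 ≤ 2 * ((m + Λ * s + 1 : ℕ) : ℝ) * (1 - q) := by positivity
    obtain ⟨z, hz⟩ : ∃ z : ℝ, z = 1 / (p : ℝ) ^ 4 := ⟨_, rfl⟩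
    have hp4 : (1 : ℝ) ≤ p ^ 4 := one_le_pow₀ hp1le
    have hz0 : 0 < z := by rw [hz]; positivity
    have hz1 : z ≤ 1 := by rw [hz, div_le_one (by positivity)]; exact hp4
    have h1z : 1 / z = (p : ℝ) ^ 4 := by rw [hz, one_div_one_div]
    have hS := hSle.trans (Pool.GTN.sum_le hx0 hz0 hz1 (2 * (Λ * s)))
    have hpe : (p : ℝ) = exp lgp := by rw [hlgp, exp_log hp0]
    have hS2 : S ≤ exp (8 * Λ * s * lgp + s) := by
      refine hS.trans ?_
      rw [exp_add, h1z]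
      refine mul_le_mul (le_of_eq ?_) (exp_le_exp.2 ?_) (exp_pos _).le (exp_pos _).le
      · rw [hpe, ← exp_nat_mul, ← exp_nat_mul]
        congr 1
        push_cast
        ring
      · calc z * (2 * ((m + Λ * s + 1 : ℕ) : ℝ) * (1 - q)) ≤ z * ((p : ℝ) ^ 4 * s) :=
              mul_le_mul_of_nonneg_left hx hz0.le
          _ = s := by
              rw [hz]
              field_simp
    have hcDH : 1 ≤ cD * H := Nat.one_le_iff_ne_zero.2 (by positivity)
    have hch : ((2 * (cD * H * s)).choose s : ℝ) ≤ exp (s * lgp) := by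
      have h1 := choose_le_pow' (G := cD * H) (s := s) hcDH (by omega)
      have h2 : 2 * (cD * H * s) = 2 * (cD * H) * s := by ring
      rw [h2]
      refine h1.trans ?_
      calc (6 * ((cD * H : ℕ) : ℝ)) ^ s ≤ (p : ℝ) ^ s := pow_le_pow_left₀ (by positivity) hp6 s
        _ = exp (s * lgp) := by rw [hpe, ← exp_nat_mul]
    have hLexp : ((Λ * s : ℕ) : ℝ) + 1 ≤ exp (Λ * s) := by
      push_cast
      exact add_one_le_exp _
    have h2Λs : (2 : ℝ) ^ (Λ * s) ≤ exp (Λ * s) := by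
      calc (2 : ℝ) ^ (Λ * s) ≤ exp 1 ^ (Λ * s) := pow_le_pow_left₀ (by norm_num) hexp1 _
        _ = exp (Λ * s) := by rw [← exp_nat_mul, mul_one]; push_cast; rfl
    have h2s : (2 : ℝ) ^ s ≤ exp s := by
      calc (2 : ℝ) ^ s ≤ exp 1 ^ s := pow_le_pow_left₀ (by norm_num) hexp1 s
        _ = exp s := by rw [← exp_nat_mul, mul_one]
    have h4e : (8 : ℝ) ≤ exp (2 * s) := by
      calc (8 : ℝ) ≤ 2 ^ 4 := by norm_num
        _ ≤ exp 1 ^ 4 := pow_le_pow_left₀ (by norm_num) hexp1 4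
        _ = exp 4 := by rw [← exp_nat_mul]; norm_num
        _ ≤ exp (2 * s) := exp_le_exp.2 (by linarith)
    have hall : (Kc : ℝ) ^ (s - τ) ≤ (P * T) * (exp (2 * s) * exp (s * lgp) * exp (Λ * s) *
        exp (8 * Λ * s * lgp + s) * exp (Λ * s) * exp s) := by
      have hKcτ : (0 : ℝ) < (Kc : ℝ) ^ τ := by positivity
      have h1 : (Kc : ℝ) ^ (s - τ) * (Kc : ℝ) ^ τ ≤
          ((P * T) * (exp (2 * s) * exp (s * lgp) * exp (Λ * s) * exp (8 * Λ * s * lgp + s) *
            exp (Λ * s) * exp s)) * (Kc : ℝ) ^ τ := by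
        rw [← pow_add, Nat.sub_add_cancel hτs]
        calc (Kc : ℝ) ^ s = 4 * (1 / 4 * (Kc : ℝ) ^ s) := by ring
          _ ≤ 4 * (cf * (Kc : ℝ) ^ s) := by
              refine mul_le_mul_of_nonneg_left ?_ (by norm_num)
              exact mul_le_mul_of_nonneg_right hcf (by positivity)
          _ ≤ 4 * (2 * (P * ((2 * (cD * H * s)).choose s : ℝ) * ((T * 2 ^ (Λ * s)) * S)) *
                (((Λ * s : ℕ) + 1) * (2 ^ s * (Kc : ℝ) ^ τ))) :=
              mul_le_mul_of_nonneg_left hmain (by norm_num)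
          _ = (P * T) * (8 * ((2 * (cD * H * s)).choose s : ℝ) * 2 ^ (Λ * s) * S *
                (((Λ * s : ℕ) : ℝ) + 1) * 2 ^ s) * (Kc : ℝ) ^ τ := by ring
          _ ≤ _ := by
              refine mul_le_mul_of_nonneg_right ?_ hKcτ.le
              refine mul_le_mul_of_nonneg_left ?_ (by positivity)
              refine mul_le_mul ?_ h2s (by positivity) (by positivity)
              refine mul_le_mul ?_ hLexp (by positivity) (by positivity)
              refine mul_le_mul ?_ hS2 hS0 (by positivity)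
              refine mul_le_mul ?_ h2Λs (by positivity) (by positivity)
              exact mul_le_mul h4e hch (by positivity) (exp_pos _).le
      exact le_of_mul_le_mul_right h1 hKcτ
    have hPT : 0 < (P : ℝ) * T := by positivity
    have hlog : (s / 3) * (t * lgp) -
        (2 * s + s * lgp + Λ * s + (8 * Λ * s * lgp + s) + Λ * s + s) ≤ log (P * T) := by
      rw [le_log_iff_exp_le hPT]
      have h1 : exp ((s / 3) * (t * lgp)) ≤ (Kc : ℝ) ^ (s - τ) := by
        rw [hKcexp, ← exp_nat_mul, exp_le_exp]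
        have h2 : (s : ℝ) / 3 ≤ ((s - τ : ℕ) : ℝ) := by
          rw [Nat.cast_sub hτs]
          linarith
        exact mul_le_mul_of_nonneg_right h2 (by positivity)
      have h3 : exp (2 * s) * exp (s * lgp) * exp (Λ * s) * exp (8 * Λ * s * lgp + s) *
          exp (Λ * s) * exp s =
          exp (2 * s + s * lgp + Λ * s + (8 * Λ * s * lgp + s) + Λ * (s : ℝ) + s) := by
        rw [← exp_add, ← exp_add, ← exp_add, ← exp_add, ← exp_add]
      have h4 : exp ((s / 3) * (t * lgp)) =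
          exp ((s / 3) * (t * lgp) -
            (2 * s + s * lgp + Λ * s + (8 * Λ * s * lgp + s) + Λ * s + s)) *
            exp (2 * s + s * lgp + Λ * s + (8 * Λ * s * lgp + s) + Λ * (s : ℝ) + s) := by
        rw [← exp_add]
        congr 1
        ring
      have h5 := h1.trans hall
      rw [h3, h4] at h5
      exact le_of_mul_le_mul_right h5 (exp_pos _)
    refine le_trans ?_ hlog
    have h10 : (n : ℝ) / (P * (8 * u)) ≤ s := by
      rw [div_le_iff₀ (by positivity)]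
      have h11 : 0 ≤ (s : ℝ) * (P * u) := by positivity
      calc (n : ℝ) ≤ 2 * (s * (2 * (P * u))) := hns'
        _ = 4 * (s * (P * u)) := by ring
        _ ≤ 8 * (s * (P * u)) := by linarith
        _ = s * (P * (8 * u)) := by ring
    refine (hbound.trans h10).trans ?_
    rw [htr]
    have h12 : (s : ℝ) ≤ s * lgp := le_mul_of_one_le_right hs0.le hlgp1
    have h13 : (s : ℝ) * lgp ≤ Λ * (s * lgp) := le_mul_of_one_le_left (by positivity) hΛ'
    have h14 : (Λ : ℝ) * s ≤ Λ * (s * lgp) := mul_le_mul_of_nonneg_left h12 hΛ0.le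
    have h15 : (s : ℝ) / 3 * (60 * Λ * lgp) = 20 * (Λ * (s * lgp)) := by ring
    have h16 : 8 * (Λ : ℝ) * s * lgp = 8 * (Λ * (s * lgp)) := by ring
    rw [h15, h16]
    linarith
  · left
    push Not at hcase
    have hcase' : (n : ℝ) < 2 * (2 * (P * u)) := by
      rw [← huNr]
      exact_mod_cast hcase
    refine hbound.trans ?_
    rw [div_le_div_iff₀ (by positivity) (by norm_num)]
    linarith

end Pool.ADN
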