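import Mathlib

/-!
# Sums of Pfaffians for tests: the choice of the parameters
-/

set_option autoImplicit false

namespace Pool.HNN

open Real

/-- The sum over the index sets, for any upper bound `y` of `m x`. -/
theorem sum_choose_le {m k : ℕ} (hk : 1 ≤ k) (hkm : k ≤ m) {x y : ℝ} (hx : 0 ≤ x)
    (hxy : m * x ≤ y) (hy : (k : ℝ) ≤ y) :
    ∑ j ∈ Finset.range (k + 1), (Nat.choose (m - k - 1 + j) j : ℝ) * x ^ j ≤
      (exp 1 * y / k) ^ k := by
  have hk0 : (0 : ℝ) < k := by exact_mod_cast hk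
  have hy0 : 0 < y := lt_of_lt_of_le hk0 hy
  have h1 : 1 ≤ y / k := by rwa [le_div_iff₀ hk0, one_mul]
  have hmx : 0 ≤ m * x := by positivity
  have h2 : ∀ j ∈ Finset.range (k + 1), (Nat.choose (m - k - 1 + j) j : ℝ) * x ^ j ≤
      (y / k) ^ k * ((k : ℝ) ^ j / j.factorial) := by
    intro j hj
    rw [Finset.mem_range] at hj
    have h3 : (Nat.choose (m - k - 1 + j) j : ℝ) ≤ (m : ℝ) ^ j / j.factorial := by
      refine (Nat.choose_le_pow_div j (m - k - 1 + j)).trans ?_
      have h4 : ((m - k - 1 + j : ℕ) : ℝ) ≤ m := by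
        have : m - k - 1 + j ≤ m := by omega
        exact_mod_cast this
      gcongr
    calc (Nat.choose (m - k - 1 + j) j : ℝ) * x ^ j ≤ (m : ℝ) ^ j / j.factorial * x ^ j := by
          gcongr
      _ = (m * x) ^ j / j.factorial := by rw [mul_pow]; ring
      _ ≤ y ^ j / j.factorial := by gcongr
      _ = (y / k) ^ j * ((k : ℝ) ^ j / j.factorial) := by
          rw [div_pow]
          field_simp
      _ ≤ (y / k) ^ k * ((k : ℝ) ^ j / j.factorial) := by
          have h5 : (y / k) ^ j ≤ (y / k) ^ k := pow_le_pow_right₀ h1 (by omega)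
          gcongr
  calc ∑ j ∈ Finset.range (k + 1), (Nat.choose (m - k - 1 + j) j : ℝ) * x ^ j
      ≤ ∑ j ∈ Finset.range (k + 1), (y / k) ^ k * ((k : ℝ) ^ j / j.factorial) :=
        Finset.sum_le_sum h2
    _ = (y / k) ^ k * ∑ j ∈ Finset.range (k + 1), (k : ℝ) ^ j / j.factorial := by
        rw [Finset.mul_sum]
    _ ≤ (y / k) ^ k * exp k := by
        have h6 := sum_le_exp_of_nonneg hk0.le (k + 1)
        gcongr
    _ = (exp 1 * y / k) ^ k := by
        have h7 : exp (k : ℝ) = exp 1 ^ k := by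
          rw [← exp_nat_mul, mul_one]
        rw [h7, ← mul_pow]
        congr 1
        ring

theorem exp_ten_ge : (400 : ℝ) ≤ exp 10 := by
  have h1 : (2 : ℝ) ≤ exp 1 := by
    have := exp_one_gt_d9
    linarith
  have h2 : exp 10 = exp 1 ^ 10 := by
    rw [← exp_nat_mul]
    norm_num
  rw [h2]
  calc (400 : ℝ) ≤ 2 ^ 10 := by norm_num
    _ ≤ exp 1 ^ 10 := pow_le_pow_left₀ (by norm_num) h1 10

/-- The choice of `l`. -/
theorem choose_l2 {a : ℝ} (ha : 1 ≤ a) {μ : ℝ} (hμ : 1 ≤ μ) :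
    ∃ l : ℕ, 2 ≤ l ∧ a ^ 2 * μ * l ^ 2 ≤ 2 ^ l ∧
      (l : ℝ) ≤ 20 * a * (1 + log μ) ∧
      (2 : ℝ) ^ l ≤ 2 * exp 10 * a ^ 4 * (μ * (1 + log μ) ^ 2) := by
  set L : ℝ := 1 + log μ with hL
  have hμ0 : 0 < μ := by linarith
  have hL1 : 1 ≤ L := by
    have := log_nonneg hμ
    linarith
  have hL0 : 0 < L := by linarith
  have ha0 : 0 < a := by linarith
  have h10 := exp_ten_ge
  have h100 : 0 < exp 10 := by linarith
  set x : ℝ := exp 10 * a ^ 4 * (μ * L ^ 2) with hx
  have hx400 : 400 ≤ x := by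
    have h1 : 1 ≤ a ^ 4 := one_le_pow₀ ha
    have h2 : 1 ≤ μ * L ^ 2 := one_le_mul_of_one_le_of_one_le hμ (one_le_pow₀ hL1)
    calc (400 : ℝ) ≤ exp 10 := h10
      _ ≤ exp 10 * a ^ 4 := le_mul_of_one_le_right h100.le h1
      _ ≤ x := le_mul_of_one_le_right (by positivity) h2
  obtain ⟨p, hp1, hp2⟩ := exists_nat_pow_near (x := x) (y := 2) (by linarith) (by norm_num)
  have hp : 1 ≤ p := by
    by_contra hcon
    have : p = 0 := by omega
    subst this
    norm_num at hp2
    linarith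
  have hlogx : log x ≤ 10 * a * L := by
    have h1 : log x = 10 + 4 * log a + (log μ + 2 * log L) := by
      rw [hx, log_mul (by positivity) (by positivity), log_mul (by positivity) (by positivity),
        log_mul (by positivity) (by positivity), log_exp, log_pow, log_pow]
      push_cast
      ring
    have h2 : log a ≤ a - 1 := log_le_sub_one_of_pos ha0
    have h3 : log L ≤ L - 1 := log_le_sub_one_of_pos hL0
    have h4 : log μ = L - 1 := by rw [hL]; ring
    rw [h1, h4]
    nlinarith [mul_nonneg (sub_nonneg.2 ha) (sub_nonneg.2 hL1)]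
  have hplog : (p : ℝ) * log 2 ≤ log x := by
    have h1 : log ((2 : ℝ) ^ p) ≤ log x := log_le_log (by positivity) hp1
    rwa [log_pow] at h1
  have hl : ((p + 1 : ℕ) : ℝ) ≤ 20 * a * L := by
    have h1 : (0.69 : ℝ) ≤ log 2 := by
      have := log_two_gt_d9
      linarith
    have h2 : (p : ℝ) * 0.69 ≤ 10 * a * L :=
      (mul_le_mul_of_nonneg_left h1 (by positivity)).trans (hplog.trans hlogx)
    have h3 : 1 ≤ a * L := one_le_mul_of_one_le_of_one_le ha hL1
    push_cast
    nlinarith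
  refine ⟨p + 1, by omega, ?_, ?_, ?_⟩
  · calc a ^ 2 * μ * ((p + 1 : ℕ) : ℝ) ^ 2 ≤ a ^ 2 * μ * (20 * a * L) ^ 2 := by
          refine mul_le_mul_of_nonneg_left (pow_le_pow_left₀ (by positivity) hl 2) (by positivity)
      _ = 400 * (a ^ 4 * (μ * L ^ 2)) := by ring
      _ ≤ exp 10 * (a ^ 4 * (μ * L ^ 2)) := mul_le_mul_of_nonneg_right h10 (by positivity)
      _ = x := by rw [hx]; ring
      _ ≤ 2 ^ (p + 1) := hp2.le
  · exact hl
  · rw [pow_succ]
    calc (2 : ℝ) ^ p * 2 ≤ x * 2 := mul_le_mul_of_nonneg_right hp1 (by norm_num)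
      _ = 2 * exp 10 * a ^ 4 * (μ * L ^ 2) := by rw [hx]; ring


/-- The constant. -/
noncomputable def cstP (K : ℕ) : ℝ := 1 / (8 * K * (2 * exp 10 * (8 * K) ^ 4))

theorem cstP_pos {K : ℕ} (hK : 1 ≤ K) : 0 < cstP K := by
  have : (1 : ℝ) ≤ K := by exact_mod_cast hK
  have h2 := exp_pos 10
  unfold cstP
  positivity

/-- **The numerical part**, for sums of products of a polynomial of degree at most `ν` and a
Pfaffian of order at most `2 m` with entries of degree at most `d`. -/
theorem numericsP {K n m d ν T : ℕ} (hK : 1 ≤ K) (hn : 1 ≤ n) (hd : 1 ≤ d) (hT : 1 ≤ T)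
    (hnm : n ≤ 2 * (m * d)) {M L : ℝ} (hM : M = d * (1 + m / n)) (hL : L = 1 + log M)
    (hν : ν * L ^ 2 ≤ cstP K * n)
    (H : ∀ D l B : ℕ, 1 ≤ D → 1 ≤ l → 1 ≤ B → D < m → K * (D * (l * B + 2 ^ l)) ≤ n →
      ∀ q : ℝ, 0 < q → q < 1 → q ^ (ν + D * (d - 1)) * (2 - q ^ B) ^ (2 * D * l) ≤
        T * ∑ j ∈ Finset.range (2 * D + 1),
          ((2 * m - 2 * D - 1 + j).choose j : ℝ) * (1 - q ^ d) ^ j) :
    exp (cstP K * n / (M * L ^ 2)) ≤ 2 * T := by
  have hK' : (1 : ℝ) ≤ K := by exact_mod_cast hK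
  have hK0 : (0 : ℝ) < K := by linarith
  have hn' : (1 : ℝ) ≤ n := by exact_mod_cast hn
  have hn0 : (0 : ℝ) < n := by linarith
  have hd' : (1 : ℝ) ≤ d := by exact_mod_cast hd
  have hd0 : (0 : ℝ) < d := by linarith
  have hnm' : (n : ℝ) ≤ 2 * (m * d) := by exact_mod_cast hnm
  have hm0 : (0 : ℝ) ≤ m := Nat.cast_nonneg m
  have hT' : (1 : ℝ) ≤ T := by exact_mod_cast hT
  have hmn0 : 0 ≤ (m : ℝ) / n := by positivity
  have hMd : (d : ℝ) ≤ M := by
    rw [hM]
    nlinarith
  have hMmd : (m : ℝ) * d / n ≤ M := by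
    have h1 : (m : ℝ) * d / n = d * (m / n) := by ring
    rw [h1, hM]
    nlinarith
  have hM1 : 1 ≤ M := hd'.trans hMd
  have hM0 : 0 < M := by linarith
  have hL1 : 1 ≤ L := by
    have := log_nonneg hM1
    linarith
  have hL0 : 0 < L := by linarith
  obtain ⟨l, hl2, hl3, hl5, hl4⟩ := choose_l2 (a := 8 * K) (by linarith) hM1
  rw [← hL] at hl5 hl4
  set C : ℝ := 2 * exp 10 * (8 * K) ^ 4 with hC
  have h10 := exp_ten_ge
  have h100 := exp_pos 10
  have hC0 : 0 < C := by positivity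
  have hc : cstP K * (8 * K * C) = 1 := by
    unfold cstP
    rw [← hC]
    field_simp
  obtain ⟨G, hG⟩ : ∃ G : ℕ, G = 2 ^ l := ⟨_, rfl⟩
  have hG' : (G : ℝ) = 2 ^ l := by rw [hG]; push_cast; rfl
  rw [← hG'] at hl3 hl4
  have hG0 : (0 : ℝ) < G := by rw [hG']; positivity
  have hl2' : (2 : ℝ) ≤ l := by exact_mod_cast hl2
  have hl0 : (0 : ℝ) < l := by linarith
  have hlG : l ≤ G := by rw [hG]; exact Nat.lt_two_pow_self.le
  obtain ⟨B, hB⟩ : ∃ B : ℕ, B = G / l := ⟨_, rfl⟩
  have hB1 : 1 ≤ B := by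
    rw [hB, Nat.one_le_div_iff (by omega)]
    exact hlG
  have hB1' : (1 : ℝ) ≤ B := by exact_mod_cast hB1
  have hB0 : (0 : ℝ) < B := by linarith
  have hlB : l * B ≤ G := by rw [hB]; exact Nat.mul_div_le G l
  have hGB : G ≤ 2 * (l * B) := by
    have h1 : G < (B + 1) * l := by
      rw [hB]
      exact (Nat.div_lt_iff_lt_mul (by omega)).1 (by omega)
    have h2 : (B + 1) * l ≤ 2 * B * l := Nat.mul_le_mul_right _ (by omega)
    calc G ≤ 2 * B * l := h1.le.trans h2
      _ = _ := by ring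
  have hGB' : (G : ℝ) ≤ 2 * (l * B) := by exact_mod_cast hGB
  have hBG : B ≤ G := (Nat.le_mul_of_pos_left B (by omega)).trans hlB
  have hBG' : (B : ℝ) ≤ G := by exact_mod_cast hBG
  have hpos : 0 < 2 * K * G := by
    have : 0 < G := by exact_mod_cast hG0
    positivity
  have hKK : (K : ℝ) ≤ K * K := le_mul_of_one_le_left hK0.le hK'
  -- `B` is large
  have hBd : 32 * (d * (l : ℝ)) ≤ B := by
    have h1 : 64 * (d * (l : ℝ) ^ 2) ≤ 2 * (l * B) := by
      calc 64 * (d * (l : ℝ) ^ 2) ≤ 64 * (M * l ^ 2) := by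
            have : (d : ℝ) * l ^ 2 ≤ M * l ^ 2 := mul_le_mul_of_nonneg_right hMd (by positivity)
            linarith
        _ = 64 * (1 * (M * l ^ 2)) := by ring
        _ ≤ 64 * ((K * K) * (M * l ^ 2)) := by
            have h2 : 0 ≤ M * (l : ℝ) ^ 2 := by positivity
            exact mul_le_mul_of_nonneg_left (mul_le_mul_of_nonneg_right (hK'.trans hKK) h2)
              (by norm_num)
        _ = (8 * K) ^ 2 * M * l ^ 2 := by ring
        _ ≤ G := hl3
        _ ≤ 2 * (l * B) := hGB'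
    have h2 : (2 * (l : ℝ)) * (32 * (d * l)) ≤ (2 * l) * B := by
      calc (2 * (l : ℝ)) * (32 * (d * l)) = 64 * (d * (l : ℝ) ^ 2) := by ring
        _ ≤ 2 * (l * B) := h1
        _ = (2 * l) * B := by ring
    exact le_of_mul_le_mul_left h2 (by positivity)
  by_cases hcase : 2 * K * G ≤ n
  · obtain ⟨D, hDdef⟩ : ∃ D, D = n / (2 * K * G) := ⟨_, rfl⟩
    have hD1 : 1 ≤ D := by
      rw [hDdef, Nat.one_le_div_iff hpos]
      exact hcase
    have hDn0 : D * (2 * K * G) ≤ n := by rw [hDdef]; exact Nat.div_mul_le_self _ _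
    have hDn : K * (D * (l * B + 2 ^ l)) ≤ n := by
      calc K * (D * (l * B + 2 ^ l)) ≤ K * (D * (G + G)) := by
            refine Nat.mul_le_mul_left _ (Nat.mul_le_mul_left _ ?_)
            rw [← hG]
            omega
        _ = D * (2 * K * G) := by ring
        _ ≤ n := hDn0
    have hnD : n ≤ 4 * K * (D * G) := by
      have h1 : n < (D + 1) * (2 * K * G) := by
        rw [hDdef]
        exact (Nat.div_lt_iff_lt_mul hpos).1 (by omega)
      have h2 : (D + 1) * (2 * K * G) ≤ 2 * D * (2 * K * G) := Nat.mul_le_mul_right _ (by omega)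
      calc n ≤ 2 * D * (2 * K * G) := h1.le.trans h2
        _ = _ := by ring
    have hDn' : (D : ℝ) * (2 * K * G) ≤ n := by exact_mod_cast hDn0
    have hnD' : (n : ℝ) ≤ 4 * K * (D * G) := by exact_mod_cast hnD
    have hD1' : (1 : ℝ) ≤ D := by exact_mod_cast hD1
    have hD0 : (0 : ℝ) < D := by linarith
    have hDG : (D : ℝ) * G ≤ m * d := by
      have h1 : (D : ℝ) * G * (2 * 1) ≤ D * G * (2 * K) :=
        mul_le_mul_of_nonneg_left (by linarith) (by positivity)
      have h2 : (D : ℝ) * G * (2 * K) = D * (2 * K * G) := by ring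
      linarith
    have hDB : (D : ℝ) * B ≤ m * d := (mul_le_mul_of_nonneg_left hBG' hD0.le).trans hDG
    have hDm : D < m := by
      have h1 : (D : ℝ) * (32 * (d * l)) ≤ m * d :=
        (mul_le_mul_of_nonneg_left hBd hD0.le).trans hDB
      have h2 : d * ((D : ℝ) * 64) ≤ d * m := by
        calc d * ((D : ℝ) * 64) = D * (32 * (d * 2)) := by ring
          _ ≤ D * (32 * (d * l)) := by gcongr
          _ ≤ m * d := h1
          _ = d * m := by ring
      have h3 : (D : ℝ) * 64 ≤ m := le_of_mul_le_mul_left h2 hd0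
      have h4 : (D : ℝ) < m := by linarith
      exact_mod_cast h4
    -- the choice of q
    set lam : ℝ := log (2 * l) with hlam
    have hlam1 : 1 ≤ lam := by
      have h1 : log 4 ≤ lam := log_le_log (by norm_num) (by linarith)
      have h2 : log 4 = 2 * log 2 := by
        rw [show (4 : ℝ) = 2 ^ 2 by norm_num, log_pow]
        push_cast
        ring
      have h3 := log_two_gt_d9
      linarith
    have hlam2 : lam ≤ l := by
      have h1 : log (2 * l / 2) ≤ 2 * l / 2 - 1 := log_le_sub_one_of_pos (by positivity)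
      have h2 : log (2 * l / 2 : ℝ) = lam - log 2 := by
        rw [log_div (by positivity) (by norm_num)]
      have h3 := log_two_lt_d9
      rw [h2] at h1
      linarith
    set q : ℝ := exp (-(lam / B)) with hq
    have hq0 : 0 < q := exp_pos _
    have hq1 : q < 1 := by
      rw [hq, exp_lt_one_iff]
      have : 0 < lam / B := by positivity
      linarith
    have hqk : ∀ k : ℕ, q ^ k = exp (-(k * lam / B)) := by
      intro k
      rw [hq, ← exp_nat_mul]
      congr 1
      ring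
    have hqB : q ^ B = 1 / (2 * l) := by
      rw [hqk]
      have h1 : (B : ℝ) * lam / B = lam := by field_simp
      rw [h1, exp_neg, hlam, exp_log (by positivity), one_div]
    have hq2 : 1 - q ^ d ≤ d * lam / B := by
      rw [hqk]
      have := add_one_le_exp (-(d * lam / B))
      linarith
    have hq3 : 0 ≤ 1 - q ^ d := by
      have : q ^ d ≤ 1 := pow_le_one₀ hq0.le hq1.le
      linarith
    have hmain := H D l B hD1 (by omega) hB1 hDm hDn q hq0 hq1
    rw [hqB] at hmain
    -- the loss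
    have hloss : exp (-(D / 2)) ≤ q ^ (ν + D * (d - 1)) := by
      rw [hqk, exp_le_exp, neg_le_neg_iff]
      have h1 : ((D * (d - 1) : ℕ) : ℝ) ≤ D * d := by
        have : D * (d - 1) ≤ D * d := Nat.mul_le_mul_left D (Nat.sub_le d 1)
        exact_mod_cast this
      have h2 : ((D * (d - 1) : ℕ) : ℝ) * lam / B ≤ D / 32 := by
        rw [div_le_iff₀ hB0]
        calc ((D * (d - 1) : ℕ) : ℝ) * lam ≤ D * d * l := by
              refine mul_le_mul h1 hlam2 (by linarith) (by positivity)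
          _ = D / 32 * (32 * (d * l)) := by ring
          _ ≤ D / 32 * B := mul_le_mul_of_nonneg_left hBd (by positivity)
      have h3 : (ν : ℝ) * lam / B ≤ D / 4 := by
        have h4 : (ν : ℝ) * l ^ 2 * (32 * K) ≤ n := by
          have h5 : (l : ℝ) ^ 2 ≤ (20 * (8 * K) * L) ^ 2 := pow_le_pow_left₀ hl0.le hl5 2
          have h6 : (ν : ℝ) * l ^ 2 ≤ (20 * (8 * K)) ^ 2 * (ν * L ^ 2) := by
            calc (ν : ℝ) * l ^ 2 ≤ ν * (20 * (8 * K) * L) ^ 2 :=
                  mul_le_mul_of_nonneg_left h5 (by positivity)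
              _ = _ := by ring
          have h7 : (ν : ℝ) * l ^ 2 ≤ (20 * (8 * K)) ^ 2 * (cstP K * n) :=
            h6.trans (mul_le_mul_of_nonneg_left hν (by positivity))
          have h8 : (20 * (8 * K)) ^ 2 * (32 * K) ≤ 8 * K * C := by
            rw [hC]
            have h9 : (1 : ℝ) ≤ K * K := hK'.trans hKK
            have h10' : 8 * (K : ℝ) * (2 * 400 * (8 * K) ^ 4) ≤
                8 * K * (2 * exp 10 * (8 * K) ^ 4) := by gcongr
            refine le_trans ?_ h10'
            have h11 : (20 * (8 * (K : ℝ))) ^ 2 * (32 * K) = 819200 * (K * (K * K)) := by ring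
            have h12 : 8 * (K : ℝ) * (2 * 400 * (8 * K) ^ 4) =
                26214400 * ((K * (K * K)) * (K * K)) := by ring
            rw [h11, h12]
            have h13 : 0 ≤ (K : ℝ) * (K * K) := by positivity
            have h14 : (K : ℝ) * (K * K) * 1 ≤ (K * (K * K)) * (K * K) :=
              mul_le_mul_of_nonneg_left h9 h13
            rw [mul_one] at h14
            linarith
          have hn1 : (20 * (8 * K)) ^ 2 * (cstP K * n) * (32 * K) =
              ((20 * (8 * K)) ^ 2 * (32 * K)) * (cstP K * n) := by ring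
          have hc1 : 0 ≤ cstP K * n := mul_nonneg (cstP_pos hK).le hn0.le
          calc (ν : ℝ) * l ^ 2 * (32 * K) ≤ (20 * (8 * K)) ^ 2 * (cstP K * n) * (32 * K) :=
                mul_le_mul_of_nonneg_right h7 (by positivity)
            _ = ((20 * (8 * K)) ^ 2 * (32 * K)) * (cstP K * n) := hn1
            _ ≤ (8 * K * C) * (cstP K * n) := mul_le_mul_of_nonneg_right h8 hc1
            _ = (cstP K * (8 * K * C)) * n := by ring
            _ = n := by rw [hc, one_mul]
        rw [div_le_iff₀ hB0]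
        have h5 : (ν : ℝ) * l ^ 2 * (32 * K) ≤ 4 * K * (D * (2 * (l * B))) :=
          h4.trans (hnD'.trans (mul_le_mul_of_nonneg_left (mul_le_mul_of_nonneg_left hGB' hD0.le)
            (by positivity)))
        have h6 : (32 * K * l) * ((ν : ℝ) * l) ≤ (32 * K * l) * (D / 4 * B) := by
          calc (32 * K * l) * ((ν : ℝ) * l) = (ν : ℝ) * l ^ 2 * (32 * K) := by ring
            _ ≤ 4 * K * (D * (2 * (l * B))) := h5
            _ = (32 * K * l) * (D / 4 * B) := by ring
        have h7 := le_of_mul_le_mul_left h6 (by positivity)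
        exact (mul_le_mul_of_nonneg_left hlam2 (by positivity)).trans h7
      calc ((ν + D * (d - 1) : ℕ) : ℝ) * lam / B
          = (ν : ℝ) * lam / B + ((D * (d - 1) : ℕ) : ℝ) * lam / B := by push_cast; ring
        _ ≤ D / 4 + D / 32 := add_le_add h3 h2
        _ ≤ D / 2 := by linarith
    -- the left side
    have hleft : ((G : ℝ) ^ 2 / 2) ^ D ≤ (2 - 1 / (2 * l)) ^ (2 * D * l) := by
      have h1 : (1 : ℝ) / 2 ≤ (1 - 1 / (4 * l)) ^ (2 * l) := by
        have h2 := one_add_mul_le_pow (a := -(1 / (4 * l : ℝ))) (by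
          have : (1 : ℝ) / (4 * l) ≤ 1 / 4 := by
            apply one_div_le_one_div_of_le (by norm_num)
            linarith
          linarith) (2 * l)
        have h3 : 1 + ((2 * l : ℕ) : ℝ) * -(1 / (4 * l)) = 1 / 2 := by
          push_cast
          field_simp
          norm_num
        rw [h3] at h2
        calc (1 : ℝ) / 2 ≤ (1 + -(1 / (4 * l : ℝ))) ^ (2 * l) := h2
          _ = (1 - 1 / (4 * l)) ^ (2 * l) := by rw [← sub_eq_add_neg]
      have h4 : (G : ℝ) ^ 2 / 2 ≤ (2 - 1 / (2 * l)) ^ (2 * l) := by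
        have h5 : (2 - 1 / (2 * l) : ℝ) = 2 * (1 - 1 / (4 * l)) := by
          field_simp
          ring
        have h6 : (G : ℝ) ^ 2 = 2 ^ (2 * l) := by
          rw [hG', ← pow_mul, mul_comm]
        rw [h5, mul_pow, h6, div_eq_mul_one_div]
        exact mul_le_mul_of_nonneg_left h1 (by positivity)
      calc ((G : ℝ) ^ 2 / 2) ^ D ≤ ((2 - 1 / (2 * l)) ^ (2 * l)) ^ D :=
            pow_le_pow_left₀ (by positivity) h4 _
        _ = (2 - 1 / (2 * l)) ^ (2 * D * l) := by rw [← pow_mul]; congr 1; ring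
    -- the right side
    set y : ℝ := 2 * (m * (d * lam / B)) with hy
    have hyD : ((2 * D : ℕ) : ℝ) ≤ y := by
      push_cast
      rw [hy]
      have h1 : (D : ℝ) ≤ m * (d * lam / B) := by
        rw [mul_div_assoc', le_div_iff₀ hB0]
        calc (D : ℝ) * B ≤ m * d := hDB
          _ = m * d * 1 := (mul_one _).symm
          _ ≤ m * d * lam := mul_le_mul_of_nonneg_left hlam1 (by positivity)
          _ = m * (d * lam) := by ring
      linarith
    have hsum := sum_choose_le (m := 2 * m) (k := 2 * D) (by omega) (by omega) hq3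
      (y := y) (by
        push_cast
        rw [hy, mul_assoc]
        exact mul_le_mul_of_nonneg_left (mul_le_mul_of_nonneg_left hq2 hm0) (by norm_num)) hyD
    have hbase : exp 1 * y / ((2 * D : ℕ) : ℝ) ≤ exp 1 * G / 8 := by
      have h0 : exp 1 * y / ((2 * D : ℕ) : ℝ) = exp 1 * (m * d * lam / (D * B)) := by
        push_cast
        rw [hy]
        field_simp
      have h1 : m * d * lam / (D * B) ≤ G / 8 := by
        have h3 : m * d * lam / (D * B) ≤ 8 * K * M * l ^ 2 := by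
          have h4 : (n : ℝ) ≤ 4 * K * (D * (2 * (l * B))) :=
            hnD'.trans (mul_le_mul_of_nonneg_left (mul_le_mul_of_nonneg_left hGB' hD0.le)
              (by positivity))
          have h5 : (m : ℝ) * d ≤ M * n := by rwa [div_le_iff₀ hn0] at hMmd
          rw [div_le_iff₀ (by positivity)]
          calc m * d * lam ≤ (M * (4 * K * (D * (2 * (l * B))))) * l := by
                refine mul_le_mul (h5.trans (mul_le_mul_of_nonneg_left h4 hM0.le)) hlam2
                  (by linarith) (by positivity)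
            _ = 8 * K * M * l ^ 2 * (D * B) := by ring
        have h5 : 8 * K * M * l ^ 2 * 8 ≤ (8 * K : ℝ) ^ 2 * M * l ^ 2 := by
          have h7 : 0 ≤ M * (l : ℝ) ^ 2 := by positivity
          calc 8 * K * M * l ^ 2 * 8 = 64 * (K * (M * l ^ 2)) := by ring
            _ ≤ 64 * (K * K * (M * l ^ 2)) :=
                mul_le_mul_of_nonneg_left (mul_le_mul_of_nonneg_right hKK h7) (by norm_num)
            _ = (8 * K : ℝ) ^ 2 * M * l ^ 2 := by ring
        linarith
      rw [h0]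
      calc exp 1 * (m * d * lam / (D * B)) ≤ exp 1 * (G / 8) :=
            mul_le_mul_of_nonneg_left h1 (exp_pos 1).le
        _ = exp 1 * G / 8 := by ring
    set Sg : ℝ := ∑ j ∈ Finset.range (2 * D + 1),
      (Nat.choose (2 * m - 2 * D - 1 + j) j : ℝ) * (1 - q ^ d) ^ j with hSg
    have hy0 : 0 ≤ exp 1 * y / ((2 * D : ℕ) : ℝ) := by
      have : 0 ≤ y := (Nat.cast_nonneg (2 * D)).trans hyD
      positivity
    have hSg1 : Sg ≤ (exp 1 * G / 8) ^ (2 * D) := hsum.trans (pow_le_pow_left₀ hy0 hbase _)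
    have hlp : 0 < (2 - 1 / (2 * (l : ℝ))) ^ (2 * D * l) :=
      lt_of_lt_of_le (by positivity) hleft
    have h1 : exp (-(D / 2)) * ((G : ℝ) ^ 2 / 2) ^ D ≤ T * (exp 1 * G / 8) ^ (2 * D) := by
      calc exp (-(D / 2)) * ((G : ℝ) ^ 2 / 2) ^ D
          ≤ q ^ (ν + D * (d - 1)) * (2 - 1 / (2 * l)) ^ (2 * D * l) :=
            mul_le_mul hloss hleft (by positivity) (pow_pos hq0 _).le
        _ ≤ T * Sg := hmain
        _ ≤ _ := mul_le_mul_of_nonneg_left hSg1 (by linarith)
    have h2 : (exp 1 * G / 8) ^ (2 * D) = ((exp 1) ^ 2 / 32) ^ D * ((G : ℝ) ^ 2 / 2) ^ D := by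
      rw [← mul_pow, pow_mul]
      congr 1
      ring
    rw [h2, ← mul_assoc] at h1
    have h3 : 0 < ((G : ℝ) ^ 2 / 2) ^ D := by positivity
    have h4 : exp (-(D / 2)) ≤ T * ((exp 1) ^ 2 / 32) ^ D := le_of_mul_le_mul_right h1 h3
    have h5 : (exp 1) ^ 2 / 32 ≤ exp (-1) := by
      have h6 : exp 1 < 2.7182818286 := exp_one_lt_d9
      have h7 : 0 < exp 1 := exp_pos 1
      rw [exp_neg, le_inv_comm₀ (by positivity) h7]
      rw [inv_div, le_div_iff₀ (by positivity)]
      have h8 : exp 1 * exp 1 ^ 2 ≤ 2.7182818286 * 2.7182818286 ^ 2 :=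
        mul_le_mul h6.le (pow_le_pow_left₀ h7.le h6.le 2) (by positivity) (by norm_num)
      calc exp 1 * exp 1 ^ 2 ≤ 2.7182818286 * 2.7182818286 ^ 2 := h8
        _ ≤ 32 := by norm_num
    have h6 : exp (D / 2) ≤ T := by
      have h7 : ((exp 1) ^ 2 / 32) ^ D ≤ exp (-1) ^ D := pow_le_pow_left₀ (by positivity) h5 _
      have h8 : exp (-(D / 2)) ≤ T * exp (-1) ^ D :=
        h4.trans (mul_le_mul_of_nonneg_left h7 (by linarith))
      have h9 : exp (-1) ^ D = exp (-(D / 2)) * (exp (D / 2))⁻¹ := by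
        rw [← exp_nat_mul, ← exp_neg, ← exp_add]
        congr 1
        ring
      rw [h9] at h8
      have h10 : exp (-(D / 2)) * exp (D / 2) ≤ exp (-(D / 2)) * T := by
        calc exp (-(D / 2)) * exp (D / 2)
            ≤ (T * (exp (-(D / 2)) * (exp (D / 2))⁻¹)) * exp (D / 2) :=
              mul_le_mul_of_nonneg_right h8 (exp_pos _).le
          _ = exp (-(D / 2)) * T * ((exp (D / 2))⁻¹ * exp (D / 2)) := by ring
          _ = exp (-(D / 2)) * T := by rw [inv_mul_cancel₀ (exp_pos _).ne', mul_one]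
      exact le_of_mul_le_mul_left h10 (exp_pos _)
    have h7 : cstP K * n / (M * L ^ 2) ≤ D / 2 := by
      rw [div_le_iff₀ (by positivity)]
      have h8 : (n : ℝ) ≤ 4 * K * D * (C * (M * L ^ 2)) := by
        calc (n : ℝ) ≤ 4 * K * (D * G) := hnD'
          _ = 4 * K * D * G := by ring
          _ ≤ 4 * K * D * (C * (M * L ^ 2)) := mul_le_mul_of_nonneg_left hl4 (by positivity)
      calc cstP K * n ≤ cstP K * (4 * K * D * (C * (M * L ^ 2))) :=
            mul_le_mul_of_nonneg_left h8 (cstP_pos hK).le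
        _ = (cstP K * (8 * K * C)) * (D / 2 * (M * L ^ 2)) := by ring
        _ = D / 2 * (M * L ^ 2) := by rw [hc, one_mul]
    calc exp (cstP K * n / (M * L ^ 2)) ≤ exp (D / 2) := exp_le_exp.2 h7
      _ ≤ T := h6
      _ ≤ 2 * T := by linarith
  · push Not at hcase
    have h1 : (n : ℝ) ≤ 2 * K * G := by exact_mod_cast hcase.le
    have h3 : (n : ℝ) ≤ 2 * K * (C * (M * L ^ 2)) :=
      h1.trans (mul_le_mul_of_nonneg_left hl4 (by positivity))
    have h4 : cstP K * n / (M * L ^ 2) ≤ log 2 := by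
      rw [div_le_iff₀ (by positivity)]
      have h5 := log_two_gt_d9
      calc cstP K * n ≤ cstP K * (2 * K * (C * (M * L ^ 2))) :=
            mul_le_mul_of_nonneg_left h3 (cstP_pos hK).le
        _ = (cstP K * (8 * K * C)) * (1 / 4 * (M * L ^ 2)) := by ring
        _ = 1 / 4 * (M * L ^ 2) := by rw [hc, one_mul]
        _ ≤ log 2 * (M * L ^ 2) := mul_le_mul_of_nonneg_right (by linarith) (by positivity)
    calc exp (cstP K * n / (M * L ^ 2)) ≤ exp (log 2) := exp_le_exp.2 h4
      _ = 2 := exp_log (by norm_num)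
      _ ≤ 2 * T := by linarith

/-- The final form: `n` is at most the degree `m d + ν` of the sums. -/
theorem HNP (K : ℕ) (hK : 1 ≤ K) : ∃ c : ℝ, 0 < c ∧ ∀ n m d ν T : ℕ, 1 ≤ n → 1 ≤ d → 1 ≤ T →
    n ≤ m * d + ν → ∀ M L : ℝ, M = d * (1 + m / n) → L = 1 + log M → ν * L ^ 2 ≤ c * n →
    (∀ D l B : ℕ, 1 ≤ D → 1 ≤ l → 1 ≤ B → D < m → K * (D * (l * B + 2 ^ l)) ≤ n →
      ∀ q : ℝ, 0 < q → q < 1 → q ^ (ν + D * (d - 1)) * (2 - q ^ B) ^ (2 * D * l) ≤
        T * ∑ j ∈ Finset.range (2 * D + 1),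
          ((2 * m - 2 * D - 1 + j).choose j : ℝ) * (1 - q ^ d) ^ j) →
    exp (c * n / (M * L ^ 2)) ≤ 2 * T := by
  refine ⟨cstP K, cstP_pos hK, fun n m d ν T hn hd hT hnm M L hM hL hν H => ?_⟩
  refine numericsP hK hn hd hT ?_ hM hL hν H
  have hK' : (1 : ℝ) ≤ K := by exact_mod_cast hK
  have hn0 : (0 : ℝ) < n := by exact_mod_cast hn
  have hd' : (1 : ℝ) ≤ d := by exact_mod_cast hd
  have hmn0 : 0 ≤ (m : ℝ) / n := by positivity
  have hM1 : 1 ≤ M := by
    rw [hM]
    nlinarith
  have hL1 : 1 ≤ L := by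
    have := log_nonneg hM1
    linarith
  have h1 : (ν : ℝ) ≤ ν * L ^ 2 := le_mul_of_one_le_right (Nat.cast_nonneg _) (one_le_pow₀ hL1)
  have h2 : cstP K ≤ 1 / 2 := by
    unfold cstP
    refine one_div_le_one_div_of_le (by norm_num) ?_
    have h3 : (1 : ℝ) ≤ exp 10 := by
      have := exp_ten_ge
      linarith
    have h4 : (1 : ℝ) ≤ (8 * K) ^ 4 := one_le_pow₀ (by linarith)
    have h5 : (1 : ℝ) ≤ exp 10 * (8 * K) ^ 4 := one_le_mul_of_one_le_of_one_le h3 h4
    have h6 : (1 : ℝ) * 1 ≤ K * (exp 10 * (8 * K) ^ 4) :=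
      mul_le_mul hK' h5 (by norm_num) (by linarith)
    calc (2 : ℝ) ≤ 16 * (K * (exp 10 * (8 * K) ^ 4)) := by linarith
      _ = 8 * K * (2 * exp 10 * (8 * K) ^ 4) := by ring
  have h3 : (ν : ℝ) ≤ 1 / 2 * n :=
    h1.trans (hν.trans (mul_le_mul_of_nonneg_right h2 hn0.le))
  have h4 : 2 * (ν : ℝ) ≤ n := by linarith
  have h5 : 2 * ν ≤ n := by exact_mod_cast h4
  omega

end Pool.HNN
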