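import Mathlib
import Pool.Agent.Helper91.HN.Num5

/-!
# Adaptive algorithms, words of bits: the choice of the parameters
-/

set_option autoImplicit false

namespace Pool.ADN

open Real

/-- the volume of a ball of relative radius `1/4` -/
theorem vol_le {M τ : ℕ} (hτ : 2 * τ ≤ M + 1) :
    ∑ j ∈ Finset.range τ, ((2 * M).choose j : ℝ) * exp (M / 4) ≤ 2 ^ (2 * M) := by
  rcases Nat.eq_zero_or_pos τ with h0 | h0
  · subst h0
    simp only [Finset.range_zero, Finset.sum_empty]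
    positivity
  obtain ⟨s, hs⟩ : ∃ s, τ = s + 1 := ⟨τ - 1, by omega⟩
  subst hs
  have h2s : 2 * s ≤ M := by omega
  have h1 : ∀ j ∈ Finset.range (s + 1), ((2 * M).choose j : ℝ) ≤
      (3 : ℝ) ^ s * (((2 * M).choose j : ℝ) * (1 / 3) ^ j) := by
    intro j hj
    have hj' : j ≤ s := by
      have := Finset.mem_range.1 hj
      omega
    have h2 : (1 : ℝ) ≤ (3 : ℝ) ^ s * (1 / 3) ^ j := by
      rw [one_div, inv_pow, ← div_eq_mul_inv, le_div_iff₀ (by positivity), one_mul]
      exact pow_le_pow_right₀ (by norm_num) hj'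
    calc ((2 * M).choose j : ℝ) = ((2 * M).choose j : ℝ) * 1 := (mul_one _).symm
      _ ≤ ((2 * M).choose j : ℝ) * ((3 : ℝ) ^ s * (1 / 3) ^ j) :=
          mul_le_mul_of_nonneg_left h2 (by positivity)
      _ = _ := by ring
  have h3 : ∑ j ∈ Finset.range (s + 1), ((2 * M).choose j : ℝ) * (1 / 3) ^ j ≤
      (4 / 3 : ℝ) ^ (2 * M) := by
    have h4 : (4 / 3 : ℝ) ^ (2 * M) =
        ∑ j ∈ Finset.range (2 * M + 1), ((2 * M).choose j : ℝ) * (1 / 3) ^ j := by
      rw [show (4 / 3 : ℝ) = 1 / 3 + 1 by norm_num, add_pow]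
      refine Finset.sum_congr rfl fun j _ => ?_
      rw [one_pow, mul_one, mul_comm]
    rw [h4]
    exact Finset.sum_le_sum_of_subset_of_nonneg (Finset.range_mono (by omega))
      fun j _ _ => by positivity
  have h5 : (3 : ℝ) ^ s ≤ (√3) ^ M := by
    calc (3 : ℝ) ^ s = ((√3) ^ 2) ^ s := by rw [sq_sqrt (by norm_num)]
      _ = (√3) ^ (2 * s) := by rw [← pow_mul]
      _ ≤ (√3) ^ M := pow_le_pow_right₀ (by
          rw [show (1 : ℝ) = √1 by rw [sqrt_one]]
          exact sqrt_le_sqrt (by norm_num)) h2s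
  have h6 : (√3) * (16 / 9) * exp (1 / 4) ≤ 4 := by
    have h7 : √3 ≤ 1.7321 := by
      rw [sqrt_le_iff]
      norm_num
    have h8 : exp (1 / 4) ≤ 1.2844 := by
      have h9 : exp (1 / 4) ^ 4 = exp 1 := by
        rw [← exp_nat_mul]
        norm_num
      have h10 := exp_one_lt_d9
      by_contra hcon
      push Not at hcon
      have h11 : (1.2844 : ℝ) ^ 4 < exp (1 / 4) ^ 4 := pow_lt_pow_left₀ hcon (by norm_num) (by norm_num)
      rw [h9] at h11
      norm_num at h11
      linarith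
    have h9 : 0 ≤ √(3 : ℝ) := sqrt_nonneg _
    calc √3 * (16 / 9) * exp (1 / 4) ≤ 1.7321 * (16 / 9) * 1.2844 :=
          mul_le_mul (mul_le_mul_of_nonneg_right h7 (by norm_num)) h8 (exp_pos _).le (by norm_num)
      _ ≤ 4 := by norm_num
  rw [← Finset.sum_mul]
  calc (∑ j ∈ Finset.range (s + 1), ((2 * M).choose j : ℝ)) * exp (M / 4)
      ≤ (∑ j ∈ Finset.range (s + 1), (3 : ℝ) ^ s * (((2 * M).choose j : ℝ) * (1 / 3) ^ j)) *
        exp (M / 4) := mul_le_mul_of_nonneg_right (Finset.sum_le_sum h1) (exp_pos _).le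
    _ = ((3 : ℝ) ^ s * ∑ j ∈ Finset.range (s + 1), ((2 * M).choose j : ℝ) * (1 / 3) ^ j) *
        exp (M / 4) := by rw [Finset.mul_sum]
    _ ≤ ((√3) ^ M * (4 / 3 : ℝ) ^ (2 * M)) * exp (M / 4) := by
        refine mul_le_mul_of_nonneg_right ?_ (exp_pos _).le
        exact mul_le_mul h5 h3 (Finset.sum_nonneg fun j _ => by positivity) (by positivity)
    _ = (√3 * (16 / 9) * exp (1 / 4)) ^ M := by
        rw [mul_pow, mul_pow, ← exp_nat_mul, pow_mul, show (4 / 3 : ℝ) ^ 2 = 16 / 9 by norm_num]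
        congr 2
        ring
    _ ≤ 4 ^ M := pow_le_pow_left₀ (by positivity) h6 M
    _ = 2 ^ (2 * M) := by rw [pow_mul]; norm_num

/-- The choice of `l`. -/
theorem choose_l {K Λ M e : ℕ} (hK : 1 ≤ K) (hΛ : 1 ≤ Λ) (hM : 1 ≤ M)
    (he : 1 ≤ e) :
    ∃ l : ℕ, 16000 * Λ ≤ l ∧ 4800 * Λ * e ≤ 2 ^ l ∧
      100 * (Λ : ℝ) * log (16000 * K * Λ * M * l) ≤ l ∧
      (2 : ℝ) ^ l ≤ 4 * e * ((10000000 * K * Λ * M : ℕ) : ℝ) ^ (1000 * Λ) := by
  obtain ⟨G, hG⟩ : ∃ G : ℕ, G = 10000000 * K * Λ * M := ⟨_, rfl⟩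
  have hK' : (1 : ℝ) ≤ K := by exact_mod_cast hK
  have hΛ' : (1 : ℝ) ≤ Λ := by exact_mod_cast hΛ
  have hM' : (1 : ℝ) ≤ M := by exact_mod_cast hM
  have he' : (1 : ℝ) ≤ e := by exact_mod_cast he
  have hΛ0 : (0 : ℝ) < Λ := by linarith
  have hGr : (G : ℝ) = 10000000 * K * Λ * M := by rw [hG]; push_cast; ring
  have hKM : 1 ≤ (K : ℝ) * M := one_le_mul_of_one_le_of_one_le hK' hM'
  have hGbig : 10000000 * (Λ : ℝ) ≤ G := by
    rw [hGr]
    calc 10000000 * (Λ : ℝ) = 10000000 * Λ * 1 := by ring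
      _ ≤ 10000000 * Λ * (K * M) := mul_le_mul_of_nonneg_left hKM (by positivity)
      _ = _ := by ring
  have hG0 : (0 : ℝ) < G := by linarith
  obtain ⟨g, hg⟩ : ∃ g : ℝ, g = log G := ⟨_, rfl⟩
  have hg16 : 16 ≤ g := by
    rw [hg, le_log_iff_exp_le hG0]
    have h1 : exp 16 ≤ 10000000 := by
      have h2 : exp 16 = exp 1 ^ 16 := by
        rw [← exp_nat_mul]
        norm_num
      have h3 := exp_one_lt_d9
      rw [h2]
      calc exp 1 ^ 16 ≤ 2.7182818286 ^ 16 := pow_le_pow_left₀ (exp_pos _).le h3.le 16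
        _ ≤ 10000000 := by norm_num
    linarith
  have hg0 : 0 < g := by linarith
  obtain ⟨l₁, hl₁⟩ : ∃ l₁ : ℕ, l₁ = ⌈1000 * (Λ : ℝ) * g⌉₊ := ⟨_, rfl⟩
  have hΛg : 1 ≤ (Λ : ℝ) * g := one_le_mul_of_one_le_of_one_le hΛ' (by linarith)
  have hl1 : 1000 * (Λ : ℝ) * g ≤ l₁ := by rw [hl₁]; exact Nat.le_ceil _
  have hl2 : (l₁ : ℝ) < 1000 * (Λ : ℝ) * g + 1 := by
    rw [hl₁]
    exact Nat.ceil_lt_add_one (by positivity)
  have hl3 : 16000 * (Λ : ℝ) ≤ l₁ := by
    calc 16000 * (Λ : ℝ) = 1000 * Λ * 16 := by ring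
      _ ≤ 1000 * Λ * g := mul_le_mul_of_nonneg_left hg16 (by positivity)
      _ ≤ l₁ := hl1
  have hl3' : 16000 * Λ ≤ l₁ := by exact_mod_cast hl3
  have hl0 : (0 : ℝ) < l₁ := by linarith
  obtain ⟨s, hs⟩ : ∃ s : ℕ, s = Nat.clog 2 e := ⟨_, rfl⟩
  have hs1 : e ≤ 2 ^ s := by rw [hs]; exact Nat.le_pow_clog (by norm_num) e
  have hs2 : 2 ^ s ≤ 2 * e := by
    rcases Nat.eq_or_lt_of_le he with h | h
    · rw [hs, ← h]
      simp
    · have h1 : 2 ^ (s - 1) < e := by rw [hs]; exact Nat.pow_pred_clog_lt_self (by norm_num) h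
      have h2 : 0 < s := by rw [hs]; exact Nat.clog_pos (by norm_num) h
      have h3 : 2 ^ s = 2 * 2 ^ (s - 1) := by
        rw [← pow_succ']
        congr 1
        omega
      omega
  refine ⟨l₁ + s, by omega, ?_, ?_, ?_⟩
  · rw [pow_add]
    refine Nat.mul_le_mul ?_ hs1
    calc 4800 * Λ ≤ l₁ := by omega
      _ ≤ 2 ^ l₁ := Nat.lt_two_pow_self.le
  · have h1 : log (16000 * K * Λ * M * ((l₁ + s : ℕ) : ℝ)) ≤ g + log l₁ + s / l₁ := by
      have h2 : 16000 * (K : ℝ) * Λ * M ≤ G := by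
        rw [hGr]
        have : 0 ≤ (K : ℝ) * Λ * M := by positivity
        calc 16000 * (K : ℝ) * Λ * M = 16000 * (K * Λ * M) := by ring
          _ ≤ 10000000 * (K * Λ * M) := mul_le_mul_of_nonneg_right (by norm_num) this
          _ = _ := by ring
      have h3 : ((l₁ + s : ℕ) : ℝ) = l₁ * (1 + s / l₁) := by
        push_cast
        field_simp
      have h4 : log (1 + (s : ℝ) / l₁) ≤ s / l₁ := by
        have := log_le_sub_one_of_pos (x := 1 + (s : ℝ) / l₁) (by positivity)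
        linarith
      calc log (16000 * K * Λ * M * ((l₁ + s : ℕ) : ℝ))
          ≤ log (G * ((l₁ + s : ℕ) : ℝ)) := by
            have hK0 : (0 : ℝ) < K := by linarith
            have hM0 : (0 : ℝ) < M := by linarith
            have hls : (0 : ℝ) < ((l₁ + s : ℕ) : ℝ) := by
              push_cast
              positivity
            refine log_le_log (by positivity) ?_
            exact mul_le_mul_of_nonneg_right h2 (by positivity)
        _ = g + log l₁ + log (1 + (s : ℝ) / l₁) := by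
            have h6 : (0 : ℝ) < 1 + s / l₁ := by positivity
            rw [h3, log_mul hG0.ne' (mul_pos hl0 h6).ne', log_mul hl0.ne' h6.ne', ← hg]
            ring
        _ ≤ g + log l₁ + s / l₁ := by linarith
    have h5 : log (l₁ : ℝ) ≤ 3 * g := by
      have h6 : (l₁ : ℝ) ≤ 2000 * Λ * g := by linarith
      have h7 : log (2000 * (Λ : ℝ)) ≤ g := by
        rw [hg]
        refine log_le_log (by positivity) ?_
        linarith
      have h8 : log g ≤ g := by
        have := log_le_sub_one_of_pos hg0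
        linarith
      calc log (l₁ : ℝ) ≤ log (2000 * Λ * g) := log_le_log hl0 h6
        _ = log (2000 * Λ) + log g := log_mul (by positivity) hg0.ne'
        _ ≤ 3 * g := by linarith
    have h9 : 100 * (Λ : ℝ) * (s / l₁) ≤ s := by
      rw [← mul_div_assoc, div_le_iff₀ hl0]
      have h10 : 100 * (Λ : ℝ) ≤ l₁ := by linarith
      calc 100 * (Λ : ℝ) * s ≤ l₁ * s := mul_le_mul_of_nonneg_right h10 (by positivity)
        _ = s * l₁ := by ring
    calc 100 * (Λ : ℝ) * log (16000 * K * Λ * M * ((l₁ + s : ℕ) : ℝ))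
        ≤ 100 * (Λ : ℝ) * (g + 3 * g + s / l₁) := by
          refine mul_le_mul_of_nonneg_left ?_ (by positivity)
          linarith
      _ = 400 * (Λ * g) + 100 * (Λ : ℝ) * (s / l₁) := by ring
      _ ≤ 1000 * Λ * g + s := by
          have : 0 ≤ (Λ : ℝ) * g := by positivity
          linarith
      _ ≤ l₁ + s := by linarith
      _ = ((l₁ + s : ℕ) : ℝ) := by push_cast; ring
  · rw [← hG]
    have h1 : (2 : ℝ) ^ l₁ ≤ 2 * (G : ℝ) ^ (1000 * Λ) := by
      have h2 : (2 : ℝ) ^ l₁ = exp (l₁ * log 2) := by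
        rw [← log_pow, exp_log (by positivity)]
      have h3 : (G : ℝ) ^ (1000 * Λ) = exp (1000 * Λ * g) := by
        rw [hg]
        have h4 : (1000 : ℝ) * Λ * log G = log ((G : ℝ) ^ (1000 * Λ)) := by
          rw [log_pow]
          push_cast
          ring
        rw [h4, exp_log (by positivity)]
      have h5 : (2 : ℝ) = exp (log 2) := (exp_log (by norm_num)).symm
      have h6 : 2 * exp (1000 * Λ * g) = exp (log 2 + 1000 * Λ * g) := by
        rw [exp_add, ← h5]
      rw [h2, h3, h6, exp_le_exp]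
      have h7 : 0 < log 2 := log_pos (by norm_num)
      have h8 : log 2 ≤ 1 := by
        have := log_two_lt_d9
        linarith
      calc (l₁ : ℝ) * log 2 ≤ (1000 * Λ * g + 1) * log 2 :=
            mul_le_mul_of_nonneg_right hl2.le h7.le
        _ = log 2 + (1000 * Λ * g) * log 2 := by ring
        _ ≤ log 2 + 1000 * Λ * g := by
            have := mul_le_of_le_one_right (a := 1000 * (Λ : ℝ) * g) (by positivity) h8
            linarith
    have h9 : (2 : ℝ) ^ s ≤ 2 * e := by exact_mod_cast hs2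
    rw [pow_add]
    calc (2 : ℝ) ^ l₁ * 2 ^ s ≤ (2 * (G : ℝ) ^ (1000 * Λ)) * (2 * e) :=
          mul_le_mul h1 h9 (by positivity) (by positivity)
      _ = 4 * e * (G : ℝ) ^ (1000 * Λ) := by ring

/-- **The numerical theorem for adaptive algorithms.** `ρ` is the number of branches times `r ^ h`. -/
theorem numAD (K : ℕ) (hK : 1 ≤ K) : ∃ C : ℕ, 1 ≤ C ∧ ∀ (n e m d ν h N Λ M : ℕ) (R0 : ℝ),
    1 ≤ n → 0 < R0 → 1 ≤ e → 1 ≤ d → 1 ≤ h → 1 ≤ N → h ≤ Λ → 1 ≤ M →
    (N * m * d : ℝ) ≤ M * n * R0 → (d : ℝ) ≤ e * R0 → (C * ν * h * N : ℝ) ≤ n * R0 →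
    (n : ℝ) / (N * (e * ((C * M * Λ : ℕ) : ℝ) ^ (C * Λ))) ≤ 1 / 2 ∨
    ∃ (D l b : ℕ), 1 ≤ D ∧ 1 ≤ l ∧ 1 ≤ b ∧ K * (8 * N * D * (l * b + 2 ^ l)) ≤ n ∧
      ∀ B : ℕ, 1 ≤ B → R0 * b ≤ B → ∃ (τ T0 : ℕ) (q : ℝ),
      (T0 : ℝ) + 1 / 8 * (2 * D * l * B) ≤ τ * B ∧ 0 < q ∧ q < 1 ∧
      (2 : ℝ) ^ (2 * D * l) * q ^ T0 ≤ 1 / 2 ∧
      ∀ cf ρ S : ℝ, 1 / 2 ≤ cf → 1 ≤ ρ → 0 ≤ S →
        S ≤ ∑ j ∈ Finset.range (2 * (Λ * D) + 1),
          (5 * ((h * m + Λ * D : ℕ) : ℝ) * (d * (1 - q))) ^ j / (j.factorial : ℝ) →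
        q ^ (h * ν + Λ * D * (d - 1)) * (cf * 2 ^ (2 * D * l)) ≤
          2 * (ρ * S) *
            (((Λ * D : ℕ) + 1) * ∑ j ∈ Finset.range τ, ((2 * D * l).choose j : ℝ)) →
        h * ((n : ℝ) / (N * (e * ((C * M * Λ : ℕ) : ℝ) ^ (C * Λ)))) ≤ log ρ := by
  have hK' : (1 : ℝ) ≤ K := by exact_mod_cast hK
  have hK0 : (0 : ℝ) < K := by linarith
  obtain ⟨C, hC⟩ : ∃ C : ℕ, C = 10000000 * K := ⟨_, rfl⟩
  have hCr : (C : ℝ) = 10000000 * K := by rw [hC]; push_cast; ring
  have hC0 : (0 : ℝ) < C := by rw [hCr]; positivity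
  refine ⟨C, by omega, ?_⟩
  intro n e m d ν h N Λ M R0 hn hR00 he hd hh hN hhΛ hM hmd' hde' hν'
  have hΛ : 1 ≤ Λ := hh.trans hhΛ
  have hn' : (1 : ℝ) ≤ n := by exact_mod_cast hn
  have hn0 : (0 : ℝ) < n := by linarith
  have he' : (1 : ℝ) ≤ e := by exact_mod_cast he
  have he0 : (0 : ℝ) < e := by linarith
  have hd' : (1 : ℝ) ≤ d := by exact_mod_cast hd
  have hd0 : (0 : ℝ) < d := by linarith
  have hh' : (1 : ℝ) ≤ h := by exact_mod_cast hh
  have hh0 : (0 : ℝ) < h := by linarith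
  have hN' : (1 : ℝ) ≤ N := by exact_mod_cast hN
  have hN0 : (0 : ℝ) < N := by linarith
  have hM' : (1 : ℝ) ≤ M := by exact_mod_cast hM
  have hM0 : (0 : ℝ) < M := by linarith
  have hΛ' : (1 : ℝ) ≤ Λ := by exact_mod_cast hΛ
  have hΛ0 : (0 : ℝ) < Λ := by linarith
  have hhΛ' : (h : ℝ) ≤ Λ := by exact_mod_cast hhΛ
  obtain ⟨l, hl1, hl2, hl3, hl4⟩ := choose_l (K := K) (e := e) hK hΛ hM he
  obtain ⟨G, hG⟩ : ∃ G : ℝ, G = ((10000000 * K * Λ * M : ℕ) : ℝ) := ⟨_, rfl⟩
  rw [← hG] at hl4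
  have hGr : G = 10000000 * K * Λ * M := by rw [hG]; push_cast; ring
  have hCG : ((C * M * Λ : ℕ) : ℝ) = G := by
    push_cast
    rw [hCr, hGr]
    ring
  rw [hCG]
  have hG1 : 1 ≤ G := by
    rw [hG]
    have : 1 ≤ 10000000 * K * Λ * M := by
      have : 0 < 10000000 * K * Λ * M := by positivity
      omega
    exact_mod_cast this
  have hG0 : 0 < G := by linarith
  have hl1' : 16000 * (Λ : ℝ) ≤ l := by exact_mod_cast hl1
  have hl2' : 4800 * (Λ : ℝ) * e ≤ 2 ^ l := by exact_mod_cast hl2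
  have hl0 : (0 : ℝ) < l := by linarith
  have hlnat : 1 ≤ l := by omega
  have h2l : (0 : ℝ) < 2 ^ l := by positivity
  -- the bound in terms of `2 ^ l`
  have hbound : (n : ℝ) / (N * (e * G ^ (C * Λ))) ≤ n / (32 * K * N * 2 ^ l) := by
    refine div_le_div_of_nonneg_left hn0.le (by positivity) ?_
    have h1 : 32 * (K : ℝ) * 4 ≤ G := by
      rw [hGr]
      have h2 : 1 ≤ (Λ : ℝ) * M := one_le_mul_of_one_le_of_one_le hΛ' hM'
      calc 32 * (K : ℝ) * 4 = 128 * K * 1 := by ring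
        _ ≤ 10000000 * K * (Λ * M) := by
            refine mul_le_mul ?_ h2 (by norm_num) (by positivity)
            exact mul_le_mul_of_nonneg_right (by norm_num) (by positivity)
        _ = _ := by ring
    have h3 : G * G ^ (1000 * Λ) ≤ G ^ (C * Λ) := by
      rw [← pow_succ']
      refine pow_le_pow_right₀ hG1 ?_
      have h4 : 1001 * Λ ≤ C * Λ := Nat.mul_le_mul_right _ (by omega)
      omega
    calc 32 * (K : ℝ) * N * 2 ^ l ≤ 32 * K * N * (4 * e * G ^ (1000 * Λ)) :=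
          mul_le_mul_of_nonneg_left hl4 (by positivity)
      _ = N * (e * ((32 * K * 4) * G ^ (1000 * Λ))) := by ring
      _ ≤ N * (e * (G * G ^ (1000 * Λ))) := by
          refine mul_le_mul_of_nonneg_left ?_ hN0.le
          refine mul_le_mul_of_nonneg_left ?_ he0.le
          exact mul_le_mul_of_nonneg_right h1 (by positivity)
      _ ≤ N * (e * G ^ (C * Λ)) := by
          refine mul_le_mul_of_nonneg_left ?_ hN0.le
          exact mul_le_mul_of_nonneg_left h3 he0.le
  have hpos : 0 < 16 * K * N * 2 ^ l := by positivity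
  by_cases hcase : 16 * K * N * 2 ^ l ≤ n
  · right
    obtain ⟨D, hD⟩ : ∃ D, D = n / (16 * K * N * 2 ^ l) := ⟨_, rfl⟩
    have hD1 : 1 ≤ D := by
      rw [hD, Nat.one_le_div_iff hpos]
      exact hcase
    have hDn : D * (16 * K * N * 2 ^ l) ≤ n := by rw [hD]; exact Nat.div_mul_le_self _ _
    have hnD : n ≤ 2 * (D * (16 * K * N * 2 ^ l)) := by
      have h1 : n < (D + 1) * (16 * K * N * 2 ^ l) := (Nat.div_lt_iff_lt_mul hpos).1 (by omega)
      have h2 : (D + 1) * (16 * K * N * 2 ^ l) ≤ 2 * D * (16 * K * N * 2 ^ l) :=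
        Nat.mul_le_mul_right _ (by omega)
      calc n ≤ 2 * D * (16 * K * N * 2 ^ l) := h1.le.trans h2
        _ = _ := by ring
    have hDn' : (D : ℝ) * (16 * K * N * 2 ^ l) ≤ n := by exact_mod_cast hDn
    have hnD' : (n : ℝ) ≤ 2 * (D * (16 * K * N * 2 ^ l)) := by exact_mod_cast hnD
    have hD1' : (1 : ℝ) ≤ D := by exact_mod_cast hD1
    have hD0 : (0 : ℝ) < D := by linarith
    obtain ⟨b, hb⟩ : ∃ b, b = 2 ^ l / l := ⟨_, rfl⟩
    have hll : l ≤ 2 ^ l := Nat.lt_two_pow_self.le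
    have hb1 : 1 ≤ b := by
      rw [hb, Nat.one_le_div_iff (by omega)]
      exact hll
    have hlb : l * b ≤ 2 ^ l := by rw [hb]; exact Nat.mul_div_le _ _
    have hlb2 : 2 ^ l ≤ 2 * (b * l) := by
      have h1 : 2 ^ l < (b + 1) * l := (Nat.div_lt_iff_lt_mul (by omega)).1 (by omega)
      have h2 : (b + 1) * l ≤ 2 * b * l := Nat.mul_le_mul_right _ (by omega)
      calc 2 ^ l ≤ 2 * b * l := h1.le.trans h2
        _ = _ := by ring
    have hlb2' : (2 : ℝ) ^ l ≤ 2 * (b * l) := by exact_mod_cast hlb2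
    have hb1' : (1 : ℝ) ≤ b := by exact_mod_cast hb1
    have hb0 : (0 : ℝ) < b := by linarith
    have hbudget : K * (8 * N * D * (l * b + 2 ^ l)) ≤ n := by
      calc K * (8 * N * D * (l * b + 2 ^ l)) ≤ K * (8 * N * D * (2 ^ l + 2 ^ l)) := by
            refine Nat.mul_le_mul_left _ (Nat.mul_le_mul_left _ ?_)
            omega
        _ = D * (16 * K * N * 2 ^ l) := by ring
        _ ≤ n := hDn
    refine ⟨D, l, b, hD1, hlnat, hb1, hbudget, ?_⟩
    intro B' hB'1 hB'
    obtain ⟨B, hB⟩ : ∃ B : ℝ, B = (B' : ℝ) := ⟨_, rfl⟩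
    rw [← hB] at hB' ⊢
    have hB1 : 1 ≤ B := by rw [hB]; exact_mod_cast hB'1
    have hB0 : 0 < B := by linarith
    have hBinv : 1 / B ≤ 2 * l / (R0 * 2 ^ l) := by
      rw [div_le_div_iff₀ hB0 (by positivity)]
      calc 1 * (R0 * 2 ^ l) ≤ (R0 : ℝ) * (2 * (b * l)) := by
            rw [one_mul]
            exact mul_le_mul_of_nonneg_left hlb2' hR00.le
        _ = 2 * l * (R0 * b) := by ring
        _ ≤ 2 * l * B := mul_le_mul_of_nonneg_left hB' (by positivity)
    -- `τ`, `T0`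
    obtain ⟨E, hE⟩ : ∃ E : ℕ, E = D * l := ⟨_, rfl⟩
    have hEr : (E : ℝ) = D * l := by rw [hE]; push_cast; ring
    have h2Dl : 2 * D * l = 2 * E := by rw [hE]; ring
    have hE1 : 16000 ≤ E := by
      rw [hE]
      calc 16000 ≤ 16000 * Λ := Nat.le_mul_of_pos_right _ (by omega)
        _ ≤ l := hl1
        _ ≤ D * l := Nat.le_mul_of_pos_left _ (by omega)
    have hE1' : (16000 : ℝ) ≤ E := by exact_mod_cast hE1
    have hE0 : (0 : ℝ) < E := by linarith
    obtain ⟨τ, hτ⟩ : ∃ τ : ℕ, τ = (E + 1) / 2 := ⟨_, rfl⟩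
    have hτ1 : E ≤ 2 * τ := by omega
    have hτ2 : 2 * τ ≤ E + 1 := by omega
    have hτ1' : (E : ℝ) ≤ 2 * τ := by exact_mod_cast hτ1
    obtain ⟨T0, hT0⟩ : ∃ T0 : ℕ, T0 = ⌊(E : ℝ) * B / 4⌋₊ := ⟨_, rfl⟩
    have hT01 : (T0 : ℝ) ≤ E * B / 4 := by rw [hT0]; exact Nat.floor_le (by positivity)
    have hEB : 16000 ≤ (E : ℝ) * B := by
      calc (16000 : ℝ) = 16000 * 1 := by norm_num
        _ ≤ E * B := mul_le_mul hE1' hB1 (by norm_num) hE0.le
    have hT02 : (E : ℝ) * B / 8 ≤ T0 := by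
      have h3 : (E : ℝ) * B / 4 < T0 + 1 := by rw [hT0]; exact Nat.lt_floor_add_one _
      linarith
    have hτT : (T0 : ℝ) + 1 / 8 * (2 * D * l * B) ≤ τ * B := by
      have h1 : 1 / 8 * (2 * (D : ℝ) * l * B) = E * B / 4 := by rw [hEr]; ring
      have h2 : (E : ℝ) * B ≤ 2 * τ * B := mul_le_mul_of_nonneg_right hτ1' hB0.le
      rw [h1]
      linarith
    obtain ⟨q, hq⟩ : ∃ q : ℝ, q = exp (-(24 / B)) := ⟨_, rfl⟩
    have hq0 : 0 < q := by rw [hq]; exact exp_pos _
    have hq1 : q < 1 := by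
      rw [hq, exp_lt_one_iff]
      have : 0 < 24 / B := by positivity
      linarith
    have hqpow : ∀ s : ℕ, q ^ s = exp (-(24 / B * s)) := by
      intro s
      rw [hq, ← exp_nat_mul]
      congr 1
      ring
    have h1q : 1 - q ≤ 24 / B := by
      have := add_one_le_exp (-(24 / B))
      rw [hq]
      linarith
    have h1q0 : 0 ≤ 1 - q := by linarith
    have hexp1 : (2 : ℝ) ≤ exp 1 := by
      have := add_one_le_exp (1 : ℝ)
      linarith
    have hhalf : (2 : ℝ) ^ (2 * D * l) * q ^ T0 ≤ 1 / 2 := by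
      have h3 : (2 : ℝ) ^ (2 * D * l) ≤ exp (2 * E) := by
        rw [h2Dl]
        calc (2 : ℝ) ^ (2 * E) ≤ exp 1 ^ (2 * E) := pow_le_pow_left₀ (by norm_num) hexp1 _
          _ = exp (2 * E) := by
              rw [← exp_nat_mul, mul_one]
              push_cast
              rfl
      have h4 : q ^ T0 ≤ exp (-(3 * E)) := by
        rw [hqpow, exp_le_exp]
        have h5 : 24 / B * (E * B / 8) ≤ 24 / B * T0 :=
          mul_le_mul_of_nonneg_left hT02 (by positivity)
        have h6 : 24 / B * (E * B / 8) = 3 * E := by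
          field_simp
          norm_num
        linarith
      calc (2 : ℝ) ^ (2 * D * l) * q ^ T0 ≤ exp (2 * E) * exp (-(3 * E)) :=
            mul_le_mul h3 h4 (by positivity) (exp_pos _).le
        _ = exp (-E) := by
            rw [← exp_add]
            congr 1
            ring
        _ ≤ exp (-1) := exp_le_exp.2 (by linarith)
        _ ≤ 1 / 2 := by
            rw [exp_neg, ← one_div]
            exact one_div_le_one_div_of_le (by norm_num) hexp1
    refine ⟨τ, T0, q, hτT, hq0, hq1, hhalf, ?_⟩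
    intro cf ρ S hcf hρ hS0 hSle hmain
    have hρ0 : 0 < ρ := by linarith
    -- the sum
    obtain ⟨Y, hY⟩ : ∃ Y : ℝ, Y = 16000 * K * Λ * M * l := ⟨_, rfl⟩
    have hY1 : 1 ≤ Y := by
      have h1 : 1 ≤ (K : ℝ) * Λ * M :=
        one_le_mul_of_one_le_of_one_le (one_le_mul_of_one_le_of_one_le hK' hΛ') hM'
      have h2 : (1 : ℝ) ≤ l := by linarith
      have h3 : 1 ≤ (K : ℝ) * Λ * M * l := one_le_mul_of_one_le_of_one_le h1 h2
      rw [hY]
      calc (1 : ℝ) ≤ 16000 * (K * Λ * M * l) := by linarith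
        _ = _ := by ring
    have hY0 : 0 < Y := by linarith
    rw [← hY] at hl3
    obtain ⟨z, hz⟩ : ∃ z : ℝ, z = 1 / Y := ⟨_, rfl⟩
    have hz0 : 0 < z := by rw [hz]; positivity
    have hz1 : z ≤ 1 := by rw [hz, div_le_one hY0]; exact hY1
    have h1z : 1 / z = Y := by rw [hz, one_div_one_div]
    have hΛD1 : 1 ≤ (Λ : ℝ) * D := one_le_mul_of_one_le_of_one_le hΛ' hD1'
    have h1l : (1 : ℝ) / 2 ^ l ≤ 32 * K * N * D / n := by
      rw [div_le_div_iff₀ h2l hn0]
      linarith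
    have hDe : (N : ℝ) * (D * e) ≤ n := by
      have h1 : (e : ℝ) ≤ 16 * K * 2 ^ l := by
        have h2 : (e : ℝ) ≤ 4800 * Λ * e := by
          have : (1 : ℝ) ≤ 4800 * Λ := by linarith
          exact le_mul_of_one_le_left he0.le this
        have h3 : (1 : ℝ) ≤ 16 * K := by linarith
        calc (e : ℝ) ≤ 2 ^ l := h2.trans hl2'
          _ ≤ 16 * K * 2 ^ l := le_mul_of_one_le_left h2l.le h3
      calc (N : ℝ) * (D * e) ≤ N * (D * (16 * K * 2 ^ l)) := by
            refine mul_le_mul_of_nonneg_left ?_ hN0.le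
            exact mul_le_mul_of_nonneg_left h1 hD0.le
        _ = (D : ℝ) * (16 * K * N * 2 ^ l) := by ring
        _ ≤ n := hDn'
    have hx : 5 * ((h * m + Λ * D : ℕ) : ℝ) * (d * (1 - q)) ≤ Y * D := by
      have h1 : N * (((h * m + Λ * D : ℕ) : ℝ) * d) ≤ 2 * Λ * M * n * R0 := by
        have h2 : (h : ℝ) * (N * m * d) ≤ Λ * (M * n * R0) :=
          mul_le_mul hhΛ' hmd' (by positivity) hΛ0.le
        have h3 : (N : ℝ) * (((Λ : ℝ) * D) * d) ≤ Λ * M * n * R0 := by
          calc (N : ℝ) * (((Λ : ℝ) * D) * d) ≤ N * ((Λ * D) * (e * R0)) := by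
                refine mul_le_mul_of_nonneg_left ?_ hN0.le
                exact mul_le_mul_of_nonneg_left hde' (by positivity)
            _ = Λ * (N * (D * e)) * R0 := by ring
            _ ≤ Λ * n * R0 := by
                refine mul_le_mul_of_nonneg_right ?_ hR00.le
                exact mul_le_mul_of_nonneg_left hDe hΛ0.le
            _ = Λ * n * R0 * 1 := by ring
            _ ≤ Λ * n * R0 * M := mul_le_mul_of_nonneg_left hM' (by positivity)
            _ = _ := by ring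
        push_cast
        calc (N : ℝ) * (((h : ℝ) * m + Λ * D) * d) = h * (N * m * d) + N * ((Λ * D) * d) := by ring
          _ ≤ Λ * (M * n * R0) + Λ * M * n * R0 := add_le_add h2 h3
          _ = _ := by ring
      have h2 : ((h * m + Λ * D : ℕ) : ℝ) * d ≤ 2 * Λ * M * n * R0 / N := by
        rw [le_div_iff₀ hN0]
        linarith
      calc 5 * ((h * m + Λ * D : ℕ) : ℝ) * (d * (1 - q))
          = 5 * (((h * m + Λ * D : ℕ) : ℝ) * d) * (1 - q) := by ring
        _ ≤ 5 * (2 * Λ * M * n * R0 / N) * (24 / B) := by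
            refine mul_le_mul ?_ h1q h1q0 (by positivity)
            exact mul_le_mul_of_nonneg_left h2 (by norm_num)
        _ = 240 * Λ * M * n * R0 / N * (1 / B) := by ring
        _ ≤ 240 * Λ * M * n * R0 / N * (2 * l / (R0 * 2 ^ l)) :=
            mul_le_mul_of_nonneg_left hBinv (by positivity)
        _ = 480 * Λ * M * n * l / N * (1 / 2 ^ l) := by
            field_simp
            ring
        _ ≤ 480 * Λ * M * n * l / N * (32 * K * N * D / n) :=
            mul_le_mul_of_nonneg_left h1l (by positivity)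
        _ = 15360 * K * Λ * M * l * D := by
            field_simp
            ring
        _ ≤ Y * D := by
            rw [hY]
            refine mul_le_mul_of_nonneg_right ?_ hD0.le
            have : 0 ≤ (K : ℝ) * Λ * M * l := by positivity
            linarith
    have hx0 : 0 ≤ 5 * ((h * m + Λ * D : ℕ) : ℝ) * (d * (1 - q)) := by positivity
    have hS := hSle.trans (Pool.GTN.sum_le hx0 hz0 hz1 (2 * (Λ * D)))
    obtain ⟨lam, hlam⟩ : ∃ lam : ℝ, lam = log Y := ⟨_, rfl⟩
    rw [← hlam] at hl3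
    have hlam0 : 0 ≤ lam := by rw [hlam]; exact log_nonneg hY1
    have hS2 : S ≤ exp (2 * Λ * D * lam + D) := by
      refine hS.trans ?_
      rw [exp_add, h1z]
      refine mul_le_mul (le_of_eq ?_) (exp_le_exp.2 ?_) (exp_pos _).le (exp_pos _).le
      · have h1 : 2 * (Λ : ℝ) * D * lam = log (Y ^ (2 * (Λ * D))) := by
          rw [log_pow, ← hlam]
          push_cast
          ring
        rw [h1, exp_log (by positivity)]
      · calc z * (5 * ((h * m + Λ * D : ℕ) : ℝ) * (d * (1 - q))) ≤ z * (Y * D) :=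
              mul_le_mul_of_nonneg_left hx hz0.le
          _ = D := by
              rw [hz]
              field_simp
    -- the price of the cofactors
    have hprice : exp (-(E / 50)) ≤ q ^ (h * ν + Λ * D * (d - 1)) := by
      rw [hqpow, exp_le_exp, neg_le_neg_iff]
      have h1 : ((h * ν + Λ * D * (d - 1) : ℕ) : ℝ) ≤ h * ν + Λ * D * (e * R0) := by
        have h2 : ((h * ν + Λ * D * (d - 1) : ℕ) : ℝ) ≤ h * ν + Λ * D * d := by
          have h3 : h * ν + Λ * D * (d - 1) ≤ h * ν + Λ * D * d :=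
            Nat.add_le_add_left (Nat.mul_le_mul_left _ (Nat.sub_le _ _)) _
          exact_mod_cast h3
        refine h2.trans ?_
        have : (Λ : ℝ) * D * d ≤ Λ * D * (e * R0) :=
          mul_le_mul_of_nonneg_left hde' (by positivity)
        linarith
      have h3 : 24 / B * (h * ν : ℝ) ≤ E / 100 := by
        have h4 : (h : ℝ) * ν ≤ n * R0 / (C * N) := by
          rw [le_div_iff₀ (by positivity)]
          calc (h : ℝ) * ν * (C * N) = C * ν * h * N := by ring
            _ ≤ n * R0 := hν'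
        calc 24 / B * (h * ν : ℝ) = 24 * (h * ν) * (1 / B) := by ring
          _ ≤ 24 * (n * R0 / (C * N)) * (2 * l / (R0 * 2 ^ l)) := by
              refine mul_le_mul ?_ hBinv (by positivity) (by positivity)
              exact mul_le_mul_of_nonneg_left h4 (by norm_num)
          _ = 48 * n * l / (C * N) * (1 / 2 ^ l) := by
              field_simp
              ring
          _ ≤ 48 * n * l / (C * N) * (32 * K * N * D / n) :=
              mul_le_mul_of_nonneg_left h1l (by positivity)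
          _ = 1536 / 10000000 * (D * l) := by
              rw [hCr]
              field_simp
              ring
          _ ≤ E / 100 := by
              rw [← hEr]
              linarith
      have h5 : 24 / B * (Λ * D * (e * R0) : ℝ) ≤ E / 100 := by
        have h6 : (Λ : ℝ) * e / 2 ^ l ≤ 1 / 4800 := by
          rw [div_le_div_iff₀ h2l (by norm_num)]
          linarith
        calc 24 / B * (Λ * D * (e * R0) : ℝ) = 24 * (Λ * D * (e * R0)) * (1 / B) := by ring
          _ ≤ 24 * (Λ * D * (e * R0)) * (2 * l / (R0 * 2 ^ l)) :=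
              mul_le_mul_of_nonneg_left hBinv (by positivity)
          _ = 48 * (D * l) * (Λ * e / 2 ^ l) := by
              field_simp
              ring
          _ ≤ 48 * (D * l) * (1 / 4800) := mul_le_mul_of_nonneg_left h6 (by positivity)
          _ = E / 100 := by
              rw [hEr]
              ring
      calc 24 / B * ((h * ν + Λ * D * (d - 1) : ℕ) : ℝ) ≤ 24 / B * (h * ν + Λ * D * (e * R0)) :=
            mul_le_mul_of_nonneg_left h1 (by positivity)
        _ = 24 / B * (h * ν : ℝ) + 24 / B * (Λ * D * (e * R0) : ℝ) := by ring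
        _ ≤ E / 50 := by linarith
    -- the volume
    obtain ⟨V, hV⟩ : ∃ V : ℝ, V = ∑ j ∈ Finset.range τ, ((2 * D * l).choose j : ℝ) := ⟨_, rfl⟩
    have hV0 : 0 ≤ V := by rw [hV]; exact Finset.sum_nonneg fun j _ => by positivity
    have hvol : V * exp (E / 4) ≤ 2 ^ (2 * D * l) := by
      have h1 := vol_le (M := E) (τ := τ) hτ2
      rw [h2Dl] at hV ⊢
      rw [hV, Finset.sum_mul]
      exact h1
    rw [← hV] at hmain
    have hΛexp : ((Λ * D : ℕ) : ℝ) + 1 ≤ exp (Λ * D) := by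
      push_cast
      exact add_one_le_exp _
    have h4e : (4 : ℝ) ≤ exp (2 * D) := by
      calc (4 : ℝ) = 2 * 2 := by norm_num
        _ ≤ exp 1 * exp 1 := mul_le_mul hexp1 hexp1 (by norm_num) (exp_pos _).le
        _ = exp 2 := by rw [← exp_add]; norm_num
        _ ≤ exp (2 * D) := exp_le_exp.2 (by linarith)
    have hall : exp (-(E / 50)) * exp (E / 4) ≤
        ρ * (exp (2 * D) * exp (2 * Λ * D * lam + D) * exp (Λ * D)) := by
      -- multiply `hmain`
      have h1 : exp (-(E / 50)) * (V * exp (E / 4)) ≤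
          4 * (ρ * S) * ((((Λ * D : ℕ) : ℝ) + 1) * V) := by
        calc exp (-(E / 50)) * (V * exp (E / 4)) ≤
            q ^ (h * ν + Λ * D * (d - 1)) * 2 ^ (2 * D * l) :=
              mul_le_mul hprice hvol (by positivity) (by positivity)
          _ = 2 * (q ^ (h * ν + Λ * D * (d - 1)) * (1 / 2 * 2 ^ (2 * D * l))) := by ring
          _ ≤ 2 * (q ^ (h * ν + Λ * D * (d - 1)) * (cf * 2 ^ (2 * D * l))) := by
              refine mul_le_mul_of_nonneg_left ?_ (by norm_num)
              refine mul_le_mul_of_nonneg_left ?_ (by positivity)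
              exact mul_le_mul_of_nonneg_right hcf (by positivity)
          _ ≤ 2 * (2 * (ρ * S) * ((((Λ * D : ℕ) : ℝ) + 1) * V)) :=
              mul_le_mul_of_nonneg_left hmain (by norm_num)
          _ = _ := by ring
      have hVpos : 0 < V := by
        rw [hV]
        refine Finset.sum_pos' (fun j _ => by positivity) ⟨0, Finset.mem_range.2 (by omega), ?_⟩
        simp
      have h2 : V * (exp (-(E / 50)) * exp (E / 4)) ≤
          V * (4 * (ρ * S) * (((Λ * D : ℕ) : ℝ) + 1)) := by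
        calc V * (exp (-(E / 50)) * exp (E / 4)) = exp (-(E / 50)) * (V * exp (E / 4)) := by ring
          _ ≤ _ := h1
          _ = _ := by ring
      have h3 := le_of_mul_le_mul_left h2 hVpos
      refine h3.trans ?_
      calc 4 * (ρ * S) * (((Λ * D : ℕ) : ℝ) + 1)
          = ρ * (4 * S * (((Λ * D : ℕ) : ℝ) + 1)) := by ring
        _ ≤ ρ * (exp (2 * D) * exp (2 * Λ * D * lam + D) * exp (Λ * D)) := by
            refine mul_le_mul_of_nonneg_left ?_ hρ0.le
            refine mul_le_mul ?_ hΛexp (by positivity) (by positivity)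
            exact mul_le_mul h4e hS2 hS0 (exp_pos _).le
    have hlog : E / 4 - E / 50 - (2 * D + (2 * Λ * D * lam + D) + Λ * D) ≤ log ρ := by
      rw [le_log_iff_exp_le hρ0]
      have h1 : exp (-(E / 50)) * exp (E / 4) =
          exp (E / 4 - E / 50 - (2 * D + (2 * Λ * D * lam + D) + Λ * D)) *
            exp (2 * D + (2 * Λ * D * lam + D) + Λ * D) := by
        rw [← exp_add, ← exp_add]
        congr 1
        ring
      have h2 : exp (2 * D) * exp (2 * Λ * D * lam + D) * exp (Λ * D) =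
          exp (2 * (D : ℝ) + (2 * Λ * D * lam + D) + Λ * D) := by
        rw [← exp_add, ← exp_add]
      rw [h1, h2] at hall
      exact le_of_mul_le_mul_right hall (exp_pos _)
    refine le_trans ?_ hlog
    -- the final estimate: `h n / (32 K N 2^l) ≤ h D ≤ ...`
    have hnD2 : (n : ℝ) / (32 * K * N * 2 ^ l) ≤ D := by
      rw [div_le_iff₀ (by positivity)]
      calc (n : ℝ) ≤ 2 * (D * (16 * K * N * 2 ^ l)) := hnD'
        _ = D * (32 * K * N * 2 ^ l) := by ring
    have h10 : (h : ℝ) * ((n : ℝ) / (N * (e * G ^ (C * Λ)))) ≤ Λ * D :=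
      mul_le_mul hhΛ' (hbound.trans hnD2) (by positivity) hΛ0.le
    refine h10.trans ?_
    have h11 : (D : ℝ) * (100 * Λ * lam) ≤ E := by
      rw [hEr]
      exact mul_le_mul_of_nonneg_left hl3 hD0.le
    have h12 : (D : ℝ) * (16000 * Λ) ≤ E := by
      rw [hEr]
      exact mul_le_mul_of_nonneg_left hl1' hD0.le
    have h13 : (D : ℝ) ≤ Λ * D := le_mul_of_one_le_left hD0.le hΛ'
    have h14 : 2 * Λ * D * lam = (D * (100 * Λ * lam)) / 50 := by ring
    have h15 : (D : ℝ) * (16000 * Λ) = 16000 * (Λ * D) := by ring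
    rw [h15] at h12
    rw [h14]
    linarith
  · left
    push Not at hcase
    have hcase' : (n : ℝ) < 16 * K * N * 2 ^ l := by exact_mod_cast hcase
    refine hbound.trans ?_
    rw [div_le_div_iff₀ (by positivity) (by norm_num)]
    linarith

/-- the sum with binomial coefficients -/
theorem choose_form {h m L d : ℕ} (hL : 1 ≤ L) {q : ℝ} (hq0 : 0 < q) (hq1 : q < 1) :
    ∑ j ∈ Finset.range (2 * L + 1),
      ((2 * (h * m) + 2 * L + 1 + j).choose j : ℝ) * (1 - q ^ d) ^ j ≤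
    ∑ j ∈ Finset.range (2 * L + 1),
      (5 * ((h * m + L : ℕ) : ℝ) * (d * (1 - q))) ^ j / (j.factorial : ℝ) := by
  refine Finset.sum_le_sum fun j hj => ?_
  have hj' : j ≤ 2 * L := by
    have := Finset.mem_range.1 hj
    omega
  have h1 : ((2 * (h * m) + 2 * L + 1 + j).choose j : ℝ) ≤
      ((2 * (h * m) + 2 * L + 1 + j : ℕ) : ℝ) ^ j / (j.factorial : ℝ) :=
    Nat.choose_le_pow_div j (2 * (h * m) + 2 * L + 1 + j)
  have h2 : ((2 * (h * m) + 2 * L + 1 + j : ℕ) : ℝ) ≤ 5 * ((h * m + L : ℕ) : ℝ) := by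
    have h3 : 2 * (h * m) + 2 * L + 1 + j ≤ 5 * (h * m + L) := by omega
    exact_mod_cast h3
  have hq : 0 ≤ 1 - q ^ d := by
    have := pow_le_one₀ (n := d) hq0.le hq1.le
    linarith
  have h3 : 1 - q ^ d ≤ d * (1 - q) := by
    have h4 := one_add_mul_le_pow (a := q - 1) (by linarith) d
    have h5 : (1 + (q - 1)) = q := by ring
    rw [h5] at h4
    linarith
  calc ((2 * (h * m) + 2 * L + 1 + j).choose j : ℝ) * (1 - q ^ d) ^ j
      ≤ (((2 * (h * m) + 2 * L + 1 + j : ℕ) : ℝ) ^ j / (j.factorial : ℝ)) * (d * (1 - q)) ^ j :=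
        mul_le_mul h1 (pow_le_pow_left₀ hq h3 j) (by positivity) (by positivity)
    _ ≤ ((5 * ((h * m + L : ℕ) : ℝ)) ^ j / (j.factorial : ℝ)) * (d * (1 - q)) ^ j := by
        refine mul_le_mul_of_nonneg_right ?_ (pow_nonneg (hq.trans h3) j)
        exact div_le_div_of_nonneg_right (pow_le_pow_left₀ (by positivity) h2 j) (by positivity)
    _ = _ := by rw [mul_pow (5 * ((h * m + L : ℕ) : ℝ))]; ring

/-- the sum of `Pool.GT.RP` -/
theorem RP_form {h m L d : ℕ} (hL : 1 ≤ L) {q : ℝ} (hq1 : q < 1) :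
    ∑ j ∈ Finset.range (2 * L + 1),
      (2 * ((h * m + L + 1 : ℕ) : ℝ) * (d * (1 - q))) ^ j / (j.factorial : ℝ) ≤
    ∑ j ∈ Finset.range (2 * L + 1),
      (5 * ((h * m + L : ℕ) : ℝ) * (d * (1 - q))) ^ j / (j.factorial : ℝ) := by
  have hq : 0 ≤ 1 - q := by linarith
  refine Finset.sum_le_sum fun j _ => ?_
  refine div_le_div_of_nonneg_right ?_ (by positivity)
  refine pow_le_pow_left₀ (by positivity) ?_ j
  refine mul_le_mul_of_nonneg_right ?_ (by positivity)
  have h3 : 2 * (h * m + L + 1) ≤ 5 * (h * m + L) := by omega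
  exact_mod_cast h3

end Pool.ADN
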